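import Mathlib

/-!
# p-independent families: definitions
-/

namespace TA

/-- the monomial with exponents `t i < p` -/
def pmon {F : Type*} [Field F] {ι : Type*} [Fintype ι] {p : ℕ} (z : ι → F) (t : ι → Fin p) : F :=
  ∏ i, z i ^ (t i : ℕ)

/-- The family `z` is `p`-independent in the field `F` of characteristic `p`: its monomials with
exponents `< p` are linearly independent over the field of `p`-th powers. -/
def PInd (p : ℕ) {F : Type*} [Field F] {ι : Type*} [Fintype ι] [DecidableEq ι] (z : ι → F) : Prop :=
  ∀ c : (ι → Fin p) → F, ∑ t, pmon z t * c t ^ p = 0 → ∀ t, c t = 0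

/-- the family `z` with one more member `v` -/
def ext1 {F : Type*} {ι : Type*} (z : ι → F) (v : F) : Option ι → F := fun i => i.elim v z

end TA
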