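import Pool.Agent.Lib.TA.Defs
import Pool.Agent.Lib.TS.PDefs
import Pool.Agent.Lib.MP_1a953e_ag.EmbDefs

/-!
# Valuations of corank one with finitely generated residue field: definitions
-/

open IsLocalRing Polynomial

namespace TA
open Pool.Agent.Lib.MP_3029eb_ag Pool.Agent.Lib.MP_3029eb_ag.Abh

/-- the homomorphism from a field `k` contained in the valuation ring to the residue field -/
noncomputable def resMap {k K : Type} [Field k] [Field K] [Algebra k K] (V : ValuationSubring K)
    (h : ∀ c : k, algebraMap k K c ∈ V) : k →+* ResidueField V :=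
  (residue V).comp ((algebraMap k K).codRestrict V.toSubring h)

/-- The residue field of `V` is finitely generated over `k`, of transcendence degree `s`. -/
structure ResFG {k K : Type} [Field k] [Field K] [Algebra k K] (V : ValuationSubring K)
    (h : ∀ c : k, algebraMap k K c ∈ V) (s : ℕ) : Prop where
  fg : letI := (resMap V h).toAlgebra; Algebra.EssFiniteType k (ResidueField V)
  tr : letI := (resMap V h).toAlgebra; Algebra.trdeg k (ResidueField V) = (s : Cardinal)

/-- the image of `k` in `F` -/
def kF (k F : Type) [Field k] [Field F] [Algebra k F] : Subfield F := (algebraMap k F).fieldRange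

/-- the field generated by `k` and the family `u` -/
def ku {F : Type} [Field F] (k : Subfield F) {ι : Type} (u : ι → F) : Subfield F :=
  k ⊔ Subfield.closure (Set.range u)

/-- Generators of the residue field: `κ = k (u)` is trivially normed, `P` is a monic polynomial over `κ`
whose reduction is the minimal polynomial of the residue of `e`, a simple root, every element of norm
`≤ 1` is congruent to an element `g(e)`, `g` over `κ`, and the residues of the `u i` are
`p`-independent. -/
structure ResData (p : ℕ) {F : Type} [NormedField F] (k : Subfield F) {s : ℕ} (u : Fin s → F)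
    (e : F) (P : F[X]) : Prop where
  triv : ∀ x ∈ ku k u, x ≠ 0 → ‖x‖ = 1
  le : ‖e‖ ≤ 1
  poly : HR.PolyIn (ku k u) P
  monic : P.Monic
  min : ∀ g : F[X], HR.PolyIn (ku k u) g → g ≠ 0 → g.natDegree < P.natDegree → ‖g.eval e‖ = 1
  root : ‖P.eval e‖ < 1
  simple : ‖P.derivative.eval e‖ = 1
  res : ∀ z : F, ‖z‖ ≤ 1 → ∃ g : F[X], HR.PolyIn (ku k u) g ∧ ‖z - g.eval e‖ < 1
  pind : ∀ (c : (Fin s → Fin p) → F) (t : Fin s → Fin p),
    ‖c t‖ ^ p ≤ ‖∑ t, pmon u t * c t ^ p‖

/-- the finite set of generators of the coefficient field -/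
noncomputable def gensOf {F : Type} [NormedField F] {s r : ℕ} (u : Fin s → F) (e : F)
    (w : Fin r → F) : Finset F := by
  classical exact Finset.univ.image u ∪ {e} ∪ Finset.univ.image w

theorem coe_gensOf {F : Type} [NormedField F] {s r : ℕ} (u : Fin s → F) (e : F) (w : Fin r → F) :
    (gensOf u e w : Set F) = Set.range u ∪ {e} ∪ Set.range w := by
  unfold gensOf
  push_cast
  simp

/-- the coefficient field -/
def Lof {F : Type} [NormedField F] (k : Subfield F) {s r : ℕ} (u : Fin s → F) (e : F)
    (w : Fin r → F) : Subfield F := k ⊔ Subfield.closure (gensOf u e w : Set F)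

theorem adjoin_toSubfield_eq {k F : Type} [Field k] [Field F] [Algebra k F] (S : Set F) :
    (IntermediateField.adjoin k S).toSubfield = kF k F ⊔ Subfield.closure S := by
  rw [IntermediateField.adjoin_toSubfield, Subfield.closure_union]
  congr 1
  rw [kF, show Set.range (algebraMap k F) = ((algebraMap k F).fieldRange : Set F) from by
    ext x; simp, Subfield.closure_eq]

theorem mem_adjoin_iff' {k F : Type} [Field k] [Field F] [Algebra k F] (S : Set F) (x : F) :
    x ∈ IntermediateField.adjoin k S ↔ x ∈ kF k F ⊔ Subfield.closure S := by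
  rw [← adjoin_toSubfield_eq]
  rfl

theorem ku_le_Lof {F : Type} [NormedField F] (k : Subfield F) {s r : ℕ} (u : Fin s → F) (e : F)
    (w : Fin r → F) : ku k u ≤ Lof k u e w := by
  refine sup_le_sup le_rfl (Subfield.closure_mono ?_)
  rw [coe_gensOf]
  exact fun x hx => Or.inl (Or.inl hx)

theorem e_mem_Lof {F : Type} [NormedField F] (k : Subfield F) {s r : ℕ} (u : Fin s → F) (e : F)
    (w : Fin r → F) : e ∈ Lof k u e w := by
  refine (le_sup_right : Subfield.closure _ ≤ _) (Subfield.subset_closure ?_)
  rw [coe_gensOf]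
  exact Or.inl (Or.inr rfl)

theorem w_mem_Lof {F : Type} [NormedField F] (k : Subfield F) {s r : ℕ} (u : Fin s → F) (e : F)
    (w : Fin r → F) (i : Fin r) : w i ∈ Lof k u e w := by
  refine (le_sup_right : Subfield.closure _ ≤ _) (Subfield.subset_closure ?_)
  rw [coe_gensOf]
  exact Or.inr ⟨i, rfl⟩

theorem u_mem_Lof {F : Type} [NormedField F] (k : Subfield F) {s r : ℕ} (u : Fin s → F) (e : F)
    (w : Fin r → F) (i : Fin s) : u i ∈ Lof k u e w := by
  refine (le_sup_right : Subfield.closure _ ≤ _) (Subfield.subset_closure ?_)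
  rw [coe_gensOf]
  exact Or.inl (Or.inl ⟨i, rfl⟩)

theorem k_le_Lof {F : Type} [NormedField F] (k : Subfield F) {s r : ℕ} (u : Fin s → F) (e : F)
    (w : Fin r → F) : k ≤ Lof k u e w := le_sup_left

end TA
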