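import Pool.Agent.Lib.TS.TAD
import Pool.Agent.Lib.TA.Emb
import Pool.Agent.Lib.MP_3029eb_ag.ImpResult

/-!
# Module TS.Fin: the theorem for local domains essentially of finite type

PROOFS.
* `ess_chart`: `Algebra.EssFiniteType k R` gives a finite subset `S₀` of `R` such that every element of `R` is
  `a / b` with `a, b` in `Algebra.adjoin k S₀`, `b` a unit of `R` (definition of `EssFiniteType`, field `cond`:
  `IsLocalization ((IsUnit.submonoid R).comap (algebraMap (adjoin k S₀) R)) R`, `IsLocalization.surj`).  Put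
  `S = S₀.image (algebraMap R K)`.  The image of `adjoin k S₀` in `K` is contained in `gring (kF k K) S`
  (`Algebra.adjoin_induction`; `algebraMap R K (algebraMap k R c) = algebraMap k K c`), and units of `R` have norm
  one (`hRV` for the unit and its inverse).
* `ta_ball`: `K` is essentially of finite type over `k`: `Algebra.EssFiniteType R K` (localization,
  `Algebra.EssFiniteType.of_isLocalization` with `nonZeroDivisors R`) and `Algebra.EssFiniteType.comp k R K`.
  `exists_TAData` and `ta_emb2` with `A0 = (algebraMap R K).range`, `k' = kF k K ⊆ A0`, `S` from `ess_chart`,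
  `hfrac`: `IsLocalization.surj (nonZeroDivisors R)` as in the last lines of
  Pool/Agent/Results/MP_3029eb_ag/ImplicitPrimeRankOne.lean.
  `x` is first replaced by `x' i = x i` if `‖x i‖ < 1` and `(x i)⁻¹` otherwise (`‖x i‖ ≠ 1` by independence with
  `δ = Pi.single i 1`): independence and generation of the value group are preserved
  (`mon x' δ = mon x δ'` with `δ' i = ± δ i`).
* `ta_val`: exactly as `emb2_imp` in Pool/Agent/Lib/MP_3029eb_ag/ImpResult.lean (copy): `V ≠ ⊤` because `r > 0`,
  `exists_absval V hV harch` gives an absolute value, a normed field structure with `V = ball K`; `subst`; then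
  `ta_ball` (`V.valuation` is now the valuation of `ball K`; `V.valuation a = V.valuation b` iff `‖a‖ = ‖b‖`: for
  nonzero elements both say that `a / b` is a unit, `J7_val_one_iff`).
-/

open IsLocalRing Polynomial

namespace TA
open Pool.Agent.Lib.MP_3029eb_ag Pool.Agent.Lib.MP_3029eb_ag.Abh

theorem ess_chart (R k K : Type) [CommRing R] [IsDomain R] [Field k] [Algebra k R]
    [Algebra.EssFiniteType k R] [NormedField K] [IsUltrametricDist K] [Algebra R K]
    [IsFractionRing R K] [Algebra k K] [IsScalarTower k R K]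
    (hRV : ∀ a : R, algebraMap R K a ∈ ball K) :
    ∃ S : Finset K, (S : Set K) ⊆ (algebraMap R K).range ∧
      (algebraMap R K).range ≤ chart (kF k K) (S : Set K) := by
  classical
  obtain ⟨σ, hσ⟩ := (Algebra.essFiniteType_iff (R := k) (S := R)).1 inferInstance
  refine ⟨σ.image (algebraMap R K), ?_, ?_⟩
  · intro x hx
    rw [Finset.coe_image] at hx
    obtain ⟨s, _, rfl⟩ := hx
    exact ⟨s, rfl⟩
  · have hadj : ∀ t ∈ Algebra.adjoin k (σ : Set R), algebraMap R K t ∈
        gring (kF k K) ((σ.image (algebraMap R K) : Finset K) : Set K) := by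
      intro t ht
      induction ht using Algebra.adjoin_induction with
      | mem x hx =>
        refine subset_gring _ _ ?_
        rw [Finset.coe_image]
        exact ⟨x, hx, rfl⟩
      | algebraMap c =>
        rw [← IsScalarTower.algebraMap_apply]
        exact le_gring _ _ ⟨c, rfl⟩
      | add x y _ _ hx hy => rw [map_add]; exact add_mem hx hy
      | mul x y _ _ hx hy => rw [map_mul]; exact mul_mem hx hy
    rintro _ ⟨a, rfl⟩
    obtain ⟨t, ht, htu, hst⟩ := hσ a
    refine ⟨algebraMap R K (a * t), hadj _ hst, algebraMap R K t, hadj _ ht, ?_, by rw [map_mul]⟩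
    rw [val_eq_one_iff]
    obtain ⟨u, rfl⟩ := htu
    have h1 : ‖algebraMap R K (u : R)‖ ≤ 1 := hRV _
    have h2 : ‖algebraMap R K ((u⁻¹ : Rˣ) : R)‖ ≤ 1 := hRV _
    have h3 : ‖algebraMap R K (u : R)‖ * ‖algebraMap R K ((u⁻¹ : Rˣ) : R)‖ = 1 := by
      rw [← norm_mul, ← map_mul, Units.mul_inv, map_one, norm_one]
    refine le_antisymm h1 ?_
    by_contra hlt
    push Not at hlt
    have := mul_lt_mul_of_lt_of_le_of_nonneg_of_pos hlt h2 (norm_nonneg _) one_pos
    rw [h3, one_mul] at this
    exact lt_irrefl _ this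

theorem ta_ball (R k K : Type) [CommRing R] [IsDomain R] [Field k]
    [IsAlgClosed k] [Algebra k R] [Algebra.EssFiniteType k R] [NormedField K]
    [IsUltrametricDist K] [Algebra R K] [IsFractionRing R K] [Algebra k K] [IsScalarTower k R K]
    {p : ℕ} [Fact p.Prime] [CharP k p] (hk : ∀ c : k, algebraMap k K c ∈ ball K)
    (hRV : ∀ a : R, algebraMap R K a ∈ ball K) {r s : ℕ} (hr : 0 < r) {x : Fin r → K}
    (hx0 : ∀ i, x i ≠ 0) (hx : ∀ δ : Fin r → ℤ, ‖mon x δ‖ = 1 → δ = 0)
    (hval : ∀ z : K, z ≠ 0 → ∃ δ : Fin r → ℤ, ‖z‖ = ‖mon x δ‖) (hs : ResFG (ball K) hk s)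
    (htr : Algebra.trdeg k K = ((r + s + 1 : ℕ) : Cardinal)) :
    Imp.EMB2 (ball K) (algebraMap R K).range r 1 := by
  classical
  have hcp : CharP K p := charP_of_injective_algebraMap (algebraMap k K).injective p
  have hRK : Algebra.EssFiniteType R K := Algebra.EssFiniteType.of_isLocalization K (nonZeroDivisors R)
  have hkK : Algebra.EssFiniteType k K := Algebra.EssFiniteType.comp k R K
  have hx1 : ∀ i, ‖x i‖ ≠ 1 := by
    intro i h1
    have h2 : mon x (Pi.single i 1) = x i := by
      unfold mon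
      rw [Finset.prod_eq_single i]
      · simp
      · intro j _ hj
        simp [hj]
      · simp
    have h3 := hx (Pi.single i 1) (by rw [h2]; exact h1)
    have h4 := congrFun h3 i
    simp at h4
  let ε : Fin r → ℤ := fun i => if ‖x i‖ < 1 then 1 else -1
  have hε : ∀ i, ε i * ε i = 1 := by
    intro i
    simp only [ε]
    split_ifs <;> norm_num
  let x' : Fin r → K := fun i => x i ^ ε i
  have hmon : ∀ δ : Fin r → ℤ, mon x' δ = mon x (fun i => ε i * δ i) := by
    intro δ
    simp only [mon, x', zpow_mul]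
  have hmon' : ∀ δ : Fin r → ℤ, mon x δ = mon x' (fun i => ε i * δ i) := by
    intro δ
    rw [hmon]
    congr 1
    funext i
    rw [← mul_assoc, hε, one_mul]
  have hI : Indep x' := by
    refine ⟨fun i => zpow_ne_zero _ (hx0 i), fun i => ?_, fun δ hδ => ?_⟩
    · simp only [x', ε]
      split_ifs with h
      · rwa [zpow_one]
      · have h1 : 1 < ‖x i‖ := lt_of_le_of_ne (not_lt.1 h) (hx1 i).symm
        rw [zpow_neg_one, norm_inv]
        exact inv_lt_one_of_one_lt₀ h1
    · rw [hmon] at hδ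
      have h1 := hx _ hδ
      funext i
      have h2 := congrFun h1 i
      simp only [Pi.zero_apply] at h2 ⊢
      have h3 : ε i * (ε i * δ i) = 0 := by rw [h2, mul_zero]
      rwa [← mul_assoc, hε, one_mul] at h3
  have hval' : ∀ z : K, z ≠ 0 → ∃ δ : Fin r → ℤ, ‖z‖ = ‖mon x' δ‖ := by
    intro z hz
    obtain ⟨δ, hδ⟩ := hval z hz
    exact ⟨_, hδ.trans (by rw [hmon'])⟩
  obtain ⟨gens, w, L, y, th, hy, D⟩ := exists_TAData hk hr hI hval' hs htr
  obtain ⟨S, hS, hRS⟩ := ess_chart R k K hRV
  refine ta_emb2 D hy (A0 := (algebraMap R K).range) ?_ ?_ S hS hRS ?_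
  · rintro _ ⟨c, rfl⟩
    exact ⟨algebraMap k R c, (IsScalarTower.algebraMap_apply k R K c).symm⟩
  · rintro _ ⟨a, rfl⟩
    exact hRV a
  · intro z
    obtain ⟨⟨a, b⟩, hab⟩ := IsLocalization.surj (nonZeroDivisors R) z
    refine ⟨_, ⟨a, rfl⟩, _, ⟨b, rfl⟩, ?_, hab⟩
    intro h0
    exact nonZeroDivisors.ne_zero b.2 (IsFractionRing.injective R K (by rw [h0, map_zero]))

theorem ta_val (R k K : Type) [CommRing R] [IsDomain R] [Field k]
    [IsAlgClosed k] [Algebra k R] [Algebra.EssFiniteType k R] [Field K]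
    [Algebra R K] [IsFractionRing R K] [Algebra k K] [IsScalarTower k R K]
    {p : ℕ} [Fact p.Prime] [CharP k p] (V : ValuationSubring K)
    (harch : ∀ a b : K, a ≠ 0 → V.valuation b < 1 →
      ∃ n : ℕ, V.valuation (b ^ n) ≤ V.valuation a)
    (hk : ∀ c : k, algebraMap k K c ∈ V)
    (hRV : ∀ a : R, algebraMap R K a ∈ V) (r s : ℕ) (hr : 0 < r) (x : Fin r → K)
    (hx0 : ∀ i, x i ≠ 0) (hx : ∀ m : Fin r → ℤ, V.valuation (∏ i, x i ^ m i) = 1 → m = 0)
    (hval : ∀ z : K, z ≠ 0 → ∃ m : Fin r → ℤ, V.valuation z = V.valuation (∏ i, x i ^ m i))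
    (hs : ResFG V hk s) (htr : Algebra.trdeg k K = ((r + s + 1 : ℕ) : Cardinal)) :
    Imp.EMB2 V (algebraMap R K).range r 1 := by
  have hV : V ≠ ⊤ := by
    rintro rfl
    have h1 : ∀ z : K, z ≠ 0 → (⊤ : ValuationSubring K).valuation z = 1 := by
      intro z hz
      rw [C1_val_one_iff]
      exact ⟨ValuationSubring.mem_top _, ValuationSubring.mem_top _, hz⟩
    have h2 := hx (fun _ => 1) (h1 _ (Finset.prod_ne_zero_iff.2 fun i _ =>
      zpow_ne_zero _ (hx0 i)))
    have h3 := congrFun h2 ⟨0, hr⟩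
    exact one_ne_zero h3
  obtain ⟨v, hna, hnt, hVv⟩ := exists_absval V hV harch
  let iN : NormedField K := v.toNormedField
  have hnorm : ∀ z : K, ‖z‖ = v z := fun z => rfl
  have iU : IsUltrametricDist K :=
    IsUltrametricDist.isUltrametricDist_of_forall_norm_add_le_max_norm hna
  have hVb : V = ball K := by
    ext z
    rw [hVv, mem_ball]
    exact Iff.rfl
  subst hVb
  refine ta_ball R k K hk hRV hr (x := x) hx0 (fun δ hδ => hx δ ((val_eq_one_iff _).2 hδ))
    (fun z hz => ?_) hs htr
  obtain ⟨m, hm⟩ := hval z hz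
  have hp : (∏ i, x i ^ m i) ≠ 0 := Finset.prod_ne_zero_iff.2 fun i _ => zpow_ne_zero _ (hx0 i)
  have h1 : (ball K).valuation (z / ∏ i, x i ^ m i) = 1 := by
    rw [map_div₀, hm, div_self]
    exact (Valuation.ne_zero_iff _).2 hp
  rw [val_eq_one_iff, norm_div, div_eq_one_iff_eq (norm_ne_zero_iff.2 hp)] at h1
  exact ⟨m, h1⟩

end TA
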