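import Pool.Agent.Lib.TS.PDefs

/-!
# Module TS.PB2: p-independent families and separability

`k` is algebraically closed (perfect is enough) of characteristic `p`, `F` an extension field.
PROOFS.
* `ai_of_pind`: `p`-independent families are algebraically independent over `k`.  We show by strong
  induction on `n`: if `f ∈ MvPolynomial ι k` has total degree `≤ n` and `f(z) = 0` then `f = 0`.  Write
  `f = ∑ t, X ^ t * (g t) ^ p` with `t : ι → Fin p`, `g t ∈ MvPolynomial ι k` (the monomial `a X ^ m`, with
  `m = t + p • m'`, is `X ^ t * (a ^ (1/p) X ^ m') ^ p`), and the total degree of `g t` is `≤ n / p`.  Then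
  `∑ t, pmon z t * (g t (z)) ^ p = 0`, so `g t (z) = 0` for all `t` by `PInd`.  If `n ≥ 1` then `n / p < n` and the
  induction gives `g t = 0`, `f = 0`.  If `n = 0` then `f` is a constant and `f(z) = 0` gives `f = 0`.
* `em_decomp`: every element of `k(z)` is `∑ t, pmon z t * c t ^ p` with `c t ∈ k(z)`: this is
  `MP1a953e.em7_decomp` (Pool/Agent/Lib/MP_1a953e_ag/Em7.lean, for `ι = Fin m`); either transport it along an
  equivalence `ι ≃ Fin m` or copy its proof.
* `sep_tool`: the hypothesis `H` of
  `exists_isTranscendenceBasis_and_isSeparable_of_linearIndepOn_pow_of_essFiniteType` for the extension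
  `F / k(z)`, `z` `p`-independent: copy from the proof of `MP1a953e.exists_T` (same file): let
  `x j` be linearly independent over `M = k(z)` and `∑ j, g j * x j ^ p = 0`, `g j ∈ M`; write
  `g j = ∑ t, pmon z t * (c j t) ^ p`, so `∑ t, pmon z t * (∑ j, c j t * x j) ^ p = 0`, hence
  `∑ j, c j t * x j = 0`, so `c j t = 0` and `g j = 0`.
* `exists_sep_ext`: by `sep_tool` there is a finite set `s`, a transcendence basis of `F / M`, with
  `F / M(s)` separable.  `z` is algebraically independent (`ai_of_pind`), so `card ι + card s ≤ trdeg k F`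
  (`AlgebraicIndependent.sumElim_comp`, `lift_cardinalMk_le_trdeg`; see `exists_T`), in fact
  equality.  If `trdeg k F = card ι` then `s = ∅` and `F / M` is separable: `sep_of_pind`.  If
  `trdeg k F = card ι + 1` then `s = {v}` (equality: `trdeg k F = card ι + card s` by
  `Algebra.trdeg_add_eq` or since `z` together with `s` is a transcendence basis:
  `IsTranscendenceBasis.sumElim_comp`), `z` and `v` together are algebraically independent and
  `F / k(z, v)` is separable.
-/

open Polynomial

namespace TA

variable {k F : Type} [Field k] [IsAlgClosed k] [Field F] [Algebra k F] {p : ℕ} [Fact p.Prime]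
  [CharP k p] [CharP F p] {ι : Type} [Fintype ι] [DecidableEq ι] {z : ι → F}

private lemma pb2_dec (n : ℕ) (f : MvPolynomial ι k) (hf : f.totalDegree ≤ n) :
    ∃ c : (ι → Fin p) → MvPolynomial ι k, (∀ t, (c t).totalDegree ≤ n / p) ∧
      f = ∑ t, (∏ i, MvPolynomial.X i ^ (t i : ℕ)) * c t ^ p := by
  classical
  have hp0 : 0 < p := (Fact.out : p.Prime).pos
  have : ExpChar (MvPolynomial ι k) p := .prime Fact.out
  let Q : MvPolynomial ι k → Prop := fun f => ∃ c : (ι → Fin p) → MvPolynomial ι k,
    (∀ t, (c t).totalDegree ≤ n / p) ∧ f = ∑ t, (∏ i, MvPolynomial.X i ^ (t i : ℕ)) * c t ^ p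
  have hadd : ∀ f g, Q f → Q g → Q (f + g) := by
    rintro f g ⟨c, hc, rfl⟩ ⟨d, hd, rfl⟩
    refine ⟨fun t => c t + d t, fun t =>
      (MvPolynomial.totalDegree_add _ _).trans (max_le (hc t) (hd t)), ?_⟩
    rw [← Finset.sum_add_distrib]
    refine Finset.sum_congr rfl fun t _ => ?_
    rw [add_pow_expChar]
    ring
  have hzero : Q 0 := ⟨fun _ => 0, fun _ => by simp, by simp [hp0.ne']⟩
  have hmono : ∀ (m : ι →₀ ℕ) (a : k), (m.sum fun _ e => e) ≤ n →
      Q (MvPolynomial.monomial m a) := by
    intro m a hm
    obtain ⟨r, hr⟩ := IsAlgClosed.exists_pow_nat_eq a hp0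
    let t0 : ι → Fin p := fun i => ⟨m i % p, Nat.mod_lt _ hp0⟩
    let m' : ι →₀ ℕ := m.mapRange (fun e => e / p) (Nat.zero_div p)
    refine ⟨fun t => if t = t0 then MvPolynomial.monomial m' r else 0, fun t => ?_, ?_⟩
    · dsimp only
      split_ifs
      · refine (MvPolynomial.totalDegree_monomial_le _ _).trans ?_
        rw [Finsupp.sum_fintype _ _ (fun _ => rfl)]
        rw [Finsupp.sum_fintype _ _ (fun _ => rfl)] at hm
        rw [Nat.le_div_iff_mul_le hp0, Finset.sum_mul]
        refine le_trans (Finset.sum_le_sum fun i _ => ?_) hm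
        exact Nat.div_mul_le_self _ _
      · rw [MvPolynomial.totalDegree_zero]; exact Nat.zero_le _
    · rw [Finset.sum_eq_single t0]
      · simp only [if_true]
        rw [MvPolynomial.monomial_eq, MvPolynomial.monomial_eq,
          Finsupp.prod_fintype _ _ (fun _ => pow_zero _),
          Finsupp.prod_fintype _ _ (fun _ => pow_zero _), mul_pow, ← map_pow, hr,
          ← Finset.prod_pow, mul_left_comm, ← Finset.prod_mul_distrib]
        congr 1
        refine Finset.prod_congr rfl fun i _ => ?_
        rw [← pow_mul, ← pow_add]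
        congr 1
        show m i = m i % p + m i / p * p
        rw [mul_comm, Nat.mod_add_div]
      · intro t _ ht
        simp only [if_neg ht]
        rw [zero_pow hp0.ne', mul_zero]
      · intro h
        exact absurd (Finset.mem_univ _) h
  have h1 : Q (∑ m ∈ f.support, MvPolynomial.monomial m (f.coeff m)) := by
    refine Finset.sum_induction _ Q hadd hzero fun m hm => hmono m _ ?_
    exact (MvPolynomial.le_totalDegree hm).trans hf
  rw [← f.as_sum] at h1
  exact h1

theorem ai_of_pind (hz : PInd p z) : AlgebraicIndependent k z := by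
  have hp : p.Prime := Fact.out
  have key : ∀ n : ℕ, ∀ f : MvPolynomial ι k, f.totalDegree ≤ n →
      MvPolynomial.aeval z f = 0 → f = 0 := by
    intro n
    induction n using Nat.strong_induction_on with
    | _ n ih =>
      intro f hf h0
      rcases Nat.eq_zero_or_pos n with hn | hn
      · rw [hn, Nat.le_zero] at hf
        have hC := MvPolynomial.totalDegree_eq_zero_iff_eq_C.1 hf
        rw [hC, MvPolynomial.aeval_C] at h0
        have h1 := (map_eq_zero (algebraMap k F)).1 h0
        rw [hC, h1, map_zero]
      · obtain ⟨c, hc, hfc⟩ := pb2_dec (p := p) n f hf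
        have h1 : ∑ t, pmon z t * (MvPolynomial.aeval z (c t)) ^ p = 0 := by
          have h2 : MvPolynomial.aeval z f = ∑ t, pmon z t * (MvPolynomial.aeval z (c t)) ^ p := by
            conv_lhs => rw [hfc]
            rw [map_sum]
            refine Finset.sum_congr rfl fun t _ => ?_
            rw [map_mul, map_pow, map_prod]
            unfold pmon
            congr 1
            refine Finset.prod_congr rfl fun i _ => ?_
            rw [map_pow, MvPolynomial.aeval_X]
          rw [← h2, h0]
        have h2 := hz _ h1
        have h3 : ∀ t, c t = 0 := fun t =>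
          ih (n / p) (Nat.div_lt_self hn hp.one_lt) _ (hc t) (h2 t)
        rw [hfc]
        refine Finset.sum_eq_zero fun t _ => ?_
        rw [h3 t, zero_pow hp.ne_zero, mul_zero]
  rw [algebraicIndependent_iff]
  exact fun f hf => key _ f le_rfl hf

theorem em_decomp (z : ι → F) {x : F} (hx : x ∈ IntermediateField.adjoin k (Set.range z)) :
    ∃ c : (ι → Fin p) → F, (∀ t, c t ∈ IntermediateField.adjoin k (Set.range z)) ∧
      x = ∑ t, pmon z t * c t ^ p := by
  classical
  have hp0 : 0 < p := (Fact.out : p.Prime).pos
  have : ExpChar F p := .prime Fact.out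
  set M := IntermediateField.adjoin k (Set.range z) with hM
  have huM : ∀ i, z i ∈ M := fun i => IntermediateField.subset_adjoin _ _ ⟨i, rfl⟩
  -- closed under addition
  let Q : F → Prop := fun x => ∃ c : (ι → Fin p) → F, (∀ t, c t ∈ M) ∧
      x = ∑ t, pmon z t * c t ^ p
  have hadd : ∀ x y, Q x → Q y → Q (x + y) := by
    rintro x y ⟨c, hc, rfl⟩ ⟨d, hd, rfl⟩
    refine ⟨fun s => c s + d s, fun s => add_mem (hc s) (hd s), ?_⟩
    rw [← Finset.sum_add_distrib]
    refine Finset.sum_congr rfl fun s _ => ?_
    rw [add_pow_expChar]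
    ring
  have hzero : Q 0 := ⟨fun _ => 0, fun _ => zero_mem _, by simp [hp0.ne']⟩
  have hmono : ∀ (t : ι → ℕ) (y : F), y ∈ M → Q ((∏ i, z i ^ t i) * y ^ p) := by
    intro t y hy
    let s0 : ι → Fin p := fun i => ⟨t i % p, Nat.mod_lt _ hp0⟩
    refine ⟨fun s => if s = s0 then (∏ i, z i ^ (t i / p)) * y else 0, fun s => ?_, ?_⟩
    · dsimp only
      split_ifs
      · exact mul_mem (prod_mem fun i _ => pow_mem (huM i) _) hy
      · exact zero_mem _
    rw [Finset.sum_eq_single s0]
    · simp only [if_true]
      unfold pmon
      rw [mul_pow, ← mul_assoc, ← Finset.prod_pow, ← Finset.prod_mul_distrib]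
      congr 1
      refine Finset.prod_congr rfl fun i _ => ?_
      rw [← pow_mul, ← pow_add]
      congr 1
      simp only [s0]
      rw [mul_comm, Nat.mod_add_div]
    · intro s _ hs
      simp only [if_neg hs]
      simp [hp0.ne']
    · intro h
      exact absurd (Finset.mem_univ _) h
  have hmul : ∀ (P : MvPolynomial ι k) (y : F), y ∈ M → Q (MvPolynomial.aeval z P * y ^ p) := by
    intro P y hy
    rw [MvPolynomial.aeval_def, MvPolynomial.eval₂_eq', Finset.sum_mul]
    refine Finset.sum_induction _ Q hadd hzero fun t _ => ?_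
    obtain ⟨r, hr⟩ := IsAlgClosed.exists_pow_nat_eq (MvPolynomial.coeff t P) hp0
    have h1 := hmono t (algebraMap k F r * y) (mul_mem (M.algebraMap_mem r) hy)
    have h2 : (∏ i, z i ^ t i) * (algebraMap k F r * y) ^ p =
        algebraMap k F (MvPolynomial.coeff t P) * (∏ i, z i ^ t i) * y ^ p := by
      rw [← hr, map_pow]
      ring
    rw [h2] at h1
    exact h1
  obtain ⟨r, s, hrs⟩ := (IntermediateField.mem_adjoin_range_iff k z x).1 hx
  have hs' : (MvPolynomial.aeval z s : F) ∈ M := by
    refine IntermediateField.algebra_adjoin_le_adjoin _ _ ?_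
    rw [Algebra.adjoin_range_eq_range_aeval]
    exact ⟨s, rfl⟩
  by_cases h0 : (MvPolynomial.aeval z s : F) = 0
  · rw [h0, div_zero] at hrs
    rw [hrs]
    exact hzero
  · have h1 := hmul (r * s ^ (p - 1)) _ (inv_mem hs')
    have h2 : MvPolynomial.aeval z (r * s ^ (p - 1)) *
        (MvPolynomial.aeval z s)⁻¹ ^ p = x := by
      rw [hrs]
      rw [map_mul, map_pow]
      obtain ⟨q, hq⟩ : ∃ q, p = q + 1 := ⟨p - 1, by omega⟩
      have hq1 : p - 1 = q := by omega
      rw [hq1]
      have : ((MvPolynomial.aeval z s : F))⁻¹ ^ p =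
          (MvPolynomial.aeval z s : F)⁻¹ ^ q * (MvPolynomial.aeval z s : F)⁻¹ := by
        rw [hq, pow_succ]
      rw [this, div_eq_mul_inv, inv_pow]
      field_simp
    rw [h2] at h1
    exact h1

private lemma pb2_tool [Algebra.EssFiniteType k F] (hz : PInd p z) :
    ∃ s : Finset F,
      IsTranscendenceBasis (IntermediateField.adjoin k (Set.range z)) ((↑) : s → F) ∧
      Algebra.IsSeparable (IntermediateField.adjoin
        (IntermediateField.adjoin k (Set.range z)) (s : Set F)) F := by
  classical
  have hpp : p.Prime := Fact.out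
  have : ExpChar F p := .prime Fact.out
  set M := IntermediateField.adjoin k (Set.range z) with hM
  have : ExpChar M p := by
    have : CharP M p := charP_of_injective_algebraMap (algebraMap k M).injective p
    exact .prime Fact.out
  have : Algebra.EssFiniteType M F := Algebra.EssFiniteType.of_comp k M F
  have H : ∀ s : Finset F, LinearIndepOn M _root_.id (s : Set F) →
      LinearIndepOn M (· ^ p) (s : Set F) := by
    intro s hs
    rw [LinearIndepOn, Fintype.linearIndependent_iff] at hs ⊢
    intro g hg
    have hdec : ∀ j, ∃ c : (ι → Fin p) → M,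
        ((g j : M) : F) = ∑ t, pmon z t * (c t : F) ^ p := fun j => by
      obtain ⟨c, hc, h⟩ := em_decomp z (p := p) (g j).2
      exact ⟨fun t => ⟨c t, hc t⟩, h⟩
    choose c hc using hdec
    have h1 : ∑ t, pmon z t * (∑ j : (s : Set F), (c j t : F) * (j : F)) ^ p = 0 := by
      rw [← hg]
      have : ∀ t, pmon z t * (∑ j : (s : Set F), (c j t : F) * (j : F)) ^ p
          = ∑ j : (s : Set F), (pmon z t * (c j t : F) ^ p) * (j : F) ^ p := by
        intro t
        rw [sum_pow_char, Finset.mul_sum]
        refine Finset.sum_congr rfl fun j _ => ?_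
        rw [mul_pow]
        ring
      rw [Finset.sum_congr rfl fun t _ => this t, Finset.sum_comm]
      refine Finset.sum_congr rfl fun j _ => ?_
      rw [← Finset.sum_mul, ← hc j]
      rfl
    have h2 : ∀ t, ∑ j : (s : Set F), (c j t : F) * (j : F) = 0 := hz _ h1
    have h3 : ∀ t j, c j t = 0 := by
      intro t
      refine hs (fun j => c j t) ?_
      exact h2 t
    intro j
    have := hc j
    simp only [h3] at this
    apply Subtype.ext
    rw [this]
    simp [hpp.ne_zero]
  exact exists_isTranscendenceBasis_and_isSeparable_of_linearIndepOn_pow_of_essFiniteType p hpp H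

private lemma pb2_card {M : Type} [Field M] [Algebra k M] [Algebra M F] [IsScalarTower k M F]
    {z' : ι → M} (hz : AlgebraicIndependent k z') {s : Finset F}
    (hs : AlgebraicIndependent M ((↑) : s → F)) {n : ℕ} (htr : Algebra.trdeg k F = (n : ℕ)) :
    s.card + Fintype.card ι ≤ n := by
  have hsum := hz.sumElim_comp hs
  have hcard := hsum.lift_cardinalMk_le_trdeg
  rw [htr] at hcard
  simp only [Cardinal.mk_fintype, Fintype.card_sum, Fintype.card_coe,
    Cardinal.lift_natCast] at hcard
  have h1 : ((s.card + Fintype.card ι : ℕ) : Cardinal.{0}) ≤ ((n : ℕ) : Cardinal.{0}) := hcard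
  exact Nat.cast_le.1 h1

private lemma pb2_ai' (hz : AlgebraicIndependent k z) :
    AlgebraicIndependent k (fun i => (⟨z i, IntermediateField.subset_adjoin _ _ ⟨i, rfl⟩⟩ :
      IntermediateField.adjoin k (Set.range z))) :=
  AlgebraicIndependent.of_comp (IntermediateField.adjoin k (Set.range z)).val hz

theorem sep_of_pind [Algebra.EssFiniteType k F] (hz : PInd p z)
    (htr : Algebra.trdeg k F = (Fintype.card ι : ℕ)) :
    Algebra.IsSeparable (IntermediateField.adjoin k (Set.range z)) F := by
  obtain ⟨s, hs, hsep⟩ := pb2_tool (k := k) hz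
  have hcard := pb2_card (pb2_ai' (ai_of_pind (k := k) hz)) hs.1 htr
  have hs0 : s = ∅ := by
    rw [← Finset.card_eq_zero]
    omega
  have h1 : Algebra.IsSeparable (IntermediateField.adjoin k (Set.range z))
      (IntermediateField.adjoin (IntermediateField.adjoin k (Set.range z)) (s : Set F)) := by
    rw [IntermediateField.isSeparable_adjoin_iff_isSeparable]
    intro x hx
    rw [hs0] at hx
    exact absurd hx (by simp)
  exact Algebra.IsSeparable.trans (IntermediateField.adjoin k (Set.range z))
    (IntermediateField.adjoin (IntermediateField.adjoin k (Set.range z)) (s : Set F)) F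

theorem exists_sep_ext [Algebra.EssFiniteType k F] (hz : PInd p z)
    (htr : Algebra.trdeg k F = ((Fintype.card ι + 1 : ℕ) : Cardinal)) :
    ∃ v : F, AlgebraicIndependent k (ext1 z v) ∧
      Algebra.IsSeparable (IntermediateField.adjoin k (Set.range (ext1 z v))) F := by
  classical
  obtain ⟨s, hs, hsep⟩ := pb2_tool (k := k) hz
  have hai := ai_of_pind (k := k) hz
  have hcard := pb2_card (pb2_ai' hai) hs.1 htr
  have hs0 : s.card ≠ 0 := by
    intro h0
    have hs0 : s = ∅ := Finset.card_eq_zero.1 h0
    -- then `F` is algebraic over `k(z)`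
    have h1 : Algebra.IsAlgebraic (IntermediateField.adjoin k (Set.range z))
        (IntermediateField.adjoin (IntermediateField.adjoin k (Set.range z)) (s : Set F)) := by
      have h2 : Algebra.IsSeparable (IntermediateField.adjoin k (Set.range z))
          (IntermediateField.adjoin (IntermediateField.adjoin k (Set.range z)) (s : Set F)) := by
        rw [IntermediateField.isSeparable_adjoin_iff_isSeparable]
        intro x hx
        rw [hs0] at hx
        exact absurd hx (by simp)
      exact inferInstance
    have h2 : Algebra.IsAlgebraic (IntermediateField.adjoin k (Set.range z)) F :=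
      Algebra.IsAlgebraic.trans (IntermediateField.adjoin k (Set.range z))
        (IntermediateField.adjoin (IntermediateField.adjoin k (Set.range z)) (s : Set F)) F
    have h3 : Algebra.IsAlgebraic (Algebra.adjoin k (Set.range z)) F :=
      IntermediateField.isAlgebraic_adjoin_iff_top.1 h2
    have h4 := Algebra.IsAlgebraic.trdeg_le_cardinalMk k (Set.range z) (A := F)
    rw [htr] at h4
    have h5 : Cardinal.mk (Set.range z) ≤ Cardinal.mk ι := Cardinal.mk_range_le
    rw [Cardinal.mk_fintype ι] at h5
    have h6 := Nat.cast_le.1 (h4.trans h5)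
    omega
  have hs1 : s.card = 1 := by omega
  obtain ⟨v, hv⟩ := Finset.card_eq_one.1 hs1
  refine ⟨v, ?_, ?_⟩
  · have h1 : Transcendental (IntermediateField.adjoin k (Set.range z)) v := by
      have h2 := hs.1.transcendental ⟨v, by rw [hv]; exact Finset.mem_singleton_self v⟩
      exact h2
    exact (hai.option_iff_transcendental v).2 (IntermediateField.transcendental_adjoin_iff.1 h1)
  · have hle : (IntermediateField.adjoin (IntermediateField.adjoin k (Set.range z))
        (s : Set F)).restrictScalars k ≤
        IntermediateField.adjoin k (Set.range (ext1 z v)) := by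
      rw [IntermediateField.adjoin_adjoin_left]
      refine IntermediateField.adjoin.mono _ _ _ ?_
      rintro x (⟨i, rfl⟩ | hx)
      · exact ⟨some i, rfl⟩
      · rw [hv] at hx
        exact ⟨none, (Finset.mem_singleton.1 hx).symm⟩
    let : Algebra ((IntermediateField.adjoin (IntermediateField.adjoin k (Set.range z))
        (s : Set F)).restrictScalars k)
        (IntermediateField.adjoin k (Set.range (ext1 z v))) :=
      (IntermediateField.inclusion hle).toRingHom.toAlgebra
    have : IsScalarTower ((IntermediateField.adjoin (IntermediateField.adjoin k (Set.range z))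
        (s : Set F)).restrictScalars k)
        (IntermediateField.adjoin k (Set.range (ext1 z v))) F :=
      IsScalarTower.of_algebraMap_eq fun x => rfl
    have : Algebra.IsSeparable ((IntermediateField.adjoin
      (IntermediateField.adjoin k (Set.range z)) (s : Set F)).restrictScalars k) F := hsep
    exact Algebra.isSeparable_tower_top_of_isSeparable
      ((IntermediateField.adjoin (IntermediateField.adjoin k (Set.range z))
        (s : Set F)).restrictScalars k) _ _

end TA
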