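import Pool.Agent.Lib.TS.Defs
import Pool.Agent.Lib.TS.PB2
import Pool.Agent.Lib.HR.FS

/-!
# Module TS.Dec: decomposition of the coefficient field over its p-th powers

PROOF of `dec_L`.  Let `L₀ = ku (kF k F) (Sum.elim u w) = kF k F ⊔ closure (range (Sum.elim u w))`, and
`L = Lof (kF k F) u e w = L₀ ⊔ closure {e}` (`coe_gensOf`, `Set.Sum.elim_range`).
(1) `e` is separable over `L₀`: it is a root of `P - C (w i₀)`, a polynomial with coefficients in `L₀`
    (`κ ≤ L₀`), whose derivative `P'` does not vanish at `e` (`‖P'(e)‖ = 1`); so the minimal polynomial `m` of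
    `e` over `L₀` divides `P - C (w i₀)` and `m'(e) ≠ 0` (differentiate `P - C (w i₀) = m q` at `e`), so `m` is
    separable (`minpoly` irreducible: `Polynomial.Separable` iff derivative not zero,
    `Irreducible.separable_iff…` or `Polynomial.separable_iff_derivative_ne_zero`).
(2) So `L = L₀(e) = L₀(e ^ p)` (`IntermediateField.adjoin_simple_eq_adjoin_pow_expChar_of_isSeparable` or the like),
    and as `e ^ p` is algebraic over `L₀` every `y ∈ L` is `∑ j < N, a j * (e ^ p) ^ j` with `a j ∈ L₀`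
    (`HR.exists_poly_of_mem_adj` in Pool/Agent/Lib/HR/FS.lean, for `adj L₀ (e ^ p)`).
(3) `em_decomp` (with `mem_adjoin_iff'`): `a j = ∑ t, pmon z t * (c j t) ^ p`, `c j t ∈ L₀`, `z = Sum.elim u w`; so
    `y = ∑ t, pmon z t * (∑ j, c j t * e ^ j) ^ p` (`sum_pow_char`), and `∑ j, c j t * e ^ j ∈ L`.
-/

open IsLocalRing Polynomial

namespace TA
open Pool.Agent.Lib.MP_3029eb_ag Pool.Agent.Lib.MP_3029eb_ag.Abh

private theorem dec_sep {F : Type} [Field F] {K : Subfield F} {f : F[X]} {e : F}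
    (hf : ∀ n, f.coeff n ∈ K) (h0 : f.eval e = 0) (h1 : f.derivative.eval e ≠ 0) :
    IsSeparable K e := by
  obtain ⟨g, hg⟩ := (mem_lifts (f := algebraMap K F) f).1
    ((lifts_iff_coeff_lifts (f := algebraMap K F) f).2 fun n => ⟨⟨f.coeff n, hf n⟩, rfl⟩)
  have hg0 : aeval e g = 0 := by rw [← eval_map_algebraMap, hg]; exact h0
  have hg1 : aeval e g.derivative ≠ 0 := by
    rw [← eval_map_algebraMap, ← derivative_map, hg]; exact h1
  have hgne : g ≠ 0 := by
    rintro rfl
    exact hg1 (by simp)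
  have halg : IsAlgebraic K e := ⟨g, hgne, hg0⟩
  have hint : IsIntegral K e := halg.isIntegral
  obtain ⟨q, hq⟩ := minpoly.dvd K e hg0
  refine (separable_iff_derivative_ne_zero (minpoly.irreducible hint)).2 fun hd => ?_
  apply hg1
  rw [hq, derivative_mul, hd, zero_mul, zero_add, map_mul, minpoly.aeval, zero_mul]

theorem dec_L {k F : Type} [Field k] [IsAlgClosed k] [NormedField F] [Algebra k F] {p : ℕ}
    [Fact p.Prime] [CharP k p] [CharP F p] {s r : ℕ} {u : Fin s → F} {e : F} {P : F[X]}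
    {w : Fin r → F} (h : ResData p (kF k F) u e P) {i₀ : Fin r} (hi₀ : w i₀ = P.eval e) {y : F}
    (hy : y ∈ Lof (kF k F) u e w) :
    ∃ c : (Fin s ⊕ Fin r → Fin p) → F, (∀ t, c t ∈ Lof (kF k F) u e w) ∧
      y = ∑ t, pmon (Sum.elim u w) t * c t ^ p := by
  classical
  have hp : p.Prime := Fact.out
  set L₀ : Subfield F := kF k F ⊔ Subfield.closure (Set.range (Sum.elim u w)) with hL₀
  have hkap : ku (kF k F) u ≤ L₀ := by
    refine sup_le_sup le_rfl (Subfield.closure_mono ?_)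
    rintro _ ⟨i, rfl⟩
    exact ⟨Sum.inl i, rfl⟩
  have hw₀ : w i₀ ∈ L₀ :=
    (le_sup_right : Subfield.closure _ ≤ L₀) (Subfield.subset_closure ⟨Sum.inr i₀, rfl⟩)
  have hL₀L : L₀ ≤ Lof (kF k F) u e w := by
    refine sup_le (k_le_Lof _ _ _ _) (Subfield.closure_le.2 ?_)
    rintro _ ⟨i, rfl⟩
    rcases i with i | i
    · exact u_mem_Lof _ _ _ _ i
    · exact w_mem_Lof _ _ _ _ i
  have hLL : Lof (kF k F) u e w ≤ MP1a953e.adj L₀ e := by
    refine sup_le ((le_sup_left : kF k F ≤ L₀).trans (MP1a953e.le_adj _ _))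
      (Subfield.closure_le.2 ?_)
    rw [coe_gensOf]
    rintro x ((⟨i, rfl⟩ | hx) | ⟨i, rfl⟩)
    · exact MP1a953e.le_adj _ _ ((le_sup_right : Subfield.closure _ ≤ L₀)
        (Subfield.subset_closure ⟨Sum.inl i, rfl⟩))
    · rw [Set.mem_singleton_iff.1 hx]
      exact MP1a953e.mem_adj_self _ _
    · exact MP1a953e.le_adj _ _ ((le_sup_right : Subfield.closure _ ≤ L₀)
        (Subfield.subset_closure ⟨Sum.inr i, rfl⟩))
  have hsep : IsSeparable L₀ e := by
    refine dec_sep (f := P - C (w i₀)) (fun n => ?_) ?_ ?_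
    · rw [coeff_sub, coeff_C]
      refine L₀.sub_mem (hkap (h.poly n)) ?_
      split_ifs
      · exact hw₀
      · exact L₀.zero_mem
    · rw [eval_sub, eval_C, hi₀, sub_self]
    · rw [derivative_sub, derivative_C, sub_zero]
      intro h0
      have h1 := h.simple
      rw [h0, norm_zero] at h1
      exact zero_ne_one h1
  have hyadj : y ∈ MP1a953e.adj L₀ (e ^ p) := by
    have h1 := hLL hy
    rw [MP1a953e.mem_adj_iff] at h1 ⊢
    have h2 := IntermediateField.adjoin_simple_eq_adjoin_pow_expChar_of_isSeparable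
      L₀ F hsep p
    rwa [h2] at h1
  have halg : IsAlgebraic L₀ (e ^ p) := (hsep.isIntegral.pow p).isAlgebraic
  obtain ⟨g, hg, -, hgy⟩ := HR.exists_poly_of_mem_adj halg hyadj
  have hdec : ∀ j, ∃ c : (Fin s ⊕ Fin r → Fin p) → F, (∀ t, c t ∈ L₀) ∧
      g.coeff j = ∑ t, pmon (Sum.elim u w) t * c t ^ p := by
    intro j
    have h1 : g.coeff j ∈ IntermediateField.adjoin k (Set.range (Sum.elim u w)) :=
      (mem_adjoin_iff' _ _).2 (hg j)
    obtain ⟨c, hc, hcj⟩ := em_decomp (k := k) (p := p) (Sum.elim u w) h1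
    exact ⟨c, fun t => (mem_adjoin_iff' _ _).1 (hc t), hcj⟩
  choose c hc hcg using hdec
  refine ⟨fun t => ∑ j ∈ Finset.range (g.natDegree + 1), c j t * e ^ j, fun t => ?_, ?_⟩
  · exact Subfield.sum_mem _ fun j _ => Subfield.mul_mem _ (hL₀L (hc j t))
      (Subfield.pow_mem _ (e_mem_Lof _ _ _ _) _)
  · rw [← hgy, eval_eq_sum_range]
    have h1 : ∀ t : (Fin s ⊕ Fin r → Fin p),
        pmon (Sum.elim u w) t * (∑ j ∈ Finset.range (g.natDegree + 1), c j t * e ^ j) ^ p =
        ∑ j ∈ Finset.range (g.natDegree + 1), pmon (Sum.elim u w) t * c j t ^ p * (e ^ p) ^ j := by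
      intro t
      rw [sum_pow_char, Finset.mul_sum]
      refine Finset.sum_congr rfl fun j _ => ?_
      rw [mul_pow, ← pow_mul, ← pow_mul, mul_comm p j, mul_assoc]
    rw [Finset.sum_congr rfl fun t _ => h1 t, Finset.sum_comm]
    refine Finset.sum_congr rfl fun j _ => ?_
    rw [hcg j, Finset.sum_mul]

end TA
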