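import Pool.Agent.Lib.TS.Defs

/-!
# Module TS.Orth: orthogonality of the monomials in u, w over p-th powers

PROOF of `orth_uw`.  Functions `Fin s ⊕ Fin r → Fin p` are pairs `(t₁, t₂)` (`Equiv.sumArrowEquivProdArrow`), and
`pmon (Sum.elim u w) t = pmon u t₁ * pmon w t₂` (`Fintype.prod_sum_type`).  So the sum is
`∑ t₂, pmon w t₂ * S t₂` with `S t₂ = ∑ t₁, pmon u t₁ * c (t₁, t₂) ^ p`.  By `hu`,
`‖S t₂‖ ≥ ‖c (t₁, t₂)‖ ^ p` for all `t₁`, and `‖S t₂‖ ≤ max ‖c (t₁, t₂)‖ ^ p` (`‖u i‖ ≤ 1`, ultrametric); so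
`‖S t₂‖ = ‖c (t₁', t₂)‖ ^ p` for an index `t₁'` with `‖c‖` maximal.  By `hval` it is zero or
`‖mon w δ‖ ^ p`.  Hence for `t₂ ≠ t₂'` with `S t₂, S t₂' ≠ 0` the norms of
`pmon w t₂ * S t₂` and `pmon w t₂' * S t₂'` are different: otherwise
`‖mon w (t₂ + p δ - t₂' - p δ')‖ = 1`, so `t₂ + p δ = t₂' + p δ'` (`hw.indep`) and `t₂ ≡ t₂'` modulo `p`,
`t₂ = t₂'` as both are `< p`.  In an ultrametric field the norm of a sum of elements with pairwise different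
norms (those which are not zero) is the maximum of the norms: so
`‖∑ …‖ ≥ ‖pmon w t₂ * S t₂‖ ≥ ‖pmon w t₂‖ * ‖c (t₁, t₂)‖ ^ p` for all `(t₁, t₂)`, and
`‖pmon (Sum.elim u w) t‖ = ‖pmon u t₁‖ * ‖pmon w t₂‖ ≤ ‖pmon w t₂‖` because `‖u i‖ ≤ 1`.
(A convenient proof of the max statement: choose the index `m` with the largest norm of
`pmon w t₂ * S t₂`; if it is `0` everything is zero; otherwise all other terms have strictly smaller norm,
so the sum of the others is strictly smaller, and the norm of the whole sum is the norm of the term `m`.)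
* `pind_of_orth`: from the inequality (`pmon z t ≠ 0`): `c t = 0` if the sum is zero.  The `z i` are not zero:
  if `z i = 0` (`i = inl j` or `inr j`) apply the inequality `hu` (or `hw.ne`): for `u j = 0` take `c` with value
  `1` at the exponent `Pi.single j 1` and `0` elsewhere (`p ≥ 2`): `1 ≤ ‖u j * 1‖ = 0`, a contradiction.
-/

open IsLocalRing Polynomial

namespace TA
open Pool.Agent.Lib.MP_3029eb_ag Pool.Agent.Lib.MP_3029eb_ag.Abh

variable {F : Type} [NormedField F] [IsUltrametricDist F] {p : ℕ} [Fact p.Prime] {s r : ℕ}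
  {u : Fin s → F} {w : Fin r → F}

omit [IsUltrametricDist F] [Fact p.Prime] in
private theorem orth_pmon_sum (t : Fin s ⊕ Fin r → Fin p) :
    pmon (Sum.elim u w) t = pmon u (fun i => t (Sum.inl i)) * pmon w (fun i => t (Sum.inr i)) := by
  unfold pmon
  rw [Fintype.prod_sum_type]
  rfl

omit [IsUltrametricDist F] [Fact p.Prime] in
private theorem orth_pmon_le {ι : Type*} [Fintype ι] {u : ι → F} (hu1 : ∀ i, ‖u i‖ ≤ 1)
    (t : ι → Fin p) : ‖pmon u t‖ ≤ 1 := by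
  unfold pmon
  rw [norm_prod]
  refine Finset.prod_le_one (fun i _ => norm_nonneg _) fun i _ => ?_
  rw [norm_pow]
  exact pow_le_one₀ (norm_nonneg _) (hu1 i)

/-- In an ultrametric field the norm of a sum of elements with different norms is the maximum of
the norms. -/
private theorem orth_max {ι : Type*} [Fintype ι] [DecidableEq ι] (f : ι → F)
    (hf : ∀ i j, i ≠ j → f i ≠ 0 → f j ≠ 0 → ‖f i‖ ≠ ‖f j‖) (i : ι) : ‖f i‖ ≤ ‖∑ j, f j‖ := by
  have : Nonempty ι := ⟨i⟩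
  obtain ⟨m, hm⟩ := Finite.exists_max (fun j => ‖f j‖)
  refine (hm i).trans ?_
  by_cases h0 : f m = 0
  · rw [h0, norm_zero]; exact norm_nonneg _
  have hpos : 0 < ‖f m‖ := norm_pos_iff.2 h0
  have hlt : ∀ j, j ≠ m → ‖f j‖ < ‖f m‖ := by
    intro j hj
    by_cases hj0 : f j = 0
    · rw [hj0, norm_zero]; exact hpos
    · exact lt_of_le_of_ne (hm j) (hf j m hj hj0 h0)
  rw [← Finset.add_sum_erase Finset.univ f (Finset.mem_univ m)]
  have hrest : ‖∑ j ∈ Finset.univ.erase m, f j‖ < ‖f m‖ := by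
    rcases (Finset.univ.erase m).eq_empty_or_nonempty with h | h
    · rw [h, Finset.sum_empty, norm_zero]; exact hpos
    · obtain ⟨j, hj, hle⟩ := IsUltrametricDist.exists_norm_finsetSum_le_of_nonempty h f
      exact hle.trans_lt (hlt j (Finset.ne_of_mem_erase hj))
  rw [IsUltrametricDist.norm_add_eq_max_of_norm_ne_norm hrest.ne', max_eq_left hrest.le]

omit [IsUltrametricDist F] [Fact p.Prime] in
private theorem orth_mon (t : Fin r → Fin p) (δ : Fin r → ℤ) :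
    ‖pmon w t‖ * ‖mon w δ‖ ^ p = ∏ i, ‖w i‖ ^ (((t i : ℕ) : ℤ)) * (‖w i‖ ^ (δ i)) ^ p := by
  unfold pmon mon
  rw [norm_prod, norm_prod, ← Finset.prod_pow, ← Finset.prod_mul_distrib]
  refine Finset.prod_congr rfl fun i _ => ?_
  rw [norm_pow, norm_zpow, zpow_natCast]

omit [IsUltrametricDist F] in
/-- the value of the monomials determines the exponents modulo `p` -/
private theorem orth_inj (hw : Indep w) {t t' : Fin r → Fin p} {δ δ' : Fin r → ℤ}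
    (h : ‖pmon w t‖ * ‖mon w δ‖ ^ p = ‖pmon w t'‖ * ‖mon w δ'‖ ^ p) : t = t' := by
  have hp : p.Prime := Fact.out
  have h1 : ‖mon w (fun i => ((t i : ℕ) : ℤ) + δ i * p - (((t' i : ℕ) : ℤ) + δ' i * p))‖ = 1 := by
    rw [orth_mon, orth_mon] at h
    unfold mon
    rw [norm_prod]
    have hw0 : ∀ i, ‖w i‖ ≠ 0 := fun i => norm_ne_zero_iff.2 (hw.ne i)
    have h2 : ∀ i, ‖w i ^ (((t i : ℕ) : ℤ) + δ i * p - (((t' i : ℕ) : ℤ) + δ' i * p))‖ =
        (‖w i‖ ^ (((t i : ℕ) : ℤ)) * (‖w i‖ ^ (δ i)) ^ p) /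
          (‖w i‖ ^ (((t' i : ℕ) : ℤ)) * (‖w i‖ ^ (δ' i)) ^ p) := by
      intro i
      rw [norm_zpow, zpow_sub₀ (hw0 i), zpow_add₀ (hw0 i), zpow_add₀ (hw0 i), zpow_mul, zpow_mul,
        zpow_natCast (‖w i‖ ^ δ i), zpow_natCast (‖w i‖ ^ δ' i)]
    rw [Finset.prod_congr rfl fun i _ => h2 i, Finset.prod_div_distrib, h, div_self]
    refine Finset.prod_ne_zero_iff.2 fun i _ => ?_
    exact mul_ne_zero (zpow_ne_zero _ (hw0 i)) (pow_ne_zero _ (zpow_ne_zero _ (hw0 i)))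
  have h3 := hw.indep _ h1
  funext i
  have h4 : ((t i : ℕ) : ℤ) + δ i * p - (((t' i : ℕ) : ℤ) + δ' i * p) = 0 := congrFun h3 i
  have h5 : ((t i : ℕ) : ℤ) - ((t' i : ℕ) : ℤ) = p * (δ' i - δ i) := by linarith
  have h6 : ((t i : ℕ) : ℤ) < p := by exact_mod_cast (t i).2
  have h7 : ((t' i : ℕ) : ℤ) < p := by exact_mod_cast (t' i).2
  have h8 : ((t i : ℕ) : ℤ) - ((t' i : ℕ) : ℤ) = 0 := by
    refine Int.eq_zero_of_abs_lt_dvd (m := (p : ℤ)) ⟨_, h5⟩ ?_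
    rw [abs_lt]
    constructor <;> linarith [Int.natCast_nonneg (t i : ℕ), Int.natCast_nonneg (t' i : ℕ)]
  exact Fin.ext (by exact_mod_cast sub_eq_zero.1 h8)

theorem orth_uw (hu1 : ∀ i, ‖u i‖ ≤ 1)
    (hu : ∀ (c : (Fin s → Fin p) → F) (t : Fin s → Fin p),
      ‖c t‖ ^ p ≤ ‖∑ t, pmon u t * c t ^ p‖) (hw : Indep w)
    (hval : ∀ z : F, z ≠ 0 → ∃ δ : Fin r → ℤ, ‖z‖ = ‖mon w δ‖)
    (c : (Fin s ⊕ Fin r → Fin p) → F) (t : Fin s ⊕ Fin r → Fin p) :
    ‖c t‖ ^ p * ‖pmon (Sum.elim u w) t‖ ≤ ‖∑ t, pmon (Sum.elim u w) t * c t ^ p‖ := by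
  have hp : p.Prime := Fact.out
  have : Nonempty (Fin p) := ⟨⟨0, hp.pos⟩⟩
  set S : (Fin r → Fin p) → F := fun t₂ => ∑ t₁ : Fin s → Fin p, pmon u t₁ * c (Sum.elim t₁ t₂) ^ p
    with hS
  have hsum : ∑ t, pmon (Sum.elim u w) t * c t ^ p = ∑ t₂, pmon w t₂ * S t₂ := by
    rw [← (Equiv.sumArrowEquivProdArrow (Fin s) (Fin r) (Fin p)).symm.sum_comp,
      Fintype.sum_prod_type_right]
    refine Finset.sum_congr rfl fun t₂ _ => ?_
    rw [hS, Finset.mul_sum]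
    refine Finset.sum_congr rfl fun t₁ _ => ?_
    rw [orth_pmon_sum]
    simp only [Equiv.sumArrowEquivProdArrow_symm_apply_inl,
      Equiv.sumArrowEquivProdArrow_symm_apply_inr]
    have h1 : (Equiv.sumArrowEquivProdArrow (Fin s) (Fin r) (Fin p)).symm (t₁, t₂) =
        Sum.elim t₁ t₂ := rfl
    rw [h1]
    ring
  have hSval : ∀ t₂, S t₂ ≠ 0 → ∃ δ : Fin r → ℤ, ‖S t₂‖ = ‖mon w δ‖ ^ p := by
    intro t₂ h0
    obtain ⟨m, hm⟩ := Finite.exists_max (fun t₁ : Fin s → Fin p => ‖c (Sum.elim t₁ t₂)‖)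
    have h1 : ‖S t₂‖ = ‖c (Sum.elim m t₂)‖ ^ p := by
      refine le_antisymm ?_ (hu (fun t₁ => c (Sum.elim t₁ t₂)) m)
      refine IsUltrametricDist.norm_sum_le_of_forall_le_of_nonneg (by positivity) fun t₁ _ => ?_
      rw [norm_mul, norm_pow]
      calc ‖pmon u t₁‖ * ‖c (Sum.elim t₁ t₂)‖ ^ p ≤ 1 * ‖c (Sum.elim m t₂)‖ ^ p :=
            mul_le_mul (orth_pmon_le hu1 t₁) (pow_le_pow_left₀ (norm_nonneg _) (hm t₁) p)
              (by positivity) zero_le_one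
        _ = ‖c (Sum.elim m t₂)‖ ^ p := one_mul _
    have h2 : c (Sum.elim m t₂) ≠ 0 := by
      intro h3
      rw [h3, norm_zero, zero_pow hp.ne_zero, norm_eq_zero] at h1
      exact h0 h1
    obtain ⟨δ, hδ⟩ := hval _ h2
    exact ⟨δ, by rw [h1, hδ]⟩
  have hdiff : ∀ t₂ t₂', t₂ ≠ t₂' → pmon w t₂ * S t₂ ≠ 0 → pmon w t₂' * S t₂' ≠ 0 →
      ‖pmon w t₂ * S t₂‖ ≠ ‖pmon w t₂' * S t₂'‖ := by
    intro t₂ t₂' hne h0 h0' heq
    obtain ⟨δ, hδ⟩ := hSval t₂ (right_ne_zero_of_mul h0)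
    obtain ⟨δ', hδ'⟩ := hSval t₂' (right_ne_zero_of_mul h0')
    rw [norm_mul, norm_mul, hδ, hδ'] at heq
    exact hne (orth_inj hw heq)
  have h1 := orth_max (fun t₂ => pmon w t₂ * S t₂) hdiff (fun i => t (Sum.inr i))
  rw [← hsum] at h1
  refine le_trans ?_ h1
  have h2 := hu (fun t₁ => c (Sum.elim t₁ (fun i => t (Sum.inr i)))) (fun i => t (Sum.inl i))
  have h3 : Sum.elim (fun i => t (Sum.inl i)) (fun i => t (Sum.inr i)) = t := by
    funext x
    cases x <;> rfl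
  simp only [h3] at h2
  rw [orth_pmon_sum, norm_mul, norm_mul]
  have h4 := orth_pmon_le hu1 (fun i => t (Sum.inl i))
  calc ‖c t‖ ^ p * (‖pmon u fun i => t (Sum.inl i)‖ * ‖pmon w fun i => t (Sum.inr i)‖)
      ≤ ‖c t‖ ^ p * (1 * ‖pmon w fun i => t (Sum.inr i)‖) := by gcongr
    _ = ‖pmon w fun i => t (Sum.inr i)‖ * ‖c t‖ ^ p := by ring
    _ ≤ ‖pmon w fun i => t (Sum.inr i)‖ * ‖S fun i => t (Sum.inr i)‖ :=
        mul_le_mul_of_nonneg_left h2 (norm_nonneg _)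

omit [IsUltrametricDist F] in
theorem uw_ne (hu : ∀ (c : (Fin s → Fin p) → F) (t : Fin s → Fin p),
      ‖c t‖ ^ p ≤ ‖∑ t, pmon u t * c t ^ p‖) (hw : Indep w) (i : Fin s ⊕ Fin r) :
    Sum.elim u w i ≠ 0 := by
  have hp : p.Prime := Fact.out
  cases i with
  | inr j => exact hw.ne j
  | inl j =>
    intro h0
    have h0' : u j = 0 := h0
    set t₀ : Fin s → Fin p := Function.update (fun _ => ⟨0, hp.pos⟩) j ⟨1, hp.one_lt⟩ with ht₀
    have h1 := hu (fun t => if t = t₀ then 1 else 0) t₀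
    have h2 : pmon u t₀ = 0 := by
      unfold pmon
      refine Finset.prod_eq_zero (Finset.mem_univ j) ?_
      rw [ht₀, Function.update_self, h0', pow_one]
    rw [Finset.sum_eq_single t₀] at h1
    · rw [h2, zero_mul, norm_zero, if_pos rfl, norm_one, one_pow] at h1
      exact absurd h1 (by norm_num)
    · intro t _ ht
      rw [if_neg ht, zero_pow hp.ne_zero, mul_zero]
    · intro h
      exact absurd (Finset.mem_univ _) h

theorem pind_of_orth (hu1 : ∀ i, ‖u i‖ ≤ 1)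
    (hu : ∀ (c : (Fin s → Fin p) → F) (t : Fin s → Fin p),
      ‖c t‖ ^ p ≤ ‖∑ t, pmon u t * c t ^ p‖) (hw : Indep w)
    (hval : ∀ z : F, z ≠ 0 → ∃ δ : Fin r → ℤ, ‖z‖ = ‖mon w δ‖) : PInd p (Sum.elim u w) := by
  have hp : p.Prime := Fact.out
  intro c hc t
  have h1 := orth_uw hu1 hu hw hval c t
  rw [hc, norm_zero] at h1
  have h2 : pmon (Sum.elim u w) t ≠ 0 := by
    unfold pmon
    exact Finset.prod_ne_zero_iff.2 fun i _ => pow_ne_zero _ (uw_ne hu hw i)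
  have h3 : 0 < ‖pmon (Sum.elim u w) t‖ := norm_pos_iff.2 h2
  have h4 : ‖c t‖ ^ p ≤ 0 := by
    by_contra hcon
    have := mul_pos (not_le.1 hcon) h3
    linarith
  have h5 : ‖c t‖ ^ p = 0 := le_antisymm h4 (by positivity)
  exact norm_eq_zero.1 ((pow_eq_zero_iff hp.ne_zero).1 h5)

end TA
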