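import Pool.Agent.Lib.TS.Defs
import Pool.Agent.Lib.TS.Orth
import Pool.Agent.Lib.HR.GDefs

/-!
# Module TS.HClT: the completed coefficient field is in the class HCl

`em : F → W` is an isometric homomorphism of fields, `H` a complete subfield of `W` in which the image is
dense (`MP1a953e.Emb em H`).  For a subfield `L` of `F` let `cl em L` be the topological closure of the subfield
`L.map em` in `W` (`Subfield.topologicalClosure`).

PROOFS.
* `cl_complete`: a closed subset of the complete set `H` (`L.map em ≤ H`, `H` is closed: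
  `IsComplete.isClosed`; `closure ⊆ H`; `IsComplete` of closed subsets: `IsClosed.isComplete…`/
  `IsComplete.of_isClosed…`; use `isClosed.inter` or `IsCompact`-free lemma
  `IsComplete.mono`? if no lemma fits: Cauchy filters on the closure converge in `H`, the limit is in the
  closed set).
* `cl_dense`: `MP1a953e.DenseIn (L.map em) (cl em L)`: `Metric.mem_closure_iff`.
* `cl_le`: `cl em L ≤ H`.
* `imm_cl`: if every `z ≠ 0` of `F` has an `a ∈ L` with `‖z - a‖ < ‖z‖` then
  `MP1a953e.Imm (cl em L) H`: for `y ∈ H`, `y ≠ 0`, take `z ∈ F` with `‖y - em z‖ < ‖y‖` (so `‖em z‖ = ‖y‖`) and `a`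
  for `z`: `‖y - em a‖ ≤ max ‖y - em z‖ ‖em (z - a)‖ < ‖y‖`.
* `hcl_cl`: `HR.HCl p (k.map em) (L.map em) (cl em L)`.
  - `k_le`: monotone.  `fg`: `L = k ⊔ closure S` gives `L.map em = k.map em ⊔ closure (em '' S)`
    (`Subfield.map_sup`, `Subfield.map_closure`…).
  - `dense`, `complete`: above.  `nontriv`: by hypothesis (norms are preserved).
  - `pc`: `PCoord p (L.map em)`: `J = (ι → Fin p)` (here `ι = Fin s ⊕ Fin r`), `o = 0`, `x t = em (pmon z t)`,
    `x o = 1` (empty product of zeroth powers), and `σ t y = em (c t)` for `y = em y'`, `y' ∈ L`, where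
    `y' = ∑ t, pmon z t * c t ^ p` is a decomposition chosen by `hdec` (define `σ` by cases, `0` outside of
    `L.map em`).  `sum`: `(em (c t)) ^ p * em (pmon z t)`.  `orth`: for `a t ∈ L.map em` write `a t = em (a' t)`, and
    use `horth` (the norm is preserved).  `x_ne`: `pmon z t ≠ 0` as a product of nonzero elements.
-/

open IsLocalRing Polynomial

namespace TA
open Pool.Agent.Lib.MP_3029eb_ag Pool.Agent.Lib.MP_3029eb_ag.Abh

variable {F : Type} [NormedField F] [IsUltrametricDist F] {W : Type} [NormedField W]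
  [IsUltrametricDist W] {em : F →+* W} {H : Subfield W}

/-- closure of the image of a subfield -/
noncomputable def cl (em : F →+* W) (L : Subfield F) : Subfield W := (L.map em).topologicalClosure

omit [IsUltrametricDist F] [IsUltrametricDist W] in
theorem cl_le (hE : MP1a953e.Emb em H) (L : Subfield F) : cl em L ≤ H := by
  refine Subfield.topologicalClosure_minimal _ ?_ hE.complete.isClosed
  intro x hx
  obtain ⟨y, _, rfl⟩ := Subfield.mem_map.1 hx
  exact hE.mem y

omit [IsUltrametricDist F] [IsUltrametricDist W] in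
theorem cl_complete (hE : MP1a953e.Emb em H) (L : Subfield F) :
    IsComplete (cl em L : Set W) := by
  have hcl : IsClosed (cl em L : Set W) := Subfield.isClosed_topologicalClosure _
  intro f hf hfS
  obtain ⟨x, _, hx⟩ := hE.complete f hf
    (hfS.trans (Filter.principal_mono.2 fun y hy => cl_le hE L hy))
  have := hf.1
  exact ⟨x, hcl.mem_of_tendsto (f := id) (b := f) hx (Filter.le_principal_iff.1 hfS), hx⟩

omit [IsUltrametricDist F] [IsUltrametricDist W] in
theorem cl_dense (em : F →+* W) (L : Subfield F) : MP1a953e.DenseIn (L.map em) (cl em L) := by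
  refine ⟨Subfield.le_topologicalClosure _, fun x hx ε hε => ?_⟩
  have hx' : x ∈ closure ((L.map em : Subfield W) : Set W) := hx
  obtain ⟨a, ha, h⟩ := Metric.mem_closure_iff.1 hx' ε hε
  rw [dist_eq_norm] at h
  exact ⟨a, ha, h⟩

omit [IsUltrametricDist F] in
theorem imm_cl (hE : MP1a953e.Emb em H) {L : Subfield F}
    (hL : ∀ z : F, z ≠ 0 → ∃ a ∈ L, ‖z - a‖ < ‖z‖) : MP1a953e.Imm (cl em L) H := by
  refine ⟨cl_le hE L, fun y hy hy0 => ?_⟩
  have hyp : 0 < ‖y‖ := norm_pos_iff.2 hy0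
  obtain ⟨z, hz⟩ := hE.dense y hy ‖y‖ hyp
  have hzn : ‖em z‖ = ‖y‖ := by
    have h1 : ‖y‖ ≠ ‖-(y - em z)‖ := by rw [norm_neg]; exact ne_of_gt hz
    have h2 := IsUltrametricDist.norm_add_eq_max_of_norm_ne_norm h1
    have h3 : y + -(y - em z) = em z := by ring
    rw [h3, norm_neg] at h2
    rw [h2]
    exact max_eq_left hz.le
  have hz0 : z ≠ 0 := by
    rintro rfl
    rw [map_zero, norm_zero] at hzn
    exact hyp.ne hzn
  obtain ⟨a, ha, hlt⟩ := hL z hz0
  refine ⟨em a, (cl_dense em L).1 (Subfield.mem_map.2 ⟨a, ha, rfl⟩), ?_⟩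
  have h1 : y - em a = (y - em z) + em (z - a) := by rw [map_sub]; ring
  rw [h1]
  refine lt_of_le_of_lt (IsUltrametricDist.norm_add_le_max _ _) (max_lt hz ?_)
  rw [hE.norm, ← hzn, hE.norm]
  exact hlt

omit [IsUltrametricDist F] [IsUltrametricDist W] in
private theorem hclt_pc (hn : ∀ x, ‖em x‖ = ‖x‖) {p : ℕ} [Fact p.Prime] {L : Subfield F}
    {ι : Type} [Fintype ι] [DecidableEq ι] {z : ι → F} (hz : ∀ i, z i ∈ L) (hz0 : ∀ i, z i ≠ 0)
    (hdec : ∀ y ∈ L, ∃ c : (ι → Fin p) → F, (∀ t, c t ∈ L) ∧ y = ∑ t, pmon z t * c t ^ p)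
    (horth : ∀ (c : (ι → Fin p) → F) (t : ι → Fin p),
      ‖c t‖ ^ p * ‖pmon z t‖ ≤ ‖∑ t, pmon z t * c t ^ p‖) :
    Nonempty (HR.PCoord p (L.map em)) := by
  classical
  have hp : p.Prime := Fact.out
  have hspan : ∀ y ∈ L.map em, ∃ a : (ι → Fin p) → W, (∀ j, a j ∈ L.map em) ∧
      ∑ j, (a j) ^ p * em (pmon z j) = y := by
    intro y hy
    obtain ⟨y', hy', rfl⟩ := Subfield.mem_map.1 hy
    obtain ⟨c, hc, hyc⟩ := hdec y' hy'
    refine ⟨fun t => em (c t), fun t => Subfield.mem_map.2 ⟨c t, hc t, rfl⟩, ?_⟩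
    rw [hyc, map_sum]
    refine Finset.sum_congr rfl fun t _ => ?_
    rw [map_mul, map_pow]
    ring
  refine ⟨{ J := ι → Fin p, fin := inferInstance, dec := inferInstance,
            o := fun _ => ⟨0, hp.pos⟩, x := fun t => em (pmon z t)
            σ := fun j y => if hy : y ∈ L.map em then (hspan y hy).choose j else 0
            x_mem := ?_, x_ne := ?_, x_o := ?_
            σ_mem := ?_, sum := ?_, orth := ?_ }⟩
  · intro t
    refine Subfield.mem_map.2 ⟨pmon z t, ?_, rfl⟩
    unfold pmon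
    exact L.prod_mem fun i _ => L.pow_mem (hz i) _
  · intro t h0
    rw [map_eq_zero_iff em em.injective] at h0
    unfold pmon at h0
    obtain ⟨i, _, hi⟩ := Finset.prod_eq_zero_iff.1 h0
    exact hz0 i ((pow_eq_zero_iff').1 hi).1
  · unfold pmon
    simp
  · intro j y hy
    rw [dif_pos hy]
    exact (hspan y hy).choose_spec.1 j
  · intro y hy
    have h1 : ∀ j, (if hy : y ∈ L.map em then (hspan y hy).choose j else 0) ^ p * em (pmon z j) =
        ((hspan y hy).choose j) ^ p * em (pmon z j) := by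
      intro j
      rw [dif_pos hy]
    rw [Finset.sum_congr rfl fun j _ => h1 j]
    exact (hspan y hy).choose_spec.2
  · intro a ha j
    choose a' ha' haa using fun j => Subfield.mem_map.1 (ha j)
    have h1 := horth a' j
    have h2 : ∑ i, (a i) ^ p * em (pmon z i) = em (∑ t, pmon z t * a' t ^ p) := by
      rw [map_sum]
      refine Finset.sum_congr rfl fun t _ => ?_
      rw [map_mul, map_pow, haa t]
      ring
    rw [h2, hn, hn, ← haa j, hn]
    exact h1

omit [IsUltrametricDist F] [IsUltrametricDist W] in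
theorem hcl_cl (hE : MP1a953e.Emb em H) {p : ℕ} [Fact p.Prime] [CharP F p] {k L : Subfield F}
    (hkL : k ≤ L) (hfg : ∃ S : Finset F, L = k ⊔ Subfield.closure (S : Set F))
    {ι : Type} [Fintype ι] [DecidableEq ι] {z : ι → F} (hz : ∀ i, z i ∈ L) (hz0 : ∀ i, z i ≠ 0)
    (hdec : ∀ y ∈ L, ∃ c : (ι → Fin p) → F, (∀ t, c t ∈ L) ∧ y = ∑ t, pmon z t * c t ^ p)
    (horth : ∀ (c : (ι → Fin p) → F) (t : ι → Fin p),
      ‖c t‖ ^ p * ‖pmon z t‖ ≤ ‖∑ t, pmon z t * c t ^ p‖)
    (hnt : ∃ x ∈ L, 1 < ‖x‖) : HR.HCl p (k.map em) (L.map em) (cl em L) := by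
  classical
  refine ⟨?_, ?_, hclt_pc hE.norm hz hz0 hdec horth, cl_dense em L, cl_complete hE L, ?_⟩
  · intro x hx
    obtain ⟨y, hy, rfl⟩ := Subfield.mem_map.1 hx
    exact Subfield.mem_map.2 ⟨y, hkL hy, rfl⟩
  · obtain ⟨S, hS⟩ := hfg
    refine ⟨S.image em, ?_⟩
    rw [hS, Subfield.map_sup, RingHom.map_field_closure, Finset.coe_image]
  · obtain ⟨x, hx, h1⟩ := hnt
    exact ⟨em x, Subfield.mem_map.2 ⟨x, hx, rfl⟩, by rw [hE.norm]; exact h1⟩

end TA
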