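import Pool.Agent.Lib.TS.Defs

/-!
# Module TS.Newt: Newton iteration and the choice of the element e

PROOFS.
* `exists_newton`: all coefficients of `P` have norm `≤ 1` (they are in the trivially normed field `κ`), so for
  `‖a‖ ≤ 1`, `‖h‖ ≤ 1`: `P(a + h) = P(a) + P'(a) h + h² b` with `‖b‖ ≤ 1`
  (`Polynomial.evalSubFactor`/`binomExpansion`, or `Polynomial.taylor`; the simplest: `Polynomial.binomExpansion`
  gives `∃ k, P.eval (x + y) = P.eval x + P.derivative.eval x * y + k * y ^ 2` in a ring; apply it in the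
  subring `ball F`, to the polynomial with coefficients in `ball F`), and
  `‖P'(a + h) - P'(a)‖ ≤ ‖h‖`.
  NEWTON: if `‖a‖ ≤ 1`, `‖P(a)‖ < 1`, `‖P'(a)‖ = 1` put `a₁ = a - P(a) / P'(a)`: then `‖a₁ - a‖ = ‖P(a)‖`,
  `‖P(a₁)‖ ≤ ‖P(a)‖ ^ 2`, `‖P'(a₁)‖ = 1`.  By induction there is for every `n` an `a` with
  `‖a - e‖ < 1` (indeed `≤ ‖P(e)‖`), `‖a‖ ≤ 1`, `‖P'(a)‖ = 1`, `‖P(a)‖ ≤ ‖P(e)‖ ^ (n + 1)` (or `≤ ‖P(e)‖ ^ (2 ^ n)`).
  Take `n` with `‖P(a)‖ < ‖x‖` (`0 < ‖x‖`, `exists_pow_lt_of_lt_one`) and `e' = a + x`: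
  `P(e') = P(a) + P'(a) x + x² b`, and `‖P'(a) x‖ = ‖x‖` is larger than the other two norms
  (`‖x² b‖ ≤ ‖x‖² < ‖x‖`), so `‖P(e')‖ = ‖x‖`, `‖e' - e‖ < 1`.
* `resData_congr`: let `‖e' - e‖ < 1`.  For `g` over `κ = ku k u`: `‖g(e') - g(e)‖ ≤ ‖e' - e‖ < 1` (the
  coefficients have norm `≤ 1` by `triv`, `‖e‖ ≤ 1`).  So all properties for `e` give those for `e'`.
  `P'` (the derivative) has coefficients in `κ`.
* `exists_eW`: `i₀ = ⟨0, hr⟩`, `exists_newton` with `x i₀` (`hx.ne`, `hx.lt`): `e'`; `w i₀ = P(e')` and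
  `w i = x i` otherwise (`Function.update`).  `‖w i‖ = ‖x i‖`, so `Indep w` (`‖mon w δ‖ = ‖mon x δ‖`,
  `w i ≠ 0` by norms).
-/

open IsLocalRing Polynomial

namespace TA
open Pool.Agent.Lib.MP_3029eb_ag Pool.Agent.Lib.MP_3029eb_ag.Abh

variable {F : Type} [NormedField F] [IsUltrametricDist F]

private theorem newt_binom {Q : F[X]} (hQ : ∀ n, ‖Q.coeff n‖ ≤ 1) {a h : F} (ha : ‖a‖ ≤ 1)
    (hh : ‖h‖ ≤ 1) : ∃ b : F, ‖b‖ ≤ 1 ∧
      Q.eval (a + h) = Q.eval a + Q.derivative.eval a * h + b * h ^ 2 := by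
  have hl : Q ∈ Polynomial.lifts (ball F).toSubring.subtype := by
    rw [Polynomial.lifts_iff_coeff_lifts]
    intro n
    exact ⟨⟨Q.coeff n, hQ n⟩, rfl⟩
  obtain ⟨Q', hQ'⟩ := hl
  have hQ2 : Q'.map (ball F).toSubring.subtype = Q := hQ'
  obtain ⟨b, hb⟩ := Polynomial.binomExpansion Q' (⟨a, ha⟩ : (ball F).toSubring) ⟨h, hh⟩
  refine ⟨b, b.2, ?_⟩
  have h1 : ∀ (R : Polynomial (ball F).toSubring) (x : (ball F).toSubring),
      (R.map (ball F).toSubring.subtype).eval (x : F) = ((R.eval x : (ball F).toSubring) : F) := by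
    intro R x
    rw [eval_map]
    exact eval₂_at_apply (ball F).toSubring.subtype x
  have h2 := congrArg (fun z : (ball F).toSubring => (z : F)) hb
  rw [← h1, hQ2] at h2
  have h3 : ((Q'.eval (⟨a, ha⟩ : (ball F).toSubring) : (ball F).toSubring) : F) = Q.eval a := by
    rw [← h1, hQ2]
  have h4 : ((Q'.derivative.eval (⟨a, ha⟩ : (ball F).toSubring) : (ball F).toSubring) : F) =
      Q.derivative.eval a := by
    rw [← h1, ← derivative_map, hQ2]
  calc Q.eval (a + h) = Q.eval (((⟨a, ha⟩ + ⟨h, hh⟩ : (ball F).toSubring)) : F) := rfl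
    _ = _ := h2
    _ = Q.eval a + Q.derivative.eval a * h + b * h ^ 2 := by
      rw [← h3, ← h4]
      rfl

private theorem newt_eval_le {Q : F[X]} (hQ : ∀ n, ‖Q.coeff n‖ ≤ 1) {a : F} (ha : ‖a‖ ≤ 1) :
    ‖Q.eval a‖ ≤ 1 := by
  rw [eval_eq_sum_range]
  refine IsUltrametricDist.norm_sum_le_of_forall_le_of_nonneg zero_le_one fun i _ => ?_
  rw [norm_mul, norm_pow]
  exact mul_le_one₀ (hQ i) (by positivity) (pow_le_one₀ (norm_nonneg _) ha)

private theorem newt_der_le {Q : F[X]} (hQ : ∀ n, ‖Q.coeff n‖ ≤ 1) (n : ℕ) :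
    ‖Q.derivative.coeff n‖ ≤ 1 := by
  rw [coeff_derivative, norm_mul]
  refine mul_le_one₀ (hQ _) (norm_nonneg _) ?_
  have := IsUltrametricDist.norm_natCast_le_one F (n + 1)
  push_cast at this
  exact this

private theorem newt_add_le {x y : F} {c : ℝ} (hx : ‖x‖ ≤ c) (hy : ‖y‖ ≤ c) : ‖x + y‖ ≤ c :=
  (IsUltrametricDist.norm_add_le_max x y).trans (max_le hx hy)

private theorem newt_add_lt {x y : F} {c : ℝ} (hx : ‖x‖ < c) (hy : ‖y‖ < c) : ‖x + y‖ < c :=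
  (IsUltrametricDist.norm_add_le_max x y).trans_lt (max_lt hx hy)

private theorem newt_lip {Q : F[X]} (hQ : ∀ n, ‖Q.coeff n‖ ≤ 1) {x y : F} (hx : ‖x‖ ≤ 1)
    (hy : ‖y‖ ≤ 1) : ‖Q.eval x - Q.eval y‖ ≤ ‖x - y‖ := by
  have hxy : ‖x - y‖ ≤ 1 := by
    rw [sub_eq_add_neg]
    exact newt_add_le hx (by rwa [norm_neg])
  obtain ⟨b, hb, h1⟩ := newt_binom hQ hy hxy
  have h2 : y + (x - y) = x := by ring
  rw [h2] at h1
  have h3 : Q.eval x - Q.eval y = Q.derivative.eval y * (x - y) + b * (x - y) ^ 2 := by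
    rw [h1]; ring
  rw [h3]
  refine newt_add_le ?_ ?_
  · rw [norm_mul]
    exact mul_le_of_le_one_left (norm_nonneg _) (newt_eval_le (newt_der_le hQ) hy)
  · rw [norm_mul, norm_pow, sq]
    calc ‖b‖ * (‖x - y‖ * ‖x - y‖) ≤ 1 * (1 * ‖x - y‖) :=
          mul_le_mul hb (mul_le_mul_of_nonneg_right hxy (norm_nonneg _)) (by positivity)
            (by norm_num)
      _ = ‖x - y‖ := by ring

private theorem newt_norm_eq {x y : F} {c : ℝ} (hx : ‖x‖ = c) (hxy : ‖y - x‖ < c) : ‖y‖ = c := by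
  have h1 : y = x + (y - x) := by ring
  rw [h1, IsUltrametricDist.norm_add_eq_max_of_norm_ne_norm (by rw [hx]; exact hxy.ne'), hx,
    max_eq_left hxy.le]

omit [IsUltrametricDist F] in
private theorem newt_coeff {κ : Subfield F} (htriv : ∀ x ∈ κ, x ≠ 0 → ‖x‖ = 1) {P : F[X]}
    (hP : HR.PolyIn κ P) (n : ℕ) : ‖P.coeff n‖ ≤ 1 := by
  by_cases h : P.coeff n = 0
  · rw [h, norm_zero]; exact zero_le_one
  · exact (htriv _ (hP n) h).le

theorem exists_newton {κ : Subfield F} (htriv : ∀ x ∈ κ, x ≠ 0 → ‖x‖ = 1) {P : F[X]}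
    (hP : HR.PolyIn κ P) {e x : F} (he : ‖e‖ ≤ 1) (h0 : ‖P.eval e‖ < 1)
    (h1 : ‖P.derivative.eval e‖ = 1) (hx : x ≠ 0) (hx1 : ‖x‖ < 1) :
    ∃ e' : F, ‖e' - e‖ < 1 ∧ ‖P.eval e'‖ = ‖x‖ := by
  have hc := newt_coeff htriv hP
  have key : ∀ n : ℕ, ∃ a : F, ‖a - e‖ < 1 ∧ ‖a‖ ≤ 1 ∧ ‖P.derivative.eval a‖ = 1 ∧
      ‖P.eval a‖ ≤ ‖P.eval e‖ ^ (n + 1) := by
    intro n
    induction n with
    | zero => exact ⟨e, by rw [sub_self, norm_zero]; exact one_pos, he, h1, by rw [zero_add, pow_one]⟩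
    | succ n ih =>
      obtain ⟨a, ha1, ha2, ha3, ha4⟩ := ih
      have hPa : ‖P.eval a‖ ≤ ‖P.eval e‖ := by
        refine ha4.trans ?_
        exact pow_le_of_le_one (norm_nonneg _) h0.le (by omega)
      have hPa1 : ‖P.eval a‖ < 1 := hPa.trans_lt h0
      have hd0 : P.derivative.eval a ≠ 0 := by
        intro h
        rw [h, norm_zero] at ha3
        exact zero_ne_one ha3
      set h := -(P.eval a / P.derivative.eval a) with hh
      have hhn : ‖h‖ = ‖P.eval a‖ := by rw [hh, norm_neg, norm_div, ha3, div_one]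
      have hh1 : ‖h‖ ≤ 1 := by rw [hhn]; exact hPa1.le
      obtain ⟨b, hb, hbe⟩ := newt_binom hc ha2 hh1
      have hah : ‖a + h‖ ≤ 1 := newt_add_le ha2 hh1
      refine ⟨a + h, ?_, hah, ?_, ?_⟩
      · have h2 : a + h - e = (a - e) + h := by ring
        rw [h2]
        exact newt_add_lt ha1 (by rw [hhn]; exact hPa1)
      · apply newt_norm_eq ha3
        have h3 := newt_lip (newt_der_le hc) hah ha2
        refine h3.trans_lt ?_
        rw [add_sub_cancel_left, hhn]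
        exact hPa1
      · have h4 : P.eval (a + h) = b * h ^ 2 := by
          rw [hbe, hh]
          field_simp
          ring
        rw [h4, norm_mul, norm_pow, hhn]
        calc ‖b‖ * ‖P.eval a‖ ^ 2 ≤ 1 * (‖P.eval a‖ * ‖P.eval e‖) := by
              rw [sq]
              exact mul_le_mul hb (mul_le_mul_of_nonneg_left hPa (norm_nonneg _))
                (by positivity) (by norm_num)
          _ = ‖P.eval a‖ * ‖P.eval e‖ := one_mul _
          _ ≤ ‖P.eval e‖ ^ (n + 1) * ‖P.eval e‖ :=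
              mul_le_mul_of_nonneg_right ha4 (norm_nonneg _)
          _ = ‖P.eval e‖ ^ (n + 1 + 1) := (pow_succ _ _).symm
  have hxn : 0 < ‖x‖ := norm_pos_iff.2 hx
  obtain ⟨n, hn⟩ := exists_pow_lt_of_lt_one hxn h0
  obtain ⟨a, ha1, ha2, ha3, ha4⟩ := key n
  have hPa : ‖P.eval a‖ < ‖x‖ := by
    refine ha4.trans_lt (lt_of_le_of_lt ?_ hn)
    exact pow_le_pow_of_le_one (norm_nonneg _) h0.le (Nat.le_succ n)
  obtain ⟨b, hb, hbe⟩ := newt_binom hc ha2 hx1.le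
  refine ⟨a + x, ?_, ?_⟩
  · have h2 : a + x - e = (a - e) + x := by ring
    rw [h2]
    exact newt_add_lt ha1 hx1
  · have h3 : ‖P.derivative.eval a * x‖ = ‖x‖ := by rw [norm_mul, ha3, one_mul]
    apply newt_norm_eq h3
    have h4 : P.eval (a + x) - P.derivative.eval a * x = P.eval a + b * x ^ 2 := by
      rw [hbe]; ring
    rw [h4]
    refine newt_add_lt hPa ?_
    rw [norm_mul, norm_pow, sq]
    calc ‖b‖ * (‖x‖ * ‖x‖) ≤ 1 * (‖x‖ * ‖x‖) := mul_le_mul_of_nonneg_right hb (by positivity)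
      _ = ‖x‖ * ‖x‖ := one_mul _
      _ < 1 * ‖x‖ := mul_lt_mul_of_pos_right hx1 hxn
      _ = ‖x‖ := one_mul _

theorem norm_mon_congr {r : ℕ} {w x : Fin r → F} (h : ∀ i, ‖w i‖ = ‖x i‖) (δ : Fin r → ℤ) :
    ‖mon w δ‖ = ‖mon x δ‖ := by
  unfold mon
  rw [norm_prod, norm_prod]
  refine Finset.prod_congr rfl fun i _ => ?_
  rw [norm_zpow, norm_zpow, h i]

theorem resData_congr {p : ℕ} {k : Subfield F} {s : ℕ} {u : Fin s → F} {e e' : F} {P : F[X]}
    (h : ResData p k u e P) (he : ‖e' - e‖ < 1) : ResData p k u e' P := by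
  have hle : ‖e'‖ ≤ 1 := by
    have h1 : e' = (e' - e) + e := by ring
    rw [h1]
    exact newt_add_le he.le h.le
  have hlip : ∀ g : F[X], (∀ n, ‖g.coeff n‖ ≤ 1) → ‖g.eval e' - g.eval e‖ < 1 := fun g hg =>
    (newt_lip hg hle h.le).trans_lt he
  have hc := newt_coeff h.triv h.poly
  refine ⟨h.triv, hle, h.poly, h.monic, ?_, ?_, ?_, ?_, h.pind⟩
  · intro g hg hg0 hd
    exact newt_norm_eq (h.min g hg hg0 hd) (hlip g (newt_coeff h.triv hg))
  · have h2 : P.eval e' = (P.eval e' - P.eval e) + P.eval e := by ring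
    rw [h2]
    exact newt_add_lt (hlip P hc) h.root
  · exact newt_norm_eq h.simple (hlip _ (newt_der_le hc))
  · intro z hz
    obtain ⟨g, hg, hgz⟩ := h.res z hz
    refine ⟨g, hg, ?_⟩
    have h3 : z - g.eval e' = (z - g.eval e) + -(g.eval e' - g.eval e) := by ring
    rw [h3]
    exact newt_add_lt hgz (by rw [norm_neg]; exact hlip g (newt_coeff h.triv hg))

theorem exists_eW {p : ℕ} {k : Subfield F} {s : ℕ} {u : Fin s → F} {e : F} {P : F[X]}
    (h : ResData p k u e P) {r : ℕ} (hr : 0 < r) {x : Fin r → F} (hx : Indep x) :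
    ∃ (e' : F) (w : Fin r → F) (i₀ : Fin r), Indep w ∧ (∀ i, ‖w i‖ = ‖x i‖) ∧
      w i₀ = P.eval e' ∧ ResData p k u e' P := by
  classical
  obtain ⟨e', he', hPe'⟩ := exists_newton h.triv h.poly h.le h.root h.simple
    (hx.ne ⟨0, hr⟩) (hx.lt ⟨0, hr⟩)
  have hw : ∀ i, ‖Function.update x ⟨0, hr⟩ (P.eval e') i‖ = ‖x i‖ := by
    intro i
    by_cases hi : i = ⟨0, hr⟩
    · rw [hi, Function.update_self, hPe']
    · rw [Function.update_of_ne hi]
  refine ⟨e', Function.update x ⟨0, hr⟩ (P.eval e'), ⟨0, hr⟩, ?_, hw, ?_, resData_congr h he'⟩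
  · refine ⟨fun i => ?_, fun i => ?_, fun δ hδ => ?_⟩
    · rw [← norm_ne_zero_iff, hw i, norm_ne_zero_iff]
      exact hx.ne i
    · rw [hw i]
      exact hx.lt i
    · apply hx.indep
      rw [← norm_mon_congr hw]
      exact hδ
  · rw [Function.update_self]

end TA
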