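import Pool.Agent.Lib.TS.PDefs

/-!
# Module TS.PB1: separating transcendence bases are p-independent

PROOF of `pind_of_sep`.  This is the argument of the private lemmas `em5_mv`, `em5_base`, `em5_step` in
Pool/Agent/Lib/MP_1a953e_ag/Em5.lean (helper62); copy and adapt them (rename with the prefix `pb1_`).
(1) In `MvPolynomial ι k` (a domain of characteristic `p`): `∑ t, X ^ t * P t ^ p = 0` implies `P t = 0`: the
    monomials of `X ^ t * P t ^ p` have exponents congruent to `t` modulo `p`.
(2) The same for elements of `k(z) = IntermediateField.adjoin k (range z)`, by clearing denominators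
    (`z` is algebraically independent).
(3) `F` is a finite extension of `E = k(z)` (`Algebra.EssFiniteType` and algebraic,
    `Algebra.finite_of_essFiniteType_of_isAlgebraic`), separable, so for a basis `b j` of `F / E` also
    the `b j ^ p` form a basis (`Module.Basis.mapPowExpCharPowOfIsSeparable`, with exponent `1`).  Write
    `c t = ∑ j, c t j • b j`, `c t j ∈ E`; then `∑ j, (∑ t, z ^ t * (c t j) ^ p) • b j ^ p = 0`, so
    `∑ t, z ^ t * (c t j) ^ p = 0` for all `j`, and (2) gives `c t j = 0`.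
-/

open Polynomial

namespace TA

private noncomputable def pb1_mono {ι : Type*} [Fintype ι] {p : ℕ} (s : ι → Fin p) : ι →₀ ℕ :=
  Finsupp.equivFunOnFinite.symm (fun i => (s i : ℕ))

private theorem pb1_mono_apply {ι : Type*} [Fintype ι] {p : ℕ} (s : ι → Fin p) (i : ι) :
    pb1_mono s i = (s i : ℕ) := rfl

private theorem pb1_inj {ι : Type*} [Fintype ι] {p : ℕ} (hp : 0 < p) {s s' : ι → Fin p}
    {t t' : ι →₀ ℕ} (h : pb1_mono s + p • t = pb1_mono s' + p • t') : s = s' ∧ t = t' := by
  have h1 : ∀ i, (s i : ℕ) + p * t i = (s' i : ℕ) + p * t' i := by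
    intro i
    have := DFunLike.congr_fun h i
    simpa [pb1_mono_apply] using this
  have h2 : s = s' := by
    funext i
    ext
    have h3 := congrArg (· % p) (h1 i)
    simp only [Nat.add_mul_mod_self_left, Nat.mod_eq_of_lt (s i).2,
      Nat.mod_eq_of_lt (s' i).2] at h3
    exact h3
  refine ⟨h2, ?_⟩
  ext i
  have h3 := h1 i
  rw [h2] at h3
  exact Nat.eq_of_mul_eq_mul_left hp (Nat.add_left_cancel h3)

private theorem pb1_mv {R : Type*} [CommRing R] [IsReduced R] {p : ℕ} [Fact p.Prime] [CharP R p]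
    {ι : Type*} [Fintype ι] [DecidableEq ι] (P : (ι → Fin p) → MvPolynomial ι R)
    (h : ∑ s, (∏ i, (MvPolynomial.X i : MvPolynomial ι R) ^ (s i : ℕ)) * P s ^ p = 0)
    (s₀ : ι → Fin p) : P s₀ = 0 := by
  classical
  have hp0 : 0 < p := (Fact.out : p.Prime).pos
  have hm : ∀ s : ι → Fin p, (∏ i, (MvPolynomial.X i : MvPolynomial ι R) ^ (s i : ℕ)) =
      MvPolynomial.monomial (pb1_mono s) 1 := by
    intro s
    rw [MvPolynomial.monomial_eq, map_one, one_mul, Finsupp.prod_fintype]
    · rfl
    · intro i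
      rw [pow_zero]
  have hP : ∀ s, P s ^ p = ∑ t ∈ (P s).support,
      MvPolynomial.monomial (p • t) ((P s).coeff t ^ p) := by
    intro s
    conv_lhs => rw [MvPolynomial.as_sum (P s)]
    rw [sum_pow_char]
    exact Finset.sum_congr rfl fun t _ => by rw [MvPolynomial.monomial_pow]
  ext t₀
  rw [MvPolynomial.coeff_zero]
  have h1 := congrArg (MvPolynomial.coeff (pb1_mono s₀ + p • t₀)) h
  rw [MvPolynomial.coeff_zero, MvPolynomial.coeff_sum, Finset.sum_eq_single s₀] at h1
  · rw [hm, hP, Finset.mul_sum, MvPolynomial.coeff_sum, Finset.sum_eq_single t₀] at h1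
    · rw [MvPolynomial.monomial_mul, one_mul, MvPolynomial.coeff_monomial, if_pos rfl] at h1
      exact pow_eq_zero_iff (Fact.out : p.Prime).ne_zero |>.1 h1
    · intro t _ ht
      rw [MvPolynomial.monomial_mul, MvPolynomial.coeff_monomial, if_neg]
      exact fun h2 => ht (pb1_inj hp0 h2).2
    · intro ht
      rw [MvPolynomial.notMem_support_iff] at ht
      rw [ht, zero_pow (Fact.out : p.Prime).ne_zero, map_zero, mul_zero,
        MvPolynomial.coeff_zero]
  · intro s _ hs
    rw [hm, hP, Finset.mul_sum, MvPolynomial.coeff_sum]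
    refine Finset.sum_eq_zero fun t _ => ?_
    rw [MvPolynomial.monomial_mul, MvPolynomial.coeff_monomial, if_neg]
    exact fun h2 => hs (pb1_inj hp0 h2).1
  · intro hs
    exact absurd (Finset.mem_univ _) hs

private theorem pb1_base {k F : Type*} [Field k] [Field F] [Algebra k F] {p : ℕ} [Fact p.Prime]
    [CharP k p] [CharP F p] {ι : Type*} [Fintype ι] [DecidableEq ι]
    {z : ι → F} (hai : AlgebraicIndependent k z)
    (f : (ι → Fin p) → F) (hf : ∀ s, f s ∈ IntermediateField.adjoin k (Set.range z))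
    (h : ∑ s, (∏ i, z i ^ (s i : ℕ)) * f s ^ p = 0) (s₀ : ι → Fin p) : f s₀ = 0 := by
  classical
  have hf' : ∀ s, ∃ r q : MvPolynomial ι k, MvPolynomial.aeval z q ≠ 0 ∧
      f s * MvPolynomial.aeval z q = MvPolynomial.aeval z r := by
    intro s
    have h1 := hf s
    rw [IntermediateField.mem_adjoin_range_iff] at h1
    obtain ⟨r, q, hrq⟩ := h1
    by_cases hq : MvPolynomial.aeval z q = 0
    · refine ⟨0, 1, by rw [map_one]; exact one_ne_zero, ?_⟩
      rw [hrq, hq, div_zero, zero_mul, map_zero]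
    · exact ⟨r, q, hq, by rw [hrq, div_mul_cancel₀ _ hq]⟩
  choose r q hq hrq using hf'
  let P : (ι → Fin p) → MvPolynomial ι k := fun s => r s * ∏ s' ∈ Finset.univ.erase s, q s'
  have hQ : MvPolynomial.aeval z (∏ s, q s) ≠ 0 := by
    rw [map_prod]
    exact Finset.prod_ne_zero_iff.2 fun s _ => hq s
  have hP : ∀ s, MvPolynomial.aeval z (P s) = f s * MvPolynomial.aeval z (∏ s, q s) := by
    intro s
    rw [← Finset.mul_prod_erase Finset.univ q (Finset.mem_univ s)]
    show MvPolynomial.aeval z (r s * ∏ s' ∈ Finset.univ.erase s, q s') = _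
    rw [map_mul, map_mul, ← mul_assoc, hrq]
  have h1 : ∑ s, (∏ i, (MvPolynomial.X i : MvPolynomial ι k) ^ (s i : ℕ)) * P s ^ p = 0 := by
    apply hai
    rw [map_zero, map_sum]
    have h2 : ∀ s : ι → Fin p, MvPolynomial.aeval z
        ((∏ i, (MvPolynomial.X i : MvPolynomial ι k) ^ (s i : ℕ)) * P s ^ p) =
        ((∏ i, z i ^ (s i : ℕ)) * f s ^ p) * MvPolynomial.aeval z (∏ s, q s) ^ p := by
      intro s
      rw [map_mul, map_pow, hP, map_prod, mul_pow, mul_assoc]
      simp only [map_pow, MvPolynomial.aeval_X]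
    rw [Finset.sum_congr rfl fun s _ => h2 s, ← Finset.sum_mul, h, zero_mul]
  have h2 := pb1_mv P h1 s₀
  have h3 := hP s₀
  rw [h2, map_zero] at h3
  exact (mul_eq_zero.1 h3.symm).resolve_right hQ

theorem pind_of_sep {k F : Type*} [Field k] [Field F] [Algebra k F] {p : ℕ} [Fact p.Prime]
    [CharP k p] [CharP F p] [Algebra.EssFiniteType k F] {ι : Type*} [Fintype ι] [DecidableEq ι]
    {z : ι → F} (hai : AlgebraicIndependent k z)
    (hsep : Algebra.IsSeparable (IntermediateField.adjoin k (Set.range z)) F) : PInd p z := by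
  classical
  set E := IntermediateField.adjoin k (Set.range z) with hE
  intro c hc s₀
  have hess : Algebra.EssFiniteType E F := Algebra.EssFiniteType.of_comp k E F
  have hfd : Module.Finite E F := Algebra.finite_of_essFiniteType_of_isAlgebraic
  have hcharE : CharP E p := (algebraMap E F).charP (algebraMap E F).injective p
  have hexpE : ExpChar E p := ExpChar.prime Fact.out
  have hexpF : ExpChar F p := ExpChar.prime Fact.out
  let b := Module.finBasis E F
  let b' := b.mapPowExpCharPowOfIsSeparable p 1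
  have hb' : ∀ j, b' j = b j ^ p := by
    intro j
    show (Module.Basis.mk _ _) j = _
    rw [Module.Basis.mk_apply, pow_one]
  have hzE : ∀ s : ι → Fin p, (∏ i, z i ^ (s i : ℕ)) ∈ E := by
    intro s
    exact prod_mem fun i _ => pow_mem
      (IntermediateField.subset_adjoin k (Set.range z) (Set.mem_range_self i)) _
  have h1 : ∑ j, (∑ s : ι → Fin p, (⟨∏ i, z i ^ (s i : ℕ), hzE s⟩ : E) *
      (b.repr (c s) j) ^ p) • b' j = 0 := by
    have h2 : ∀ s, (c s) ^ p = ∑ j, (b.repr (c s) j) ^ p • b' j := by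
      intro s
      conv_lhs => rw [← b.sum_repr (c s)]
      rw [sum_pow_char]
      exact Finset.sum_congr rfl fun j _ => by rw [_root_.smul_pow, hb']
    have h3 : ∑ s : ι → Fin p, (⟨∏ i, z i ^ (s i : ℕ), hzE s⟩ : E) • (c s) ^ p = 0 := by
      exact hc
    rw [← h3]
    simp only [h2, Finset.smul_sum, Finset.sum_smul, smul_smul]
    rw [Finset.sum_comm]
  have h2 : ∀ j, ∑ s : ι → Fin p, (⟨∏ i, z i ^ (s i : ℕ), hzE s⟩ : E) *
      (b.repr (c s) j) ^ p = 0 :=
    fun j => Fintype.linearIndependent_iff.1 b'.linearIndependent _ h1 j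
  have h3 : ∀ j, ((b.repr (c s₀) j : E) : F) = 0 := by
    intro j
    refine pb1_base hai (fun s => ((b.repr (c s) j : E) : F)) (fun s => Subtype.property _)
      ?_ s₀
    have h4 := congrArg (Subtype.val) (h2 j)
    push_cast at h4
    exact h4
  rw [← b.sum_repr (c s₀)]
  refine Finset.sum_eq_zero fun j _ => ?_
  have h5 : b.repr (c s₀) j = 0 := Subtype.ext (h3 j)
  rw [h5, zero_smul]

end TA
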