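import Pool.Agent.Lib.TS.PDefs

/-!
# Module TS.PB3: extending p-independent families by elements outside of `F ^ p (z)`

`NF p z` is the set of all `∑ t, pmon z t * c t ^ p`.
PROOFS.
* `nf_field`: `NF p z` is a subfield of `F`: sums: `(a + b) ^ p = a ^ p + b ^ p` (`add_pow_char`); products:
  `pmon z t * pmon z t' = pmon z t'' * (monomial in z) ^ p` where `t''` is `t + t'` modulo `p`; so products of
  two elements are sums of elements `pmon z t'' * e ^ p`, and `NF p z` is closed under sums.  It contains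
  `a ^ p` for all `a` (take `t = 0`), so `1`, and `-1`; it contains `x⁻¹ = x ^ (p - 1) * (x⁻¹) ^ p`.  State it as the
  existence of a subfield `N` with this carrier.  It contains all `z i` (if `p ≥ 2`:
  `t = Pi.single i 1`; the sum has a single term).
* `pind_ext1`: let `y ∉ NF p z = N`.  `y ^ p ∈ N`, and `y ^ p` is not a `p`-th power of an element of `N` (Frobenius is
  injective, `y ∉ N`), so `X ^ p - y ^ p` is irreducible over `N` (`X_pow_sub_C_irreducible_of_prime`) and is the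
  minimal polynomial of `y` over `N`, of degree `p`; so `∑_{j < p} n j * y ^ j = 0` with `n j ∈ N` implies
  `n j = 0`.  Now `∑_{t : Option ι → Fin p} pmon (ext1 z y) t * c t ^ p = ∑_{j < p} y ^ j * n j`,
  `n j = ∑_{t : ι → Fin p} pmon z t * (c (j, t)) ^ p ∈ N` (split the functions on `Option ι`:
  `Fintype.sum_equiv` with `Equiv.piOptionEquivProd`, `Fintype.sum_prod_type`, `Fintype.prod_option`), and
  `PInd p z` gives `c = 0`.
* `notMem_of_pind_ext1`: if `v = ∑ t, pmon z t * c t ^ p` then `∑ … = 0` is a nontrivial relation for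
  `ext1 z v`: coefficients `- c t` (or use `v * 1 ^ p - ∑ pmon z t * c t ^ p = 0`, with coefficient `1` at the
  exponent which is `1` at `none` and `0` elsewhere, `p ≥ 2`; `(-c) ^ p = - c ^ p` in characteristic `p`).
* `dense_pind`: `v ∉ N` by the preceding.  Let `x = z i₀`, `0 < ‖x‖ < 1`, and `m` with
  `‖x ^ m * v‖ < ε` and `‖x ^ (m + 1) * v‖ < ε`.  If both `y + x ^ m * v` and `y + x ^ (m + 1) * v` were in `N`, the
  difference `(x ^ m - x ^ (m + 1)) * v` would be in `N`, and `x ^ m - x ^ (m + 1) ∈ N` is not zero, so `v ∈ N`.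
* `pind_mul`: `y * x ∈ N` with `x ∈ N`, `x ≠ 0` implies `y ∈ N`.
-/

open Polynomial

namespace TA

/-- the set of all `∑ t, pmon z t * c t ^ p` (the field generated by the `p`-th powers and `z`) -/
def NF (p : ℕ) {F : Type*} [Field F] {ι : Type*} [Fintype ι] [DecidableEq ι] (z : ι → F) : Set F :=
  {x | ∃ c : (ι → Fin p) → F, x = ∑ t, pmon z t * c t ^ p}

variable {F : Type*} [Field F] {p : ℕ} [Fact p.Prime] [CharP F p] {ι : Type*} [Fintype ι]
  [DecidableEq ι] {z : ι → F}

private lemma pb3_add {x y : F} (hx : x ∈ NF p z) (hy : y ∈ NF p z) : x + y ∈ NF p z := by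
  have : ExpChar F p := .prime Fact.out
  obtain ⟨c, rfl⟩ := hx
  obtain ⟨d, rfl⟩ := hy
  refine ⟨fun s => c s + d s, ?_⟩
  rw [← Finset.sum_add_distrib]
  refine Finset.sum_congr rfl fun s _ => ?_
  rw [add_pow_expChar]
  ring

private lemma pb3_zero : (0 : F) ∈ NF p z := by
  have hp0 : p ≠ 0 := (Fact.out : p.Prime).ne_zero
  refine ⟨fun _ => 0, ?_⟩
  simp [hp0]

private lemma pb3_mono (m : ι → ℕ) (a : F) : (∏ i, z i ^ m i) * a ^ p ∈ NF p z := by
  classical
  have hp0 : 0 < p := (Fact.out : p.Prime).pos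
  let s0 : ι → Fin p := fun i => ⟨m i % p, Nat.mod_lt _ hp0⟩
  refine ⟨fun s => if s = s0 then (∏ i, z i ^ (m i / p)) * a else 0, ?_⟩
  rw [Finset.sum_eq_single s0]
  · simp only [if_true]
    unfold pmon
    rw [mul_pow, ← mul_assoc, ← Finset.prod_pow, ← Finset.prod_mul_distrib]
    congr 1
    refine Finset.prod_congr rfl fun i _ => ?_
    rw [← pow_mul, ← pow_add]
    congr 1
    simp only [s0]
    rw [mul_comm, Nat.mod_add_div]
  · intro s _ hs
    simp only [if_neg hs]
    simp [hp0.ne']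
  · intro h
    exact absurd (Finset.mem_univ _) h

private lemma pb3_mul {x y : F} (hx : x ∈ NF p z) (hy : y ∈ NF p z) : x * y ∈ NF p z := by
  classical
  obtain ⟨c, rfl⟩ := hx
  obtain ⟨d, rfl⟩ := hy
  rw [Finset.sum_mul_sum]
  refine Finset.sum_induction _ (fun w => w ∈ NF p z) (fun a b ha hb => pb3_add ha hb) pb3_zero
    fun t _ => ?_
  refine Finset.sum_induction _ (fun w => w ∈ NF p z) (fun a b ha hb => pb3_add ha hb) pb3_zero
    fun s _ => ?_
  have h1 : pmon z t * c t ^ p * (pmon z s * d s ^ p) =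
      (∏ i, z i ^ ((t i : ℕ) + (s i : ℕ))) * (c t * d s) ^ p := by
    unfold pmon
    rw [Finset.prod_congr rfl (fun i _ => pow_add (z i) (t i : ℕ) (s i : ℕ)),
      Finset.prod_mul_distrib]
    ring
  rw [h1]
  exact pb3_mono _ _

private lemma pb3_pow (a : F) : a ^ p ∈ NF p z := by
  have h := pb3_mono (z := z) (p := p) (fun _ => 0) a
  simpa using h

private lemma pb3_one : (1 : F) ∈ NF p z := by
  have h := pb3_pow (z := z) (p := p) (1 : F)
  rwa [one_pow] at h

private lemma pb3_neg {x : F} (hx : x ∈ NF p z) : -x ∈ NF p z := by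
  obtain ⟨c, rfl⟩ := hx
  refine ⟨fun t => -c t, ?_⟩
  rw [← Finset.sum_neg_distrib]
  refine Finset.sum_congr rfl fun t _ => ?_
  have h := map_neg (frobenius F p) (c t)
  rw [frobenius_def, frobenius_def] at h
  rw [h]
  ring

private lemma pb3_npow {x : F} (hx : x ∈ NF p z) (n : ℕ) : x ^ n ∈ NF p z := by
  induction n with
  | zero => rw [pow_zero]; exact pb3_one
  | succ n ih => rw [pow_succ]; exact pb3_mul ih hx

private lemma pb3_inv {x : F} (hx : x ∈ NF p z) : x⁻¹ ∈ NF p z := by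
  by_cases h0 : x = 0
  · rw [h0, inv_zero]; exact pb3_zero
  · have h1 : x⁻¹ = x ^ (p - 1) * x⁻¹ ^ p := by
      have hp1 : p = (p - 1) + 1 := (Nat.succ_pred_eq_of_pos (Fact.out : p.Prime).pos).symm
      have h2 : x⁻¹ ^ p = x⁻¹ ^ (p - 1) * x⁻¹ := by
        conv_lhs => rw [hp1]
        rw [pow_succ]
      rw [h2, ← mul_assoc, ← mul_pow, mul_inv_cancel₀ h0, one_pow, one_mul]
    rw [h1]
    exact pb3_mul (pb3_npow hx _) (pb3_pow _)

theorem nf_field (z : ι → F) : ∃ N : Subfield F, (N : Set F) = NF p z ∧ (∀ a : F, a ^ p ∈ N) ∧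
    ∀ i, z i ∈ N := by
  classical
  refine ⟨{ carrier := NF p z
            mul_mem' := fun ha hb => pb3_mul ha hb
            one_mem' := pb3_one
            add_mem' := fun ha hb => pb3_add ha hb
            zero_mem' := pb3_zero
            neg_mem' := fun ha => pb3_neg ha
            inv_mem' := fun _ ha => pb3_inv ha }, rfl, fun a => pb3_pow a, fun i => ?_⟩
  have h := pb3_mono (z := z) (p := p) (Pi.single i 1) 1
  rw [one_pow, mul_one, Finset.prod_eq_single i, Pi.single_eq_same, pow_one] at h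
  · exact h
  · intro j _ hj
    rw [Pi.single_eq_of_ne hj, pow_zero]
  · intro h
    exact absurd (Finset.mem_univ _) h

private lemma pb3_split (z : ι → F) (v : F) (c : (Option ι → Fin p) → F) :
    ∑ t, pmon (ext1 z v) t * c t ^ p =
      ∑ j : Fin p, v ^ (j : ℕ) * ∑ t : ι → Fin p, pmon z t * c (fun o => o.elim j t) ^ p := by
  classical
  have h1 : ∑ t, pmon (ext1 z v) t * c t ^ p =
      ∑ q : Fin p × (ι → Fin p), v ^ (q.1 : ℕ) * (pmon z q.2 *
        c (fun o => o.elim q.1 q.2) ^ p) := by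
    refine Fintype.sum_equiv (Equiv.piOptionEquivProd (α := ι) (β := fun _ => Fin p)) _ _
      fun t => ?_
    have h2 : (fun o : Option ι => o.elim (t none) (fun i => t (some i))) = t := by
      funext o
      cases o <;> rfl
    show pmon (ext1 z v) t * c t ^ p = v ^ ((t none : Fin p) : ℕ) *
      (pmon z (fun i => t (some i)) *
        c (fun o : Option ι => o.elim (t none) (fun i => t (some i))) ^ p)
    rw [h2]
    unfold pmon
    rw [Fintype.prod_option]
    show v ^ ((t none : Fin p) : ℕ) * (∏ i, z i ^ ((t (some i) : Fin p) : ℕ)) * c t ^ p = _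
    rw [mul_assoc]
  rw [h1, Fintype.sum_prod_type]
  refine Finset.sum_congr rfl fun j _ => ?_
  rw [Finset.mul_sum]

private lemma pb3_ext1 (z : ι → F) (v : F) :
    PInd p (ext1 z v) ↔ ∀ c : Fin p → (ι → Fin p) → F,
      ∑ j : Fin p, v ^ (j : ℕ) * ∑ t : ι → Fin p, pmon z t * c j t ^ p = 0 →
        ∀ j t, c j t = 0 := by
  constructor
  · intro h c hc j t
    have h1 := h (fun t => c (t none) (fun i => t (some i)))
      ((pb3_split z v _).trans hc) (fun o => o.elim j t)
    exact h1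
  · intro h c hc t
    rw [pb3_split] at hc
    have h1 := h (fun j t => c (fun o => o.elim j t)) hc (t none) (fun i => t (some i))
    have h2 : (fun o : Option ι => o.elim (t none) (fun i => t (some i))) = t := by
      funext o
      cases o <;> rfl
    have h3 : c (fun o : Option ι => o.elim (t none) (fun i => t (some i))) = 0 := h1
    rwa [h2] at h3

theorem pind_ext1 (hz : PInd p z) {y : F} (hy : y ∉ NF p z) : PInd p (ext1 z y) := by
  have hp : p.Prime := Fact.out
  obtain ⟨N, hN, hpow, hzN⟩ := nf_field (p := p) z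
  have hmem : ∀ x : F, x ∈ N ↔ x ∈ NF p z := fun x => by rw [← hN]; rfl
  have hyN : y ∉ N := fun h => hy ((hmem y).1 h)
  rw [pb3_ext1]
  intro c hc
  have hn : ∀ j, ∑ t : ι → Fin p, pmon z t * c j t ^ p ∈ N := fun j => (hmem _).2 ⟨c j, rfl⟩
  -- the minimal polynomial of `y`
  have hirr : Irreducible (X ^ p - C (⟨y ^ p, hpow y⟩ : N)) := by
    refine X_pow_sub_C_irreducible_of_prime hp fun b hb => hyN ?_
    have h1 : (b : F) ^ p = y ^ p := by
      have h2 := congrArg (fun w : N => (w : F)) hb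
      exact h2
    have h2 : (b : F) = y := frobenius_inj F p h1
    rw [← h2]
    exact b.2
  have hroot : aeval y (X ^ p - C (⟨y ^ p, hpow y⟩ : N)) = 0 := by
    rw [map_sub, map_pow, aeval_X, aeval_C]
    exact sub_self _
  have hmin := minpoly.eq_of_irreducible_of_monic hirr hroot
    (monic_X_pow_sub_C _ hp.ne_zero)
  set P : N[X] := ∑ j : Fin p, C (⟨_, hn j⟩ : N) * X ^ (j : ℕ) with hP
  have hP0 : aeval y P = 0 := by
    rw [hP, map_sum, ← hc]
    refine Finset.sum_congr rfl fun j _ => ?_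
    rw [map_mul, map_pow, aeval_X, aeval_C, mul_comm]
    rfl
  have hPz : P = 0 := by
    by_contra hne
    have h1 := minpoly.degree_le_of_ne_zero N y hne hP0
    rw [← hmin, degree_X_pow_sub_C hp.pos] at h1
    have h2 : P.degree < (p : WithBot ℕ) := by
      rw [hP]
      exact degree_sum_fin_lt _
    exact absurd h1 (not_le.2 h2)
  have hcj : ∀ j : Fin p, ∑ t : ι → Fin p, pmon z t * c j t ^ p = 0 := by
    intro j
    have h1 : P.coeff (j : ℕ) = (⟨_, hn j⟩ : N) := by
      rw [hP, finsetSum_coeff, Finset.sum_eq_single j]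
      · rw [coeff_C_mul_X_pow, if_pos rfl]
      · intro i _ hij
        rw [coeff_C_mul_X_pow, if_neg]
        intro h
        exact hij (Fin.ext h.symm)
      · intro h
        exact absurd (Finset.mem_univ _) h
    rw [hPz, coeff_zero] at h1
    have h2 := congrArg (fun w : N => (w : F)) h1
    exact h2.symm
  exact fun j => hz (c j) (hcj j)

theorem notMem_of_pind_ext1 {v : F} (hv : PInd p (ext1 z v)) : v ∉ NF p z := by
  classical
  have hp : p.Prime := Fact.out
  rintro ⟨c, hc⟩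
  rw [pb3_ext1] at hv
  let j0 : Fin p := ⟨0, hp.pos⟩
  let j1 : Fin p := ⟨1, hp.one_lt⟩
  have h01 : j1 ≠ j0 := by
    intro h
    have h2 := congrArg Fin.val h
    exact one_ne_zero h2
  let t0 : ι → Fin p := fun _ => j0
  have hpm : pmon z t0 = 1 := by
    unfold pmon
    refine Finset.prod_eq_one fun i _ => ?_
    show z i ^ 0 = 1
    rw [pow_zero]
  have hm1 : (-1 : F) ^ p = -1 := by
    have h := map_neg (frobenius F p) (1 : F)
    rw [frobenius_def, frobenius_def, one_pow] at h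
    exact h
  let d : Fin p → (ι → Fin p) → F := fun j t =>
    if j = j0 then c t else if j = j1 ∧ t = t0 then -1 else 0
  have hd0 : ∑ t : ι → Fin p, pmon z t * d j0 t ^ p = v := by
    rw [hc]
    refine Finset.sum_congr rfl fun t _ => ?_
    show pmon z t * (if j0 = j0 then c t else if j0 = j1 ∧ t = t0 then -1 else 0) ^ p = _
    rw [if_pos rfl]
  have hd1 : ∑ t : ι → Fin p, pmon z t * d j1 t ^ p = -1 := by
    rw [Finset.sum_eq_single t0]
    · show pmon z t0 * (if j1 = j0 then c t0 else if j1 = j1 ∧ t0 = t0 then -1 else 0) ^ p = -1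
      rw [if_neg h01, if_pos ⟨rfl, rfl⟩, hpm, one_mul, hm1]
    · intro t _ ht
      show pmon z t * (if j1 = j0 then c t else if j1 = j1 ∧ t = t0 then -1 else 0) ^ p = 0
      rw [if_neg h01, if_neg (fun h => ht h.2), zero_pow hp.ne_zero, mul_zero]
    · intro h
      exact absurd (Finset.mem_univ _) h
  have hdj : ∀ j : Fin p, j ≠ j0 → j ≠ j1 → ∑ t : ι → Fin p, pmon z t * d j t ^ p = 0 := by
    intro j h0 h1
    refine Finset.sum_eq_zero fun t _ => ?_
    show pmon z t * (if j = j0 then c t else if j = j1 ∧ t = t0 then -1 else 0) ^ p = 0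
    rw [if_neg h0, if_neg (fun h => h1 h.1), zero_pow hp.ne_zero, mul_zero]
  have hsum : ∑ j : Fin p, v ^ (j : ℕ) * ∑ t : ι → Fin p, pmon z t * d j t ^ p = 0 := by
    rw [← Finset.add_sum_erase _ _ (Finset.mem_univ j0),
      ← Finset.add_sum_erase _ _ (Finset.mem_erase.2 ⟨h01, Finset.mem_univ j1⟩), hd0, hd1]
    rw [Finset.sum_eq_zero]
    · show v ^ 0 * v + (v ^ 1 * -1 + 0) = 0
      ring
    · intro j hj
      obtain ⟨h1, h2⟩ := Finset.mem_erase.1 hj
      rw [hdj j (Finset.mem_erase.1 h2).1 h1, mul_zero]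
  have h1 := hv d hsum j1 t0
  have h2 : d j1 t0 = -1 := by
    show (if j1 = j0 then c t0 else if j1 = j1 ∧ t0 = t0 then (-1 : F) else 0) = -1
    rw [if_neg h01, if_pos ⟨rfl, rfl⟩]
  rw [h2] at h1
  exact one_ne_zero (neg_eq_zero.1 h1)

theorem pind_of_ext1 {v : F} (hv : PInd p (ext1 z v)) : PInd p z := by
  classical
  have hp : p.Prime := Fact.out
  rw [pb3_ext1] at hv
  intro c hc
  let j0 : Fin p := ⟨0, hp.pos⟩
  let d : Fin p → (ι → Fin p) → F := fun j t => if j = j0 then c t else 0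
  have hd0 : ∀ t, d j0 t = c t := fun t => if_pos rfl
  have hsum : ∑ j : Fin p, v ^ (j : ℕ) * ∑ t : ι → Fin p, pmon z t * d j t ^ p = 0 := by
    refine Finset.sum_eq_zero fun j _ => ?_
    by_cases hj : j = j0
    · rw [hj, Finset.sum_congr rfl fun t _ => by rw [hd0 t], hc, mul_zero]
    · rw [Finset.sum_eq_zero, mul_zero]
      intro t _
      have h1 : d j t = 0 := if_neg hj
      rw [h1, zero_pow hp.ne_zero, mul_zero]
  intro t
  rw [← hd0 t]
  exact hv d hsum j0 t

private lemma pb3_cancel {x y : F} (hx : x ∈ NF p z) (h0 : x ≠ 0) (hxy : x * y ∈ NF p z) :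
    y ∈ NF p z := by
  have h1 : y = x⁻¹ * (x * y) := by rw [← mul_assoc, inv_mul_cancel₀ h0, one_mul]
  rw [h1]
  exact pb3_mul (pb3_inv hx) hxy

theorem pind_mul {y : F} (hy : PInd p (ext1 z y)) {i : ι} (hi : z i ≠ 0) (n : ℕ) :
    PInd p (ext1 z (y * z i ^ n)) := by
  obtain ⟨N, hN, _, hzN⟩ := nf_field (p := p) z
  have hmem : z i ^ n ∈ NF p z := by
    rw [← hN]
    exact pow_mem (hzN i) n
  refine pind_ext1 (pind_of_ext1 hy) fun h => notMem_of_pind_ext1 hy ?_
  rw [mul_comm] at h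
  exact pb3_cancel hmem (pow_ne_zero n hi) h

theorem dense_pind {F : Type*} [NormedField F] {p : ℕ} [Fact p.Prime] [CharP F p] {ι : Type*}
    [Fintype ι] [DecidableEq ι] {z : ι → F} {v : F} (hv : PInd p (ext1 z v)) {i₀ : ι}
    (h0 : z i₀ ≠ 0) (h1 : ‖z i₀‖ < 1) (y : F) {ε : ℝ} (hε : 0 < ε) :
    ∃ y' : F, ‖y - y'‖ < ε ∧ PInd p (ext1 z y') := by
  have hz := pind_of_ext1 hv
  have hvN := notMem_of_pind_ext1 hv
  obtain ⟨N, hN, _, hzN⟩ := nf_field (p := p) z
  have hmem : ∀ x : F, x ∈ N ↔ x ∈ NF p z := fun x => by rw [← hN]; rfl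
  have hpos : 0 < ε / (‖v‖ + 1) := div_pos hε (by positivity)
  obtain ⟨m, hm⟩ := exists_pow_lt_of_lt_one hpos h1
  have hm1 : ‖z i₀ ^ m * v‖ < ε := by
    rw [norm_mul, norm_pow]
    rw [lt_div_iff₀ (by positivity)] at hm
    have h2 : 0 ≤ ‖z i₀‖ ^ m := by positivity
    nlinarith
  have hm2 : ‖z i₀ ^ (m + 1) * v‖ < ε := by
    refine lt_of_le_of_lt ?_ hm1
    rw [norm_mul, norm_mul, norm_pow, norm_pow, pow_succ]
    have h2 : 0 ≤ ‖z i₀‖ ^ m := by positivity
    have h3 : ‖z i₀‖ ^ m * ‖z i₀‖ ≤ ‖z i₀‖ ^ m := mul_le_of_le_one_right h2 h1.le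
    exact mul_le_mul_of_nonneg_right h3 (norm_nonneg v)
  by_cases hA : y + z i₀ ^ m * v ∈ NF p z
  · by_cases hB : y + z i₀ ^ (m + 1) * v ∈ NF p z
    · exfalso
      have hx1 : z i₀ ≠ 1 := by
        intro h
        rw [h, norm_one] at h1
        exact lt_irrefl _ h1
      have h2 : (z i₀ ^ m - z i₀ ^ (m + 1)) * v ∈ NF p z := by
        have h3 := sub_mem ((hmem _).2 hA) ((hmem _).2 hB)
        rw [hmem] at h3
        have h4 : (z i₀ ^ m - z i₀ ^ (m + 1)) * v =
            y + z i₀ ^ m * v - (y + z i₀ ^ (m + 1) * v) := by ring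
        rw [h4]
        exact h3
      have h3 : z i₀ ^ m - z i₀ ^ (m + 1) ∈ NF p z :=
        (hmem _).1 (sub_mem (pow_mem (hzN i₀) _) (pow_mem (hzN i₀) _))
      have h4 : z i₀ ^ m - z i₀ ^ (m + 1) ≠ 0 := by
        rw [pow_succ, ← mul_one_sub]
        exact mul_ne_zero (pow_ne_zero m h0) (sub_ne_zero.2 hx1.symm)
      exact hvN (pb3_cancel h3 h4 h2)
    · refine ⟨_, ?_, pind_ext1 hz hB⟩
      rw [sub_add_cancel_left, norm_neg]
      exact hm2
  · refine ⟨_, ?_, pind_ext1 hz hA⟩
    rw [sub_add_cancel_left, norm_neg]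
    exact hm1

end TA
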