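import Pool.Agent.Lib.TS.Defs
import Pool.Agent.Lib.TA.Base

/-!
# Module TS.ParG: the base chart in terms of the generators

PROOF of `par_gens`.  `κ = ku k u`.  `par_base` (with `κ`, `e`, `P`, `w`) gives
`Par (chart κ ({e} ∪ range w)) w ∅`.  It remains to see that
`chart k (gensOf u e w) = chart κ ({e} ∪ range w)` (`coe_gensOf`), both are `locV (ball F)` of a closure.
`≤`: `chart_le` with `k ⊆ κ ⊆ …`, `u i ∈ κ`, and the other generators, `loc_chart`.
`≥`: `chart_le`: we need `κ ⊆ chart k (gensOf u e w)`: an element `x` of `κ = k ⊔ closure (range u)` is a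
quotient `a / b`, `b ≠ 0`, of elements of the ring `gring k (range u)` (`Subfield.mem_closure_iff`), and
`b ∈ κ`, so `‖b‖ = 1` by `triv`; so `x ∈ locV (ball F) (gring k (range u)) ≤ chart k (gensOf u e w)`.
* `approx_L`: for `z ≠ 0`: `‖z‖ = ‖mon w δ‖` (`hval`), `mon w δ ∈ L`, `z / mon w δ` has norm `1`, so by `res`
  there is `g` over `κ` with `‖z / mon w δ - g(e)‖ < 1`, and `g(e) ∈ L`; multiply by `mon w δ`.
-/

open IsLocalRing Polynomial

namespace TA
open Pool.Agent.Lib.MP_3029eb_ag Pool.Agent.Lib.MP_3029eb_ag.Abh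

variable {F : Type} [NormedField F] [IsUltrametricDist F] {p : ℕ} {k : Subfield F} {s r : ℕ}
  {u : Fin s → F} {e : F} {P : F[X]} {w : Fin r → F}

theorem par_gens (h : ResData p k u e P) (hw : Indep w) {i₀ : Fin r} (hi₀ : w i₀ = P.eval e) :
    Par (chart k (gensOf u e w : Set F)) w ∅ := by
  have hbase := par_base h.triv h.le h.poly h.monic h.min hw hi₀
  have heq : chart k (gensOf u e w : Set F) = chart (ku k u) ({e} ∪ Set.range w) := by
    apply le_antisymm
    · refine chart_le ?_ ?_ (loc_chart _ _)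
      · intro x hx
        have hx' : x ∈ ku k u := (le_sup_left : k ≤ ku k u) hx
        exact gring_le_chart _ _ (le_gring _ _ hx')
      · rw [coe_gensOf]
        rintro x ((⟨i, rfl⟩ | hx) | hx)
        · have hx' : u i ∈ ku k u :=
            (le_sup_right : Subfield.closure (Set.range u) ≤ ku k u)
              (Subfield.subset_closure ⟨i, rfl⟩)
          exact gring_le_chart _ _ (le_gring _ _ hx')
        · exact gring_le_chart _ _ (subset_gring _ _ (Or.inl hx))
        · exact gring_le_chart _ _ (subset_gring _ _ (Or.inr hx))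
    · refine chart_le ?_ ?_ (loc_chart _ _)
      · intro x hx
        have hκ : ku k u = Subfield.closure ((k : Set F) ∪ Set.range u) := by
          rw [Subfield.closure_union, Subfield.closure_eq]
          rfl
        have hx2 : x ∈ Subfield.closure ((k : Set F) ∪ Set.range u) := by
          rw [← hκ]; exact hx
        rw [Subfield.mem_closure_iff] at hx2
        obtain ⟨a, ha, b, hb, rfl⟩ := hx2
        have hsub : Subring.closure ((k : Set F) ∪ Set.range u) ≤
            gring k (gensOf u e w : Set F) := by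
          refine gring_mono k ?_
          rw [coe_gensOf]
          exact fun y hy => Or.inl (Or.inl hy)
        by_cases hb0 : b = 0
        · rw [hb0, div_zero]
          exact (chart k (gensOf u e w : Set F)).zero_mem
        · have hbκ : b ∈ ku k u := by
            rw [hκ]
            exact Subfield.subring_closure_le _ hb
          have hb1 := h.triv b hbκ hb0
          exact ⟨a, hsub ha, b, hsub hb, (val_eq_one_iff b).2 hb1, div_mul_cancel₀ a hb0⟩
      · rintro x (hx | hx)
        · refine gring_le_chart _ _ (subset_gring _ _ ?_)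
          rw [coe_gensOf]
          exact Or.inl (Or.inr hx)
        · refine gring_le_chart _ _ (subset_gring _ _ ?_)
          rw [coe_gensOf]
          exact Or.inr hx
  rw [heq]
  exact hbase

theorem approx_L (h : ResData p k u e P) (hw : Indep w)
    (hval : ∀ z : F, z ≠ 0 → ∃ δ : Fin r → ℤ, ‖z‖ = ‖mon w δ‖) {z : F} (hz : z ≠ 0) :
    ∃ a ∈ Lof k u e w, ‖z - a‖ < ‖z‖ := by
  obtain ⟨δ, hδ⟩ := hval z hz
  have hzn : 0 < ‖z‖ := norm_pos_iff.2 hz
  have hm0 : mon w δ ≠ 0 := by
    rw [← norm_pos_iff, ← hδ]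
    exact hzn
  have hmL : mon w δ ∈ Lof k u e w := by
    unfold mon
    exact prod_mem fun i _ => zpow_mem (w_mem_Lof k u e w i) _
  have h1 : ‖z / mon w δ‖ ≤ 1 := by
    rw [norm_div, ← hδ, div_self hzn.ne']
  obtain ⟨g, hg, hgz⟩ := h.res _ h1
  have hgL : g.eval e ∈ Lof k u e w := by
    rw [eval_eq_sum_range]
    exact sum_mem fun i _ => mul_mem (ku_le_Lof k u e w (hg i)) (pow_mem (e_mem_Lof k u e w) _)
  refine ⟨g.eval e * mon w δ, mul_mem hgL hmL, ?_⟩
  have h2 : z - g.eval e * mon w δ = (z / mon w δ - g.eval e) * mon w δ := by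
    field_simp
  rw [h2, norm_mul, ← hδ]
  calc ‖z / mon w δ - g.eval e‖ * ‖z‖ < 1 * ‖z‖ := mul_lt_mul_of_pos_right hgz hzn
    _ = ‖z‖ := one_mul _

end TA
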