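import Pool.Agent.Lib.TS.Defs
import Pool.Agent.Lib.TS.PB2
import Pool.Agent.Lib.TS.PB3
import Pool.Agent.Lib.HR.FS

/-!
# Module TS.Sep2: finite separable extensions from p-independent families

`z = Sum.elim u w` or any family; `ku (kF k F) z ≤ L`.
PROOFS.
* `fsep_of_pind`: `sep_of_pind` for the family `ext1 z y` (index type `Option ι`,
  `Fintype.card_option`) shows that `F` is separable algebraic over
  `IntermediateField.adjoin k (range (ext1 z y))`, whose underlying subfield is
  `kF k F ⊔ closure (range (ext1 z y)) ≤ adj L y` (`mem_adjoin_iff'`; `range (ext1 z y) = {y} ∪ range z`).  So every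
  `x ∈ F` is separable over `adj L y` (a separable polynomial over the smaller field is one over the bigger
  field: map the minimal polynomial).  `F` is finitely generated over `k`: `Algebra.EssFiniteType k F` gives a
  finite set `S` with `IntermediateField.adjoin k S = ⊤` (`IntermediateField.fg_top_iff`), so
  `⊤ = adj L y ⊔ closure S`: the fields `fg`.
* `exists_th`: `HR.FSep.prim` for `fsep_of_pind`: `⊤ = adj (adj L y) th`, `th` separable; and
  `HR.exists_poly_of_mem_adj` gives the polynomials.
* `tr_of_pind`: `p` polynomial over `L`, `p ≠ 0`, `p(y) ≠ 0`, that is `y` is transcendental over `L`, if `L` is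
  algebraic over `ku (kF k F) z`: `ext1 z y` is algebraically independent over `k` (`ai_of_pind`), so `y` is
  transcendental over `k(z)` (`AlgebraicIndependent.option_iff_transcendental` or
  `algebraicIndependent_option…`; search Mathlib for `Option` versions), hence over its algebraic
  extension `L` (if `y` is algebraic over `L`, and `L` over `k(z)`, then `y` is algebraic over `k(z)`).
-/

open IsLocalRing Polynomial

namespace TA
open Pool.Agent.Lib.MP_3029eb_ag Pool.Agent.Lib.MP_3029eb_ag.Abh

variable {k F : Type} [Field k] [IsAlgClosed k] [NormedField F] [Algebra k F] {p : ℕ}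
  [Fact p.Prime] [CharP k p] [CharP F p] {ι : Type} [Fintype ι] [DecidableEq ι] {z : ι → F}
  {L : Subfield F} {y : F}

omit [IsAlgClosed k] in
private lemma sep2_sep {M : IntermediateField k F} {K : Subfield F} (h : ∀ a ∈ M, a ∈ K) {x : F}
    (hx : IsSeparable M x) : IsSeparable K x := by
  let f : M →+* K :=
    { toFun := fun a => ⟨a, h a a.2⟩
      map_one' := rfl
      map_mul' := fun _ _ => rfl
      map_zero' := rfl
      map_add' := fun _ _ => rfl }
  let _ : Algebra M K := f.toAlgebra
  have _ : IsScalarTower M K F := IsScalarTower.of_algebraMap_eq fun _ => rfl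
  exact IsSeparable.tower_top K hx

omit [IsAlgClosed k] in
private lemma sep2_alg {M : IntermediateField k F} {K : Subfield F} (h : ∀ a ∈ K, a ∈ M) {x : F}
    (hx : IsAlgebraic K x) : IsAlgebraic M x := by
  let f : K →+* M :=
    { toFun := fun a => ⟨a, h a a.2⟩
      map_one' := rfl
      map_mul' := fun _ _ => rfl
      map_zero' := rfl
      map_add' := fun _ _ => rfl }
  let _ : Algebra K M := f.toAlgebra
  have _ : IsScalarTower K M F := IsScalarTower.of_algebraMap_eq fun _ => rfl
  exact hx.extendScalars f.injective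

omit [IsAlgClosed k] in
private lemma sep2_kF (hzL : ku (kF k F) z ≤ L) : kF k F ≤ MP1a953e.adj L y :=
  le_trans (le_trans le_sup_left hzL) le_sup_left

omit [IsAlgClosed k] in
private lemma sep2_le (hzL : ku (kF k F) z ≤ L) (a : F)
    (ha : a ∈ IntermediateField.adjoin k (Set.range (ext1 z y))) : a ∈ MP1a953e.adj L y := by
  rw [mem_adjoin_iff'] at ha
  have hle : kF k F ⊔ Subfield.closure (Set.range (ext1 z y)) ≤ MP1a953e.adj L y := by
    refine sup_le (sep2_kF hzL) ?_
    rw [Subfield.closure_le]
    rintro _ ⟨o, rfl⟩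
    cases o with
    | none =>
      exact (le_sup_right : Subfield.closure {y} ≤ _) (Subfield.subset_closure rfl)
    | some i =>
      have h1 : z i ∈ ku (kF k F) z :=
        (le_sup_right : Subfield.closure (Set.range z) ≤ _) (Subfield.subset_closure ⟨i, rfl⟩)
      exact (le_sup_left : L ≤ MP1a953e.adj L y) (hzL h1)
  exact hle ha

theorem fsep_of_pind [Algebra.EssFiniteType k F] (hzL : ku (kF k F) z ≤ L)
    (hy : PInd p (ext1 z y)) (htr : Algebra.trdeg k F = ((Fintype.card ι + 1 : ℕ) : Cardinal)) :
    HR.FSep (MP1a953e.adj L y) (⊤ : Subfield F) := by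
  have hsep : Algebra.IsSeparable (IntermediateField.adjoin k (Set.range (ext1 z y))) F := by
    apply sep_of_pind (k := k) hy
    rw [htr, Fintype.card_option]
  refine ⟨le_top, fun x _ => ?_, ?_⟩
  · exact sep2_sep (sep2_le hzL) (hsep.isSeparable _ x)
  · obtain ⟨s, hs⟩ := IntermediateField.fg_top_iff.2 (inferInstance : Algebra.EssFiniteType k F)
    refine ⟨s, le_antisymm ?_ le_top⟩
    intro x _
    have h1 : x ∈ IntermediateField.adjoin k (s : Set F) := by
      rw [hs]
      exact IntermediateField.mem_top
    rw [mem_adjoin_iff'] at h1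
    exact (sup_le_sup_right (sep2_kF hzL) _) h1

theorem exists_th [Algebra.EssFiniteType k F] (hzL : ku (kF k F) z ≤ L)
    (hy : PInd p (ext1 z y)) (htr : Algebra.trdeg k F = ((Fintype.card ι + 1 : ℕ) : Cardinal)) :
    ∃ th : F, IsSeparable (MP1a953e.adj L y) th ∧
      ∀ x : F, ∃ h : F[X], HR.PolyIn (MP1a953e.adj L y) h ∧ h.eval th = x := by
  obtain ⟨th, _, hsep, hE⟩ := (fsep_of_pind hzL hy htr).prim
  refine ⟨th, hsep, fun x => ?_⟩
  have hx : x ∈ MP1a953e.adj (MP1a953e.adj L y) th := by
    rw [← hE]
    exact Subfield.mem_top x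
  obtain ⟨h, h1, _, h3⟩ := HR.exists_poly_of_mem_adj hsep.isIntegral.isAlgebraic hx
  exact ⟨h, h1, h3⟩

theorem tr_of_pind (hzL : ku (kF k F) z ≤ L) (halg : ∀ x ∈ L, IsAlgebraic (ku (kF k F) z) x)
    (hy : PInd p (ext1 z y)) {P : F[X]} (hP : HR.PolyIn L P) (h0 : P ≠ 0) : P.eval y ≠ 0 := by
  intro hev
  have hz : PInd p z := pind_of_ext1 hy
  have hai : AlgebraicIndependent k (ext1 z y) := ai_of_pind hy
  have h1 : Transcendental (Algebra.adjoin k (Set.range z)) y :=
    ((ai_of_pind (k := k) hz).option_iff_transcendental y).1 hai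
  have h2 : Transcendental (IntermediateField.adjoin k (Set.range z)) y :=
    IntermediateField.transcendental_adjoin_iff.2 h1
  -- `y` is algebraic over `L`
  have hL : IsAlgebraic (Subfield.extendScalars hzL) y := by
    have hl : P ∈ Polynomial.lifts (algebraMap (Subfield.extendScalars hzL) F) := by
      rw [Polynomial.lifts_iff_coeff_lifts]
      intro n
      exact ⟨⟨P.coeff n, hP n⟩, rfl⟩
    obtain ⟨Q, hQ⟩ := hl
    have hQ' : Q.map (algebraMap (Subfield.extendScalars hzL) F) = P := hQ
    refine ⟨Q, ?_, ?_⟩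
    · rintro rfl
      rw [Polynomial.map_zero] at hQ'
      exact h0 hQ'.symm
    · rw [aeval_def, ← eval_map, hQ', hev]
  have halg' : Algebra.IsAlgebraic (ku (kF k F) z) (Subfield.extendScalars hzL) := by
    refine ⟨fun x => ?_⟩
    have h3 : IsAlgebraic (ku (kF k F) z) (x : F) := halg x x.2
    exact (isAlgebraic_algHom_iff (Subfield.extendScalars hzL).val Subtype.val_injective).1 h3
  have h3 : IsAlgebraic (ku (kF k F) z) y := hL.restrictScalars (ku (kF k F) z)
  refine h2 (sep2_alg (fun a ha => ?_) h3)
  rw [mem_adjoin_iff']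
  exact ha

end TA
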