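import Pool.Agent.Lib.TS.Defs
import Pool.Agent.Lib.HR.T4L

/-!
# Module TS.T4P: points of type four, transfer and the case of limits

PROOFS.
* `t4_pull`: `imm`: for `b ∈ L` apply `imm` to `em b`: `b' ∈ L.map em`, `b' = em b₁`, norms are preserved.
  `tt`: for `P` over `L`, `P ≠ 0`, apply `tt` to `P.map em`: it is over `L.map em`, not zero (`Polynomial.map_ne_zero`),
  `(P.map em).eval (em b) = em (P.eval b)` (`Polynomial.eval_map`, `eval₂_at_apply`),
  `taylor (em b) (P.map em) = (taylor b P).map em` (`Polynomial.map_taylor` or `taylor_map`; else compare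
  coefficients by `Polynomial.taylor_coeff` and `hasseDeriv_map`…), norms are preserved.
* `t4_of_limit`: `imm`: `y ∉ L` (take `P = X - C b`: `P.eval y ≠ 0`), so `‖y - b‖ > 0`, and there is `b'` with
  `‖y - b'‖ < ‖y - b‖`.  `tt`: let `c = ‖P.eval y‖ > 0` and `C ≥ 1` a bound for the norms of the coefficients
  `(taylor y P).coeff n`, all `n`.  Choose `b₀ ∈ L` with `‖y - b₀‖ < min 1 (c / C)`.  Let `b ∈ L` with
  `‖y - b‖ ≤ ‖y - b₀‖`.  Since `‖b - y‖ ≤ 1`, all coefficients of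
  `taylor b P = taylor (b - y) (taylor y P)` (`Polynomial.taylor_taylor`) have norm `≤ C` (ultrametric, integers have
  norm `≤ 1`), and `‖P.eval b - P.eval y‖ ≤ C * ‖b - y‖ < c`, so `‖P.eval b‖ = c`.  For `n ≥ 1`:
  `‖(taylor b P).coeff n‖ * ‖y - b‖ ^ n ≤ C * ‖y - b‖ < c`.
-/

open IsLocalRing Polynomial

namespace TA
open Pool.Agent.Lib.MP_3029eb_ag Pool.Agent.Lib.MP_3029eb_ag.Abh

variable {F : Type} [NormedField F] {L : Subfield F} {y : F}

theorem t4_pull {W : Type} [NormedField W] {em : F →+* W} (hem : ∀ x, ‖em x‖ = ‖x‖)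
    (h : HR.T4 (L.map em) (em y)) : HR.T4 L y := by
  have hsub : ∀ a b : F, ‖em a - em b‖ = ‖a - b‖ := fun a b => by rw [← map_sub, hem]
  refine ⟨fun b hb => ?_, fun P hP hP0 => ?_⟩
  · obtain ⟨b', hb', hlt⟩ := h.imm (em b) (Subfield.mem_map.2 ⟨b, hb, rfl⟩)
    obtain ⟨b₁, hb₁, rfl⟩ := Subfield.mem_map.1 hb'
    rw [hsub, hsub] at hlt
    exact ⟨b₁, hb₁, hlt⟩
  · have h1 : HR.PolyIn (L.map em) (P.map em) := by
      intro n
      rw [coeff_map]
      exact Subfield.mem_map.2 ⟨_, hP n, rfl⟩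
    obtain ⟨b', hb', hall⟩ := h.tt (P.map em) h1
      ((Polynomial.map_ne_zero_iff em.injective).2 hP0)
    obtain ⟨b₀, hb₀, rfl⟩ := Subfield.mem_map.1 hb'
    refine ⟨b₀, hb₀, fun b hb hle n hn => ?_⟩
    have h2 := hall (em b) (Subfield.mem_map.2 ⟨b, hb, rfl⟩) (by rw [hsub, hsub]; exact hle) n hn
    have h3 : (taylor (em b) (P.map em)).coeff n = em ((taylor b P).coeff n) := by
      have h4 : taylor (em b) (P.map em) = (taylor b P).map em := by
        rw [taylor_apply, taylor_apply, Polynomial.map_comp, Polynomial.map_add, map_X, map_C]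
      rw [h4, coeff_map]
    rw [h3, hsub, hem, eval_map, eval₂_at_apply, hem] at h2
    exact h2

private theorem t4p_bound (f : F[X]) : ∃ C : ℝ, 1 ≤ C ∧ ∀ n, ‖f.coeff n‖ ≤ C := by
  refine ⟨1 + ∑ n ∈ Finset.range (f.natDegree + 1), ‖f.coeff n‖, ?_, fun n => ?_⟩
  · have : 0 ≤ ∑ n ∈ Finset.range (f.natDegree + 1), ‖f.coeff n‖ :=
      Finset.sum_nonneg fun _ _ => norm_nonneg _
    linarith
  · by_cases hn : n ∈ Finset.range (f.natDegree + 1)
    · have h1 := Finset.single_le_sum (f := fun n => ‖f.coeff n‖) (fun _ _ => norm_nonneg _) hn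
      have h2 : ‖f.coeff n‖ ≤ ∑ n ∈ Finset.range (f.natDegree + 1), ‖f.coeff n‖ := h1
      linarith
    · have h1 : f.coeff n = 0 := coeff_eq_zero_of_natDegree_lt (by
        rw [Finset.mem_range] at hn; omega)
      rw [h1, norm_zero]
      have : 0 ≤ ∑ n ∈ Finset.range (f.natDegree + 1), ‖f.coeff n‖ :=
        Finset.sum_nonneg fun _ _ => norm_nonneg _
      linarith

private theorem t4p_eval [IsUltrametricDist F] {g : F[X]} {C : ℝ} (hC : 0 ≤ C)
    (hg : ∀ n, ‖g.coeff n‖ ≤ C) {a : F} (ha : ‖a‖ ≤ 1) : ‖g.eval a‖ ≤ C := by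
  rw [eval_eq_sum_range]
  refine IsUltrametricDist.norm_sum_le_of_forall_le_of_nonneg hC fun i _ => ?_
  rw [norm_mul, norm_pow]
  calc ‖g.coeff i‖ * ‖a‖ ^ i ≤ C * 1 :=
        mul_le_mul (hg i) (pow_le_one₀ (norm_nonneg _) ha) (by positivity) hC
    _ = C := mul_one C

theorem t4_of_limit [IsUltrametricDist F] (hcl : ∀ ε : ℝ, 0 < ε → ∃ a ∈ L, ‖y - a‖ < ε)
    (htr : ∀ P : F[X], HR.PolyIn L P → P ≠ 0 → P.eval y ≠ 0) : HR.T4 L y := by
  refine ⟨fun b hb => ?_, fun P hP hP0 => ?_⟩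
  · have h1 : HR.PolyIn L (X - C b : F[X]) := by
      intro n
      rw [coeff_sub, coeff_X, coeff_C]
      refine L.sub_mem ?_ ?_
      · split_ifs
        · exact L.one_mem
        · exact L.zero_mem
      · split_ifs
        · exact hb
        · exact L.zero_mem
    have h2 := htr _ h1 (X_sub_C_ne_zero b)
    rw [eval_sub, eval_X, eval_C] at h2
    exact hcl _ (norm_pos_iff.2 h2)
  · set f := taylor y P with hf
    obtain ⟨C, hC1, hC⟩ := t4p_bound f
    have hC0 : 0 < C := by linarith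
    have hc0 : 0 < ‖P.eval y‖ := norm_pos_iff.2 (htr P hP hP0)
    obtain ⟨b₀, hb₀, hlt⟩ := hcl (min 1 (‖P.eval y‖ / C)) (lt_min one_pos (by positivity))
    refine ⟨b₀, hb₀, fun b _ hle n hn => ?_⟩
    have h1 : ‖y - b‖ < 1 := (hle.trans_lt hlt).trans_le (min_le_left _ _)
    have h2 : C * ‖y - b‖ < ‖P.eval y‖ := by
      have h3 : ‖y - b‖ < ‖P.eval y‖ / C := (hle.trans_lt hlt).trans_le (min_le_right _ _)
      rw [lt_div_iff₀ hC0] at h3
      linarith
    have hby : ‖b - y‖ ≤ 1 := by rw [norm_sub_rev]; exact h1.le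
    have h3 : P.eval b = f.eval (b - y) := by
      rw [hf, taylor_eval, sub_add_cancel]
    have h4 : ‖P.eval b - P.eval y‖ < ‖P.eval y‖ := by
      have h5 : P.eval b - P.eval y = f.divX.eval (b - y) * (b - y) := by
        have h6 : f.coeff 0 = P.eval y := by rw [hf, taylor_coeff_zero]
        have h7 := congrArg (eval (b - y)) (divX_mul_X_add f)
        rw [eval_add, eval_mul, eval_X, eval_C, h6] at h7
        rw [h3, ← h7]
        ring
      rw [h5, norm_mul]
      have h8 : ‖f.divX.eval (b - y)‖ ≤ C :=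
        t4p_eval hC0.le (fun n => by rw [coeff_divX]; exact hC _) hby
      calc ‖f.divX.eval (b - y)‖ * ‖b - y‖ ≤ C * ‖b - y‖ :=
            mul_le_mul_of_nonneg_right h8 (norm_nonneg _)
        _ = C * ‖y - b‖ := by rw [norm_sub_rev]
        _ < ‖P.eval y‖ := h2
    have h5 : ‖P.eval b‖ = ‖P.eval y‖ := by
      have h6 : P.eval b = P.eval y + (P.eval b - P.eval y) := by ring
      rw [h6, IsUltrametricDist.norm_add_eq_max_of_norm_ne_norm (ne_of_gt h4)]
      exact max_eq_left h4.le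
    have h6 : ‖(taylor b P).coeff n‖ ≤ C := by
      have h7 : taylor b P = taylor (b - y) f := by
        rw [hf, taylor_taylor, sub_add_cancel]
      rw [h7, taylor_coeff]
      refine t4p_eval hC0.le (fun i => ?_) hby
      rw [hasseDeriv_coeff, norm_mul]
      calc ‖(((i + n).choose n : ℕ) : F)‖ * ‖f.coeff (i + n)‖ ≤ 1 * C :=
            mul_le_mul (IsUltrametricDist.norm_natCast_le_one F _) (hC _) (norm_nonneg _)
              zero_le_one
        _ = C := one_mul C
    rw [h5]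
    calc ‖(taylor b P).coeff n‖ * ‖y - b‖ ^ n ≤ C * ‖y - b‖ := by
          refine mul_le_mul h6 ?_ (by positivity) hC0.le
          calc ‖y - b‖ ^ n ≤ ‖y - b‖ ^ 1 := pow_le_pow_of_le_one (norm_nonneg _) h1.le hn
            _ = ‖y - b‖ := pow_one _
      _ < ‖P.eval y‖ := h2

end TA
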