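import Pool.Agent.Lib.TS.HClT
import Pool.Agent.Lib.TS.T4P
import Pool.Agent.Lib.TS.Sep2
import Pool.Agent.Lib.HR.HRat
import Pool.Agent.Lib.HR.T4T
import Pool.Agent.Lib.MP_1a953e_ag.Em1

/-!
# Module TS.Pt: the point of type four

HYPOTHESES: `L` is a subfield of `F`, finitely generated over `kF k F`, algebraic over `k(z)`, with the
decomposition `hdec` and the orthogonality `horth` of the monomials in `z`, `L` approximates `F` in norm and
residue (`happ`), and there is a `z i₀` with `0 < ‖z i₀‖ < 1`; `v` is an element with `PInd p (ext1 z v)`.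

PROOF of `exists_point`.  Take `W`, `em : F →+* W`, `H` from `MP1a953e.exists_emb F` (the norm is nontrivial:
`(z i₀)⁻¹`), `W` is algebraically closed of characteristic `p` (`charP_of_injective_ringHom`).  `K = cl em L`,
`HCl p (k'.map em) (L.map em) K` by `hcl_cl` (with `k' = kF k F`), `Imm K H` by `imm_cl`.  `k'.map em` is
algebraically closed: it is isomorphic to `k` (`IsAlgClosed.of_ringEquiv`).
We show: THERE IS `y₀ ∈ F` with `PInd p (ext1 z y₀)`, `T4 L y₀` and `adj L y₀` dense in `F`, and moreover the same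
holds for `y₀ * z i₀ ^ n` for all `n`; then choose `n` with `‖y₀ * z i₀ ^ n‖ ≤ 1`.
CASE A: `K = H`, i.e. every element of `F` is a limit of elements of `L` (for `x ∈ F`, `em x ∈ H = K`, and
`cl_dense`).  Take `y₀ = v` or any `y` with `PInd p (ext1 z y)`: `T4 L y` by `t4_of_limit` and `tr_of_pind`, the
density is clear (`L ≤ adj L y`), and `PInd` for `y * z i₀ ^ n` is `pind_mul`.
CASE B: `K ≠ H`.  Take `x ∈ H`, `x ∉ K` (`K ≤ H` by `cl_le`).  `K` is closed, so a ball around `x` does not meet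
`K`; `em F` is dense in `H` and by `dense_pind` there is `v' ∈ F` with `em v'` in this ball and
`PInd p (ext1 z v')`.  So `em v' ∉ K`.  Let `M = cl em (adj L v')`: complete (`cl_complete`), contains
`em v'`, `DenseIn (adj K (em v')) M`: `K ≤ M` (closures; `L ≤ adj L v'`), so `adj K (em v') ≤ M`, and
`(adj L v').map em ≤ adj K (em v')` is dense in `M`.  `FSep M H`: by `fsep_of_pind` and `HR.FSep.prim` there is `th`
separable over `adj L v'` with `⊤ = adj (adj L v') th`.  `em th` is separable over `(adj L v').map em`, so over `M`,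
and `adj M (em th)` is complete (`MP1a953e.complete_adj`), so closed, and contains `em F` (`F = adj (adj L v') th`,
`Subfield.map_sup`…), so it contains the closure `H` of `em F`; it is contained in `H`.  So
`H = adj M (em th)` and `HR.FSep.adj` gives `FSep M H`.
`HR.hr_dense` with the dense subset `{em y | PInd p (ext1 z y)}` of `H` (dense: `em F` is dense in `H`, and
`dense_pind`) gives `y₀ ∈ F` with `PInd p (ext1 z y₀)`, `em y₀ ∉ K`, and `DenseIn (adj (L.map em) (em y₀)) H`.
Let `y = y₀ * z i₀ ^ n`: `PInd p (ext1 z y)` (`pind_mul`), `em y ∉ K` (`z i₀ ∈ L`, `z i₀ ≠ 0`), `em y ∈ H`, so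
`TT K (em y)` by `HR.tt_of_hcl`, `T4 (L.map em) (em y)` by `HR.t4_of_tt` (with `cl_dense`), `T4 L y` by `t4_pull`.
`adj L y = adj L y₀` (`z i₀ ∈ L` is invertible), and for `x ∈ F` and `ε > 0` there is an element of
`adj (L.map em) (em y₀) = (adj L y₀).map em` at distance `< ε` from `em x`.
-/

open IsLocalRing Polynomial

namespace TA
open Pool.Agent.Lib.MP_3029eb_ag Pool.Agent.Lib.MP_3029eb_ag.Abh

private theorem pt_le_adj {F : Type} [NormedField F] (L : Subfield F) (x : F) :
    L ≤ MP1a953e.adj L x := le_sup_left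

private theorem pt_mem_adj {F : Type} [NormedField F] (L : Subfield F) (x : F) :
    x ∈ MP1a953e.adj L x :=
  (le_sup_right : Subfield.closure {x} ≤ MP1a953e.adj L x)
    (Subfield.subset_closure (Set.mem_singleton x))

private theorem pt_adj_le {F : Type} [NormedField F] {L N : Subfield F} {x : F} (h : L ≤ N)
    (hx : x ∈ N) : MP1a953e.adj L x ≤ N :=
  sup_le h (Subfield.closure_le.2 (Set.singleton_subset_iff.2 hx))

private theorem pt_map_adj {F W : Type} [NormedField F] [NormedField W] (em : F →+* W)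
    {L : Subfield F} {N : Subfield W} {x : F} (h : ∀ a ∈ L, em a ∈ N) (hx : em x ∈ N) :
    ∀ b ∈ MP1a953e.adj L x, em b ∈ N := by
  have h1 : MP1a953e.adj L x ≤ N.comap em := pt_adj_le h hx
  exact fun b hb => h1 hb

/-- separability is transported by the embedding -/
private theorem pt_sep {F W : Type} [NormedField F] [NormedField W] (em : F →+* W)
    {A : Subfield F} {M : Subfield W} (hAM : ∀ a ∈ A, em a ∈ M) {th : F}
    (hth : IsSeparable A th) : IsSeparable M (em th) := by
  let f : A →+* M := (em.comp A.subtype).codRestrict M (fun a => hAM a a.2)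
  have h1 : ((minpoly A th).map f).Separable := Polynomial.Separable.map hth
  have h2 : aeval (em th) ((minpoly A th).map f) = 0 := by
    rw [aeval_def, eval₂_map]
    have e : (algebraMap M W).comp f = em.comp (algebraMap A F) := rfl
    rw [e, ← hom_eval₂, ← aeval_def, minpoly.aeval, map_zero]
  exact h1.of_dvd (minpoly.dvd M (em th) h2)

private theorem pt_closed {k F : Type} [Field k] [IsAlgClosed k] [NormedField F] [Algebra k F]
    {W : Type} [NormedField W] (em : F →+* W) : IsAlgClosed ((kF k F).map em) := by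
  have hmem : ∀ x : k, (em.comp (algebraMap k F)) x ∈ (kF k F).map em := fun x =>
    ⟨algebraMap k F x, ⟨x, rfl⟩, rfl⟩
  let g : k →+* (kF k F).map em := (em.comp (algebraMap k F)).codRestrict _ hmem
  have hg : Function.Bijective g := by
    refine ⟨g.injective, ?_⟩
    rintro ⟨w, hw⟩
    obtain ⟨x, ⟨c, rfl⟩, rfl⟩ := hw
    exact ⟨c, rfl⟩
  exact IsAlgClosed.of_ringEquiv k _ (RingEquiv.ofBijective g hg)

theorem exists_point {k F : Type} [Field k] [IsAlgClosed k] [NormedField F] [IsUltrametricDist F]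
    [Algebra k F] [Algebra.EssFiniteType k F] {p : ℕ} [Fact p.Prime] [CharP k p] [CharP F p]
    {ι : Type} [Fintype ι] [DecidableEq ι] {z : ι → F} {L : Subfield F}
    (hkL : kF k F ≤ L) (hfg : ∃ S : Finset F, L = kF k F ⊔ Subfield.closure (S : Set F))
    (hzL : ∀ i, z i ∈ L) (hz0 : ∀ i, z i ≠ 0)
    (halg : ∀ x ∈ L, IsAlgebraic (ku (kF k F) z) x)
    (hdec : ∀ y ∈ L, ∃ c : (ι → Fin p) → F, (∀ t, c t ∈ L) ∧ y = ∑ t, pmon z t * c t ^ p)
    (horth : ∀ (c : (ι → Fin p) → F) (t : ι → Fin p),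
      ‖c t‖ ^ p * ‖pmon z t‖ ≤ ‖∑ t, pmon z t * c t ^ p‖)
    (happ : ∀ x : F, x ≠ 0 → ∃ a ∈ L, ‖x - a‖ < ‖x‖)
    {i₀ : ι} (hi₀ : ‖z i₀‖ < 1) (htr : Algebra.trdeg k F = ((Fintype.card ι + 1 : ℕ) : Cardinal))
    {v : F} (hv : PInd p (ext1 z v)) :
    ∃ y : F, ‖y‖ ≤ 1 ∧ PInd p (ext1 z y) ∧ HR.T4 L y ∧
      ∀ x : F, ∀ ε : ℝ, 0 < ε → ∃ a ∈ MP1a953e.adj L y, ‖x - a‖ < ε := by
  have hzi : 0 < ‖z i₀‖ := norm_pos_iff.2 (hz0 i₀)
  have hnt1 : 1 < ‖(z i₀)⁻¹‖ := by
    rw [norm_inv]
    exact (one_lt_inv₀ hzi).2 hi₀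
  have hkuL : ku (kF k F) z ≤ L :=
    sup_le hkL (Subfield.closure_le.2 (by rintro _ ⟨i, rfl⟩; exact hzL i))
  obtain ⟨W, nfW, hWu, hWc, em, H, hE⟩ := MP1a953e.exists_emb F ⟨(z i₀)⁻¹, hnt1⟩
  have hcharW : CharP W p := charP_of_injective_ringHom em.injective p
  set K : Subfield W := cl em L with hKdef
  have hKc : IsComplete (K : Set W) := cl_complete hE L
  have hKH : K ≤ H := cl_le hE L
  have hLd : MP1a953e.DenseIn (L.map em) K := cl_dense em L
  have hcl : HR.HCl p ((kF k F).map em) (L.map em) K :=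
    hcl_cl hE hkL hfg hzL hz0 hdec horth ⟨(z i₀)⁻¹, L.inv_mem (hzL i₀), hnt1⟩
  have hI : MP1a953e.Imm K H := imm_cl hE happ
  have hk : IsAlgClosed ((kF k F).map em) := pt_closed em
  have hemL : ∀ a ∈ L, em a ∈ K := fun a ha => hLd.1 ⟨a, ha, rfl⟩
  -- the main claim
  have key : ∃ y₀ : F, PInd p (ext1 z y₀) ∧ (∀ n : ℕ, HR.T4 L (y₀ * z i₀ ^ n)) ∧
      ∀ x : F, ∀ ε : ℝ, 0 < ε → ∃ a ∈ MP1a953e.adj L y₀, ‖x - a‖ < ε := by
    by_cases hHK : H ≤ K
    · -- case A
      have hlim : ∀ x : F, ∀ ε : ℝ, 0 < ε → ∃ a ∈ L, ‖x - a‖ < ε := by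
        intro x ε hε
        obtain ⟨a, ⟨b, hb, rfl⟩, hlt⟩ := hLd.2 (em x) (hHK (hE.mem x)) ε hε
        refine ⟨b, hb, ?_⟩
        have h1 : em x - em b = em (x - b) := (map_sub em x b).symm
        rw [h1, hE.norm] at hlt
        exact hlt
      refine ⟨v, hv, fun n => ?_, fun x ε hε => ?_⟩
      · exact t4_of_limit (hlim _) (fun P hP h0 =>
          tr_of_pind hkuL halg (pind_mul hv (hz0 i₀) n) hP h0)
      · obtain ⟨a, ha, hlt⟩ := hlim x ε hε
        exact ⟨a, pt_le_adj L v ha, hlt⟩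
    · -- case B
      obtain ⟨x, hxH, hxK⟩ := SetLike.not_le_iff_exists.1 hHK
      have hopen : IsOpen ((K : Set W)ᶜ) := hKc.isClosed.isOpen_compl
      obtain ⟨ε, hε, hball⟩ := Metric.isOpen_iff.1 hopen x hxK
      obtain ⟨v1, hv1⟩ := hE.dense x hxH ε hε
      obtain ⟨v', hv'1, hv'⟩ := dense_pind hv (hz0 i₀) hi₀ v1 hε
      have hv'K : em v' ∉ K := by
        have h1 : ‖x - em v'‖ < ε := by
          have h2 : x - em v' = (x - em v1) + em (v1 - v') := by
            rw [map_sub]
            ring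
          rw [h2]
          refine lt_of_le_of_lt (IsUltrametricDist.norm_add_le_max _ _) (max_lt hv1 ?_)
          rw [hE.norm]
          exact hv'1
        have h3 : em v' ∈ Metric.ball x ε := by
          rw [Metric.mem_ball, dist_comm, dist_eq_norm]
          exact h1
        exact hball h3
      set M : Subfield W := cl em (MP1a953e.adj L v') with hMdef
      have hMc : IsComplete (M : Set W) := cl_complete hE _
      have hMH : M ≤ H := cl_le hE _
      have hAd : MP1a953e.DenseIn ((MP1a953e.adj L v').map em) M := cl_dense em _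
      have hAM : ∀ a ∈ MP1a953e.adj L v', em a ∈ M := fun a ha => hAd.1 ⟨a, ha, rfl⟩
      have hv'M : em v' ∈ M := hAM v' (pt_mem_adj L v')
      have hKM : K ≤ M := by
        intro w hw
        have hMcl : IsClosed (M : Set W) := hMc.isClosed
        have h1 : w ∈ closure (M : Set W) := by
          rw [Metric.mem_closure_iff]
          intro δ hδ
          obtain ⟨a, ⟨b, hb, rfl⟩, hlt⟩ := hLd.2 w hw δ hδ
          exact ⟨em b, hAM b (pt_le_adj L v' hb), by rwa [dist_eq_norm]⟩
        rwa [hMcl.closure_eq] at h1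
      have hMd : MP1a953e.DenseIn (MP1a953e.adj K (em v')) M := by
        refine ⟨pt_adj_le hKM hv'M, fun w hw δ hδ => ?_⟩
        obtain ⟨a, ⟨b, hb, rfl⟩, hlt⟩ := hAd.2 w hw δ hδ
        refine ⟨em b, ?_, hlt⟩
        exact pt_map_adj em (fun a ha => pt_le_adj K _ (hemL a ha)) (pt_mem_adj K _) b hb
      have hFS : HR.FSep M H := by
        have fs := fsep_of_pind hkuL hv' htr
        obtain ⟨th, _, hths, hth⟩ := fs.prim
        have hsep : IsSeparable M (em th) := pt_sep em hAM hths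
        have hNc : IsComplete (MP1a953e.adj M (em th) : Set W) :=
          MP1a953e.complete_adj hMc ⟨em (z i₀)⁻¹, hKM (hemL _ (L.inv_mem (hzL i₀))),
            by rw [hE.norm]; exact hnt1⟩ hsep.isIntegral.isAlgebraic
        have hH : H = MP1a953e.adj M (em th) := by
          apply le_antisymm
          · intro w hw
            have hcl' : IsClosed (MP1a953e.adj M (em th) : Set W) := hNc.isClosed
            have h1 : w ∈ closure (MP1a953e.adj M (em th) : Set W) := by
              rw [Metric.mem_closure_iff]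
              intro δ hδ
              obtain ⟨x', hx'⟩ := hE.dense w hw δ hδ
              refine ⟨em x', ?_, by rwa [dist_eq_norm]⟩
              have h2 : x' ∈ MP1a953e.adj (MP1a953e.adj L v') th := by
                rw [← hth]
                trivial
              exact pt_map_adj em (fun a ha => pt_le_adj M _ (hAM a ha)) (pt_mem_adj M _) x' h2
            rwa [hcl'.closure_eq] at h1
          · exact pt_adj_le hMH (hE.mem th)
        rw [hH]
        exact HR.FSep.adj hsep
      obtain ⟨w, ⟨y₀, hy₀, rfl⟩, hwK, hTT, -, hLy⟩ := HR.hr_dense hk hcl hI hv'M hv'K hMc hMd hFS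
        (F := {w | ∃ y : F, PInd p (ext1 z y) ∧ em y = w})
        (by
          rintro w ⟨y, _, rfl⟩
          exact hE.mem y)
        (by
          intro w hw δ hδ
          obtain ⟨x1, hx1⟩ := hE.dense w hw δ hδ
          obtain ⟨y', hy'1, hy'⟩ := dense_pind hv (hz0 i₀) hi₀ x1 hδ
          refine ⟨em y', ⟨y', hy', rfl⟩, ?_⟩
          have h2 : w - em y' = (w - em x1) + em (x1 - y') := by
            rw [map_sub]
            ring
          rw [h2]
          refine lt_of_le_of_lt (IsUltrametricDist.norm_add_le_max _ _) (max_lt hx1 ?_)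
          rw [hE.norm]
          exact hy'1)
      refine ⟨y₀, hy₀, fun n => ?_, fun x ε hε => ?_⟩
      · have hnK : em (y₀ * z i₀ ^ n) ∉ K := by
          intro hmem
          apply hwK
          have h1 : em y₀ = em (y₀ * z i₀ ^ n) * (em (z i₀ ^ n))⁻¹ := by
            have h2 : em (z i₀ ^ n) ≠ 0 := by
              rw [Ne, map_eq_zero]
              exact pow_ne_zero n (hz0 i₀)
            rw [map_mul]
            field_simp
          rw [h1]
          exact K.mul_mem hmem (K.inv_mem (hemL _ (L.pow_mem (hzL i₀) n)))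
        have hTTn : MP1a953e.TT K (em (y₀ * z i₀ ^ n)) :=
          HR.tt_of_hcl hk hcl hI (hE.mem _) hnK
        exact t4_pull hE.norm (HR.t4_of_tt hLd hTTn)
      · obtain ⟨a, ha, hlt⟩ := hLy.2 (em x) (hE.mem x) ε hε
        have h1 : MP1a953e.adj (L.map em) (em y₀) ≤ (MP1a953e.adj L y₀).map em := by
          apply pt_adj_le
          · rintro _ ⟨b, hb, rfl⟩
            exact ⟨b, pt_le_adj L y₀ hb, rfl⟩
          · exact ⟨y₀, pt_mem_adj L y₀, rfl⟩
        obtain ⟨b, hb, rfl⟩ := h1 ha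
        refine ⟨b, hb, ?_⟩
        have h2 : em x - em b = em (x - b) := (map_sub em x b).symm
        rw [h2, hE.norm] at hlt
        exact hlt
  obtain ⟨y₀, hy₀, hT4, hd⟩ := key
  -- scaling
  obtain ⟨n, hn⟩ : ∃ n : ℕ, ‖y₀‖ * ‖z i₀‖ ^ n ≤ 1 := by
    by_cases hy : ‖y₀‖ = 0
    · exact ⟨0, by rw [hy]; norm_num⟩
    · have hpos : 0 < ‖y₀‖ := lt_of_le_of_ne (norm_nonneg _) (Ne.symm hy)
      obtain ⟨n, hn⟩ := exists_pow_lt_of_lt_one (inv_pos.2 hpos) hi₀
      refine ⟨n, ?_⟩
      calc ‖y₀‖ * ‖z i₀‖ ^ n ≤ ‖y₀‖ * ‖y₀‖⁻¹ := mul_le_mul_of_nonneg_left hn.le hpos.le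
        _ = 1 := mul_inv_cancel₀ hy
  refine ⟨y₀ * z i₀ ^ n, ?_, pind_mul hy₀ (hz0 i₀) n, hT4 n, fun x ε hε => ?_⟩
  · rw [norm_mul, norm_pow]
    exact hn
  · obtain ⟨a, ha, hlt⟩ := hd x ε hε
    refine ⟨a, ?_, hlt⟩
    have hzn : z i₀ ^ n ≠ 0 := pow_ne_zero n (hz0 i₀)
    have h2 : (y₀ * z i₀ ^ n) * (z i₀ ^ n)⁻¹ = y₀ := mul_inv_cancel_right₀ hzn y₀
    have h3 : y₀ ∈ MP1a953e.adj L (y₀ * z i₀ ^ n) := by
      have h4 := (MP1a953e.adj L (y₀ * z i₀ ^ n)).mul_mem (pt_mem_adj L (y₀ * z i₀ ^ n))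
        ((MP1a953e.adj L (y₀ * z i₀ ^ n)).inv_mem (pt_le_adj L _ (L.pow_mem (hzL i₀) n)))
      rwa [h2] at h4
    exact pt_adj_le (pt_le_adj L _) h3 ha

end TA
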