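import Pool.Agent.Lib.TS.Defs
import Pool.Agent.Lib.TS.PB1

/-!
# Module TS.Res: generators of the residue field

`κ'` denotes the residue field of `ball F`, a `k`-algebra by `resMap` (put
`letI := (resMap (ball F) hk).toAlgebra` and work with it).  For `z` with `‖z‖ ≤ 1` the residue
`residue (ball F) ⟨z, _⟩` is zero iff `‖z‖ < 1` (`IsLocalRing.residue_eq_zero_iff`,
`ValuationSubring.valuation_lt_one_iff` and `E2_lt_iff`), residue is a ring homomorphism, surjective.

PROOF.
(1) GENERATORS: `k` is perfect, `κ'` is essentially of finite type of transcendence degree `s`, so there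
    are `ū : Fin s → κ'`, algebraically independent over `k`, with `κ'` separable algebraic over
    `M = IntermediateField.adjoin k (range ū)` and a primitive element `ē` (`adjoin M {ē} = ⊤`): this is the
    private lemma `exists_gens` in Pool/Agent/Lib/MP_1a953e_ag/Em3.lean (copy it).  `PInd p ū` by
    `pind_of_sep` (CharP for `κ'`: `p = 0` in `κ'`).
    Choose lifts `u i`, `e` of norm `≤ 1`.
(2) For `Q ≠ 0` in `MvPolynomial (Fin s) k`: `aeval u Q` has norm `≤ 1` and residue `aeval ū Q ≠ 0`
    (`AlgebraicIndependent`), so `‖aeval u Q‖ = 1`.  An element of `κ = ku (kF k F) u` is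
    `aeval u Q₁ / aeval u Q₂` (`mem_adjoin_iff'`, `IntermediateField.mem_adjoin_range_iff`), so it is zero or of norm
    one: `triv`.  Let `ρ : κ →+* κ'`, `ρ x =` residue of `x` (well defined by `triv`; a ring homomorphism,
    e.g. `(residue _).comp (κ.subtype.codRestrict …)`).  It is injective, and its range is `M`: it contains
    `k` and the `ū i`, and the residue of `aeval u Q₁ / aeval u Q₂` is `aeval ū Q₁ / aeval ū Q₂`.
(3) Let `P'` be the minimal polynomial of `ē` over `M` and `P ∈ F[X]` the polynomial whose coefficients are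
    the preimages in `κ` of those of `P'`: `PolyIn κ P`, monic, of the same degree.  `Q := ρ`-reduction: for `g`
    over `κ` let `ḡ ∈ M[X]` be its image; `g ≠ 0` iff `ḡ ≠ 0`, same degree, and the residue of `g(e)`
    is `ḡ(ē)` (all coefficients have norm `≤ 1`).  `min`: if `g ≠ 0` has smaller degree then
    `ḡ(ē) ≠ 0` (`minpoly.degree_le_of_ne_zero`), so `‖g(e)‖ = 1`.  `root`: `P'(ē) = 0`.
    `simple`: `P'` is separable, so its derivative does not vanish at `ē`.
    `res`: the residue of `z` is `h(ē)` with `h ∈ M[X]` (`adjoin M {ē} = ⊤`, `ē` algebraic: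
    `IntermediateField.adjoin_simple_toSubalgebra_of_isAlgebraic`, `Algebra.adjoin_singleton_eq_range_aeval`);
    lift `h` to `g` over `κ`.
(4) `pind`: if all `c t = 0` both sides are `0`.  Otherwise let `t₁` be an index with `‖c t₁‖` maximal and
    `c' t = c t / c t₁`, of norm `≤ 1`.  The residue of `∑ pmon u t * (c' t) ^ p` is
    `∑ pmon ū t * (residue of c' t) ^ p`, not zero by `PInd p ū` because the residue of `c' t₁ = 1` is not
    zero.  So `‖∑ pmon u t * (c' t) ^ p‖ = 1`; multiply by `‖c t₁‖ ^ p ≥ ‖c t‖ ^ p`.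
-/

open IsLocalRing Polynomial

namespace TA
open Pool.Agent.Lib.MP_3029eb_ag Pool.Agent.Lib.MP_3029eb_ag.Abh

section res

variable {F : Type} [NormedField F] [IsUltrametricDist F]

private theorem tsres_zero_iff (x : ball F) : residue (ball F) x = 0 ↔ ‖(x : F)‖ < 1 := by
  rw [residue_eq_zero_iff, ValuationSubring.valuation_lt_one_iff, E2_lt_iff]

private theorem tsres_one_iff (x : ball F) : residue (ball F) x ≠ 0 ↔ ‖(x : F)‖ = 1 := by
  rw [Ne, tsres_zero_iff, not_lt]
  exact ⟨fun h => le_antisymm ((mem_ball _).1 x.2) h, fun h => h.ge⟩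

private theorem tsres_eq_iff (x y : ball F) :
    residue (ball F) x = residue (ball F) y ↔ ‖(x : F) - y‖ < 1 := by
  rw [← sub_eq_zero, ← map_sub, tsres_zero_iff]
  rfl

/-- inclusion of a trivially normed subfield in the unit ball -/
private noncomputable def tsInc (κ : Subfield F) (h : ∀ x ∈ κ, x ≠ 0 → ‖x‖ = 1) : κ →+* ball F :=
  κ.subtype.codRestrict (ball F) (fun x => by
    rw [mem_ball]
    by_cases h0 : (x : F) = 0
    · show ‖(x : F)‖ ≤ 1
      rw [h0, norm_zero]; exact zero_le_one
    · exact (h x x.2 h0).le)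

private theorem coe_tsInc (κ : Subfield F) (h : ∀ x ∈ κ, x ≠ 0 → ‖x‖ = 1) (x : κ) :
    ((tsInc κ h x : ball F) : F) = x := rfl

/-- the residue map of a trivially normed subfield -/
private noncomputable def tsRho (κ : Subfield F) (h : ∀ x ∈ κ, x ≠ 0 → ‖x‖ = 1) :
    κ →+* ResidueField (ball F) := (residue (ball F)).comp (tsInc κ h)

private theorem tsRho_eq {κ : Subfield F} {h : ∀ x ∈ κ, x ≠ 0 → ‖x‖ = 1} {x : κ} {y : ball F}
    (hxy : (x : F) = y) : tsRho κ h x = residue (ball F) y := by
  rw [tsRho, RingHom.comp_apply, tsres_eq_iff, coe_tsInc, hxy, sub_self, norm_zero]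
  exact one_pos

end res

section fields

private theorem ts_mem_of_gen {F E : Type*} [Field F] [Field E] [Algebra F E] {T : Set E}
    (S : Subfield E) (h1 : ∀ x : F, algebraMap F E x ∈ S) (h2 : T ⊆ S) :
    ∀ x ∈ IntermediateField.adjoin F T, x ∈ S := by
  intro x hx
  have h3 : IntermediateField.adjoin F T ≤ S.toIntermediateField h1 :=
    IntermediateField.adjoin_le_iff.2 h2
  exact h3 hx

/-- separating generators -/
private theorem ts_exists_gens {F E : Type} [Field F] [Field E] [Algebra F E] [PerfectField F]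
    (hess : Algebra.EssFiniteType F E) {m : ℕ} (htr : Algebra.trdeg F E = m) :
    ∃ (u : Fin m → E) (a : E), AlgebraicIndependent F u ∧
      (Algebra.IsSeparable (IntermediateField.adjoin F (Set.range u)) E) ∧
      IntermediateField.adjoin (IntermediateField.adjoin F (Set.range u)) {a} = ⊤ := by
  obtain ⟨s, hs, hsep⟩ := exists_isTranscendenceBasis_and_isSeparable_of_perfectField F E
  have hcard : Fintype.card s = m := by
    have h1 := hs.cardinalMk_eq_trdeg
    rw [htr] at h1
    simpa using h1
  set e : Fin m ≃ s := (Fintype.equivFinOfCardEq hcard).symm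
  have hr : Set.range (((↑) : s → E) ∘ e) = (s : Set E) := by
    rw [EquivLike.range_comp]
    simp
  rw [← hr] at hsep
  have h2 : Algebra.EssFiniteType
      (IntermediateField.adjoin F (Set.range (((↑) : s → E) ∘ e))) E :=
    Algebra.EssFiniteType.of_comp F _ E
  have h3 : FiniteDimensional (IntermediateField.adjoin F (Set.range (((↑) : s → E) ∘ e))) E :=
    Algebra.finite_of_essFiniteType_of_isAlgebraic
  obtain ⟨a, ha⟩ := Field.exists_primitive_element
    (IntermediateField.adjoin F (Set.range (((↑) : s → E) ∘ e))) E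
  exact ⟨((↑) : s → E) ∘ e, a, (hs.comp_equiv e).1, hsep, ha⟩

end fields

section main

variable {k F : Type} [Field k] [NormedField F] [IsUltrametricDist F]
    [Algebra k F]

/-- values of polynomials over `k` -/
private theorem ts_norm_aeval {hk : ∀ c : k, algebraMap k F c ∈ ball F}
    [Algebra k (ResidueField (ball F))]
    (halg : ∀ c : k, algebraMap k (ResidueField (ball F)) c =
      residue (ball F) ⟨algebraMap k F c, hk c⟩) {m : ℕ} (u : Fin m → ball F)
    (hu : AlgebraicIndependent k (fun i => residue (ball F) (u i)))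
    (P : MvPolynomial (Fin m) k) (hP : P ≠ 0) :
    ‖MvPolynomial.aeval (fun i => (u i : F)) P‖ = 1 := by
  set σ : k →+* ball F := (algebraMap k F).codRestrict (ball F) hk with hσ
  set Y : MvPolynomial (Fin m) k →+* ball F := MvPolynomial.eval₂Hom σ u with hY
  have h1 : ((ball F).subtype.comp Y) =
      (MvPolynomial.aeval (fun i => (u i : F)) : MvPolynomial (Fin m) k →ₐ[k] F).toRingHom := by
    apply MvPolynomial.ringHom_ext
    · intro c
      simp only [hY, RingHom.comp_apply, MvPolynomial.eval₂Hom_C, AlgHom.toRingHom_eq_coe,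
        RingHom.coe_coe, MvPolynomial.aeval_C]
      rfl
    · intro i
      simp [hY]
  have h2 : (residue (ball F)).comp Y =
      (MvPolynomial.aeval (fun i => residue (ball F) (u i)) :
        MvPolynomial (Fin m) k →ₐ[k] ResidueField (ball F)).toRingHom := by
    apply MvPolynomial.ringHom_ext
    · intro c
      simp only [hY, RingHom.comp_apply, MvPolynomial.eval₂Hom_C, AlgHom.toRingHom_eq_coe,
        RingHom.coe_coe, MvPolynomial.aeval_C]
      rw [halg]
      rfl
    · intro i
      simp [hY]
  have h4 : residue (ball F) (Y P) ≠ 0 := by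
    have h5 := RingHom.congr_fun h2 P
    simp only [RingHom.comp_apply] at h5
    rw [h5]
    intro h6
    exact hP ((algebraicIndependent_iff.1 hu) _ h6)
  rw [tsres_one_iff] at h4
  have h6 := RingHom.congr_fun h1 P
  simp only [RingHom.comp_apply, AlgHom.toRingHom_eq_coe, RingHom.coe_coe] at h6
  rw [← h6]
  exact h4

private theorem ts_triv {hk : ∀ c : k, algebraMap k F c ∈ ball F}
    [Algebra k (ResidueField (ball F))]
    (halg : ∀ c : k, algebraMap k (ResidueField (ball F)) c =
      residue (ball F) ⟨algebraMap k F c, hk c⟩) {m : ℕ} (u : Fin m → ball F)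
    (hu : AlgebraicIndependent k (fun i => residue (ball F) (u i))) :
    ∀ x ∈ ku (kF k F) (fun i => (u i : F)), x ≠ 0 → ‖x‖ = 1 := by
  intro x hx hx0
  rw [ku, ← mem_adjoin_iff'] at hx
  obtain ⟨r, s, hrs⟩ := (IntermediateField.mem_adjoin_range_iff k _ x).1 hx
  have hr : r ≠ 0 := by
    rintro rfl
    simp [hrs] at hx0
  have hs : s ≠ 0 := by
    rintro rfl
    simp [hrs] at hx0
  rw [hrs, norm_div, ts_norm_aeval halg u hu r hr, ts_norm_aeval halg u hu s hs, div_one]

/-- the range of the residue map of `κ` contains `M` -/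
private theorem ts_range_ge {hk : ∀ c : k, algebraMap k F c ∈ ball F}
    [Algebra k (ResidueField (ball F))]
    (halg : ∀ c : k, algebraMap k (ResidueField (ball F)) c =
      residue (ball F) ⟨algebraMap k F c, hk c⟩) {m : ℕ} (u : Fin m → ball F)
    (hκ : ∀ x ∈ ku (kF k F) (fun i => (u i : F)), x ≠ 0 → ‖x‖ = 1) :
    ∀ x ∈ IntermediateField.adjoin k (Set.range fun i => residue (ball F) (u i)),
      x ∈ (tsRho _ hκ).fieldRange := by
  apply ts_mem_of_gen
  · intro c
    rw [halg]
    refine ⟨⟨algebraMap k F c, (le_sup_left : kF k F ≤ _) ⟨c, rfl⟩⟩, ?_⟩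
    exact tsRho_eq rfl
  · rintro _ ⟨i, rfl⟩
    refine ⟨⟨u i, (le_sup_right : Subfield.closure _ ≤ kF k F ⊔ _)
      (Subfield.subset_closure ⟨i, rfl⟩)⟩, ?_⟩
    exact tsRho_eq rfl

/-- the range of the residue map of `κ` is contained in `M` -/
private theorem ts_range_le {hk : ∀ c : k, algebraMap k F c ∈ ball F}
    [Algebra k (ResidueField (ball F))]
    (halg : ∀ c : k, algebraMap k (ResidueField (ball F)) c =
      residue (ball F) ⟨algebraMap k F c, hk c⟩) {m : ℕ} (u : Fin m → ball F)
    (hκ : ∀ x ∈ ku (kF k F) (fun i => (u i : F)), x ≠ 0 → ‖x‖ = 1)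
    (x : ku (kF k F) (fun i => (u i : F))) :
    tsRho _ hκ x ∈ IntermediateField.adjoin k (Set.range fun i => residue (ball F) (u i)) := by
  set M := IntermediateField.adjoin k (Set.range fun i => residue (ball F) (u i)) with hM
  have h1 : ku (kF k F) (fun i => (u i : F)) ≤
      (M.toSubfield.comap (tsRho _ hκ)).map (ku (kF k F) (fun i => (u i : F))).subtype := by
    refine sup_le ?_ ?_
    · rintro _ ⟨c, rfl⟩
      refine ⟨⟨algebraMap k F c, (le_sup_left : kF k F ≤ _) ⟨c, rfl⟩⟩, ?_, rfl⟩
      have h2 : tsRho _ hκ ⟨algebraMap k F c, (le_sup_left : kF k F ≤ _) ⟨c, rfl⟩⟩ =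
          algebraMap k (ResidueField (ball F)) c := by
        rw [halg]
        exact tsRho_eq rfl
      change tsRho _ hκ _ ∈ M
      rw [h2]
      exact M.algebraMap_mem c
    · rw [Subfield.closure_le]
      rintro _ ⟨i, rfl⟩
      refine ⟨⟨u i, (le_sup_right : Subfield.closure _ ≤ kF k F ⊔ _)
        (Subfield.subset_closure ⟨i, rfl⟩)⟩, ?_, rfl⟩
      have h2 : tsRho _ hκ ⟨u i, (le_sup_right : Subfield.closure _ ≤ kF k F ⊔ _)
        (Subfield.subset_closure ⟨i, rfl⟩)⟩ = residue (ball F) (u i) := tsRho_eq rfl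
      change tsRho _ hκ _ ∈ M
      rw [h2]
      exact IntermediateField.subset_adjoin _ _ ⟨i, rfl⟩
  obtain ⟨y, hy, hyx⟩ := h1 x.2
  have h2 : y = x := Subtype.ext hyx
  rw [h2] at hy
  exact hy

/-- `p`-independence of the lifts -/
private theorem ts_pind {p : ℕ} [Fact p.Prime] {m : ℕ} (u : Fin m → ball F)
    (hp : PInd p (fun i => residue (ball F) (u i))) (c : (Fin m → Fin p) → F)
    (t : Fin m → Fin p) :
    ‖c t‖ ^ p ≤ ‖∑ t, pmon (fun i => (u i : F)) t * c t ^ p‖ := by
  classical
  have hp0 : p ≠ 0 := (Fact.out : p.Prime).ne_zero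
  have hne : (Finset.univ : Finset (Fin m → Fin p)).Nonempty := ⟨t, Finset.mem_univ t⟩
  obtain ⟨t1, -, ht1⟩ := Finset.exists_max_image Finset.univ (fun t => ‖c t‖) hne
  by_cases h0 : c t1 = 0
  · have h1 : c t = 0 := by
      have h2 := ht1 t (Finset.mem_univ t)
      rw [h0, norm_zero] at h2
      exact norm_le_zero_iff.1 h2
    rw [h1, norm_zero, zero_pow hp0]
    exact norm_nonneg _
  · have hpos : 0 < ‖c t1‖ := norm_pos_iff.2 h0
    set c' : (Fin m → Fin p) → ball F := fun t => ⟨c t / c t1, by
      rw [mem_ball, norm_div, div_le_one hpos]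
      exact ht1 t (Finset.mem_univ t)⟩ with hc'
    set S : ball F := ∑ t, (∏ i, u i ^ (t i : ℕ)) * c' t ^ p with hS
    have hS1 : residue (ball F) S = ∑ t, pmon (fun i => residue (ball F) (u i)) t *
        (residue (ball F) (c' t)) ^ p := by
      rw [hS, map_sum]
      refine Finset.sum_congr rfl fun t _ => ?_
      rw [map_mul, map_pow, map_prod, pmon]
      simp only [map_pow]
    have hSne : residue (ball F) S ≠ 0 := by
      rw [hS1]
      intro h
      have h2 := hp _ h t1
      rw [tsres_zero_iff] at h2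
      have h3 : ((c' t1 : ball F) : F) = 1 := div_self h0
      rw [h3, norm_one] at h2
      exact lt_irrefl _ h2
    have hSn : ‖(S : F)‖ = 1 := (tsres_one_iff S).1 hSne
    have hScoe : (S : F) * c t1 ^ p = ∑ t, pmon (fun i => (u i : F)) t * c t ^ p := by
      have h2 : (S : F) = ∑ t, pmon (fun i => (u i : F)) t * (c t / c t1) ^ p := by
        have h3 := map_sum (ball F).subtype (fun t => (∏ i, u i ^ (t i : ℕ)) * c' t ^ p)
          Finset.univ
        rw [← hS] at h3
        refine h3.trans (Finset.sum_congr rfl fun t _ => ?_)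
        rw [map_mul, map_pow, map_prod, pmon]
        simp only [map_pow]
        rfl
      rw [h2, Finset.sum_mul]
      refine Finset.sum_congr rfl fun t _ => ?_
      rw [div_pow, mul_assoc, div_mul_cancel₀ _ (pow_ne_zero p h0)]
    rw [← hScoe, norm_mul, hSn, one_mul, norm_pow]
    have := ht1 t (Finset.mem_univ t)
    gcongr

private theorem ts_main [IsAlgClosed k] {p : ℕ} [Fact p.Prime] [CharP k p]
    {hk : ∀ c : k, algebraMap k F c ∈ ball F}
    [Algebra k (ResidueField (ball F))]
    (halg : ∀ c : k, algebraMap k (ResidueField (ball F)) c =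
      residue (ball F) ⟨algebraMap k F c, hk c⟩) {s : ℕ}
    (hess : Algebra.EssFiniteType k (ResidueField (ball F)))
    (htr : Algebra.trdeg k (ResidueField (ball F)) = (s : Cardinal)) :
    ∃ (u : Fin s → F) (e : F) (P : F[X]), (∀ i, ‖u i‖ ≤ 1) ∧ ResData p (kF k F) u e P := by
  classical
  obtain ⟨ub, ab, hai, hsep, htop⟩ := ts_exists_gens hess htr
  have hchar : CharP (ResidueField (ball F)) p :=
    charP_of_injective_algebraMap (algebraMap k (ResidueField (ball F))).injective p
  have hpi : PInd p ub := pind_of_sep hai hsep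
  choose u hu using fun i => residue_surjective (ub i)
  obtain ⟨e, he⟩ := residue_surjective ab
  have hu' : ub = fun i => residue (ball F) (u i) := funext fun i => (hu i).symm
  subst hu'
  have hκ := ts_triv halg u hai
  set κ := ku (kF k F) (fun i => (u i : F)) with hκdef
  set M := IntermediateField.adjoin k (Set.range fun i => residue (ball F) (u i)) with hM
  set ρ := tsRho κ hκ with hρ
  have hge : ∀ x : M, ∃ y : κ, ρ y = (x : ResidueField (ball F)) :=
    fun x => ts_range_ge halg u hκ x x.2
  have hle : ∀ x : κ, ρ x ∈ M := fun x => ts_range_le halg u hκ x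
  -- residues of values
  have hval : ∀ f : κ[X], residue (ball F) (f.eval₂ (tsInc κ hκ) e) = (f.map ρ).eval ab := by
    intro f
    rw [Polynomial.hom_eval₂, Polynomial.eval_map, he]
    rfl
  have hcoe : ∀ f : κ[X], (((f.eval₂ (tsInc κ hκ) e : ball F)) : F) =
      (f.map κ.subtype).eval (e : F) := by
    intro f
    have h1 := Polynomial.hom_eval₂ f (tsInc κ hκ) (ball F).subtype e
    rw [Polynomial.eval_map]
    exact h1
  have hMv : ∀ f : M[X], (f.map (algebraMap M (ResidueField (ball F)))).eval ab = aeval ab f := by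
    intro f
    rw [Polynomial.eval_map, Polynomial.aeval_def]
  have hlift : ∀ f : M[X], f.map (algebraMap M (ResidueField (ball F))) ∈ Polynomial.lifts ρ := by
    intro f
    rw [Polynomial.lifts_iff_coeff_lifts]
    intro n
    rw [Polynomial.coeff_map]
    exact hge (f.coeff n)
  -- descent of polynomials
  have hdesc : ∀ g : F[X], HR.PolyIn κ g → ∃ g0 : κ[X], g0.map κ.subtype = g := by
    intro g hg
    have h1 : g ∈ Polynomial.lifts κ.subtype := by
      rw [Polynomial.lifts_iff_coeff_lifts]
      intro n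
      exact ⟨⟨g.coeff n, hg n⟩, rfl⟩
    exact (Polynomial.mem_lifts _).1 h1
  have hred : ∀ g : κ[X], ∃ g1 : M[X],
      g1.map (algebraMap M (ResidueField (ball F))) = g.map ρ := by
    intro g
    have h1 : g.map ρ ∈ Polynomial.lifts (algebraMap M (ResidueField (ball F))) := by
      rw [Polynomial.lifts_iff_coeff_lifts]
      intro n
      rw [Polynomial.coeff_map]
      exact ⟨⟨ρ (g.coeff n), hle _⟩, rfl⟩
    exact (Polynomial.mem_lifts _).1 h1
  have hint : IsIntegral M ab := Algebra.IsIntegral.isIntegral ab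
  set P' : M[X] := minpoly M ab with hP'
  have hP'm : P'.Monic := minpoly.monic hint
  have hQm : (P'.map (algebraMap M (ResidueField (ball F)))).Monic := hP'm.map _
  obtain ⟨g0, hg0, hg0d, hg0m⟩ :=
    Polynomial.lifts_and_natDegree_eq_and_monic (hlift P') hQm
  refine ⟨fun i => (u i : F), e, g0.map κ.subtype, fun i => (mem_ball _).1 (u i).2, ?_⟩
  refine ⟨hκ, (mem_ball _).1 e.2, ?_, hg0m.map _, ?_, ?_, ?_, ?_, ?_⟩
  · intro n
    rw [Polynomial.coeff_map]
    exact (g0.coeff n).2
  · intro g hg hgne hgd
    obtain ⟨f0, rfl⟩ := hdesc g hg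
    obtain ⟨f1, hf1⟩ := hred f0
    have hf0 : f0 ≠ 0 := by
      rintro rfl
      simp at hgne
    have hf1ne : f1 ≠ 0 := by
      rintro rfl
      rw [Polynomial.map_zero] at hf1
      exact hf0 ((Polynomial.map_eq_zero_iff ρ.injective).1 hf1.symm)
    have hdeg : f1.natDegree < P'.natDegree := by
      have e1 : f1.natDegree = f0.natDegree := by
        have := congrArg Polynomial.natDegree hf1
        rwa [Polynomial.natDegree_map_eq_of_injective
          (algebraMap M (ResidueField (ball F))).injective,
          Polynomial.natDegree_map_eq_of_injective ρ.injective] at this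
      have e2 : P'.natDegree = g0.natDegree := by
        rw [hg0d, Polynomial.natDegree_map_eq_of_injective
          (algebraMap M (ResidueField (ball F))).injective]
      rw [Polynomial.natDegree_map_eq_of_injective κ.subtype.injective,
        Polynomial.natDegree_map_eq_of_injective κ.subtype.injective] at hgd
      omega
    have hne : aeval ab f1 ≠ 0 := by
      intro h
      have h1 := minpoly.degree_le_of_ne_zero M ab hf1ne h
      have h2 := Polynomial.natDegree_le_natDegree h1
      change P'.natDegree ≤ f1.natDegree at h2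
      omega
    rw [← hcoe, ← tsres_one_iff, hval, ← hf1, hMv]
    exact hne
  · rw [← hcoe, ← tsres_zero_iff, hval, hg0, hMv]
    exact minpoly.aeval M ab
  · rw [Polynomial.derivative_map, ← hcoe, ← tsres_one_iff, hval, ← Polynomial.derivative_map,
      hg0, Polynomial.derivative_map, hMv]
    have hs : (minpoly M ab).Separable := Algebra.IsSeparable.isSeparable M ab
    exact Polynomial.Separable.aeval_derivative_ne_zero hs (minpoly.aeval M ab)
  · intro z hz
    have h1 : residue (ball F) ⟨z, hz⟩ ∈ IntermediateField.adjoin M {ab} := by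
      rw [htop]; trivial
    have h2 : residue (ball F) ⟨z, hz⟩ ∈ (IntermediateField.adjoin M {ab}).toSubalgebra := h1
    rw [IntermediateField.adjoin_simple_toSubalgebra_of_isAlgebraic hint.isAlgebraic,
      Algebra.adjoin_singleton_eq_range_aeval] at h2
    obtain ⟨f, hf⟩ := h2
    obtain ⟨f0, hf0⟩ := (Polynomial.mem_lifts _).1 (hlift f)
    refine ⟨f0.map κ.subtype, fun n => ?_, ?_⟩
    · rw [Polynomial.coeff_map]
      exact (f0.coeff n).2
    · rw [← hcoe]
      have h3 : residue (ball F) ⟨z, hz⟩ = residue (ball F) (f0.eval₂ (tsInc κ hκ) e) := by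
        rw [hval, hf0, hMv]
        exact hf.symm
      exact (tsres_eq_iff _ _).1 h3
  · exact ts_pind u hpi

end main

theorem exists_resData {k F : Type} [Field k] [IsAlgClosed k] [NormedField F] [IsUltrametricDist F]
    [Algebra k F] {p : ℕ} [Fact p.Prime] [CharP k p] [CharP F p]
    (hk : ∀ c : k, algebraMap k F c ∈ ball F) {s : ℕ} (h : ResFG (ball F) hk s) :
    ∃ (u : Fin s → F) (e : F) (P : F[X]), (∀ i, ‖u i‖ ≤ 1) ∧ ResData p (kF k F) u e P := by
  let _ := (resMap (ball F) hk).toAlgebra
  exact ts_main (hk := hk) (fun _ => rfl) h.fg h.tr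

end TA
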