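import Pool.Agent.Lib.TS.Res
import Pool.Agent.Lib.TS.Newt
import Pool.Agent.Lib.TS.ParG
import Pool.Agent.Lib.TS.Dec
import Pool.Agent.Lib.TS.Pt

/-!
# Module TS.TAD: the data for local uniformization exist

PROOF of `exists_TAData`.
* `exists_resData`: `u`, `e₀`, `P`.  `exists_eW` with `x`: `e`, `w`, `i₀`, `Indep w`, `‖w i‖ = ‖x i‖`,
  `w i₀ = P(e)`, `ResData p (kF k F) u e P`.  `hval` holds for `w` (`norm_mon_congr`).
* `gens = gensOf u e w`, `L = Lof (kF k F) u e w`; `par` is `par_gens`, `hL` is `rfl`, `triv`: `kF k F ≤ ku (kF k F) u`.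
* `z = Sum.elim u w` (index type `Fin s ⊕ Fin r`, `Fintype.card_sum`, `Fintype.card_fin`); `orth_uw`,
  `pind_of_orth`: `PInd p z`.  `exists_sep_ext` and `pind_of_sep`: there is `v` with `PInd p (ext1 z v)`
  (`trdeg = (s + r) + 1`).
* `dec_L`; `approx_L`; `uw_ne`; `L` is finitely generated over `kF k F`; `L` is algebraic over
  `ku (kF k F) z`: `L = ku (kF k F) z ⊔ closure {e}` and `e` is a root of the nonzero polynomial `P - C (w i₀)` over
  `ku (kF k F) z` (not zero: if `P = C (w i₀)` then `P` is monic of degree `0`, `P = 1`, `‖P(e)‖ = 1`, against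
  `root`), so all elements of `L` are algebraic (`IntermediateField`/`HR.exists_poly_of_mem_adj`, or
  `isAlgebraic` of simple extensions).
* `exists_point` (with `i₀ := Sum.inr i₀`, `‖w i₀‖ < 1`): `y`.  `exists_th` (`ku (kF k F) z ≤ L`): `th`.
-/

open IsLocalRing Polynomial

namespace TA
open Pool.Agent.Lib.MP_3029eb_ag Pool.Agent.Lib.MP_3029eb_ag.Abh

private theorem tad_alg_root {W : Type} [Field W] {E : Subfield W} {h : W[X]}
    (hh : ∀ n, h.coeff n ∈ E) (h0 : h ≠ 0) {b : W} (hb : h.eval b = 0) : IsAlgebraic E b := by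
  have h1 : h ∈ lifts (algebraMap E W) := by
    rw [lifts_iff_coeff_lifts]
    intro n
    exact ⟨⟨h.coeff n, hh n⟩, rfl⟩
  obtain ⟨h', rfl⟩ := (mem_lifts h).1 h1
  have h2 : h' ≠ 0 := by
    rintro rfl
    exact h0 (Polynomial.map_zero _)
  exact ⟨h', h2, by rw [aeval_def, ← eval_map]; exact hb⟩

private theorem tad_kuL {F : Type} [NormedField F] (k : Subfield F) {s r : ℕ} (u : Fin s → F)
    (e : F) (w : Fin r → F) : ku k (Sum.elim u w) ≤ Lof k u e w := by
  refine sup_le (k_le_Lof _ _ _ _) ?_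
  rw [Subfield.closure_le]
  rintro _ ⟨i, rfl⟩
  rcases i with i | i
  · exact u_mem_Lof k u e w i
  · exact w_mem_Lof k u e w i

private theorem tad_alg {F : Type} [NormedField F] [IsUltrametricDist F] {p : ℕ} {k : Subfield F}
    {s r : ℕ} {u : Fin s → F} {e : F} {P : F[X]} {w : Fin r → F} (h : ResData p k u e P)
    {i₀ : Fin r} (hi₀ : w i₀ = P.eval e) :
    ∀ x ∈ Lof k u e w, IsAlgebraic (ku k (Sum.elim u w)) x := by
  have hmem : ∀ i, Sum.elim u w i ∈ ku k (Sum.elim u w) := fun i =>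
    (le_sup_right : Subfield.closure _ ≤ _) (Subfield.subset_closure ⟨i, rfl⟩)
  have hkM : k ≤ ku k (Sum.elim u w) := le_sup_left
  have huM : ku k u ≤ ku k (Sum.elim u w) := by
    refine sup_le hkM ?_
    rw [Subfield.closure_le]
    rintro _ ⟨i, rfl⟩
    exact hmem (Sum.inl i)
  have hself : ∀ x ∈ ku k (Sum.elim u w), IsAlgebraic (ku k (Sum.elim u w)) x := fun x hx =>
    isAlgebraic_algebraMap (⟨x, hx⟩ : ku k (Sum.elim u w))
  have hne : P - C (w i₀) ≠ 0 := by
    intro h0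
    have h1 : P = C (w i₀) := sub_eq_zero.1 h0
    have h2 : P.natDegree = 0 := by rw [h1, natDegree_C]
    have h3 : P = 1 := h.monic.natDegree_eq_zero.1 h2
    have h4 := h.root
    rw [h3, eval_one, norm_one] at h4
    exact lt_irrefl _ h4
  have he : IsAlgebraic (ku k (Sum.elim u w)) e := by
    refine tad_alg_root (h := P - C (w i₀)) ?_ hne ?_
    · exact HR.polyIn_sub (fun n => huM (h.poly n)) (HR.polyIn_C (hmem (Sum.inr i₀)))
    · rw [eval_sub, eval_C, hi₀, sub_self]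
  have hle : Lof k u e w ≤ (algebraicClosure (ku k (Sum.elim u w)) F).toSubfield := by
    refine sup_le ?_ ?_
    · exact fun x hx => (mem_algebraicClosure_iff).2 (hself x (hkM hx))
    · rw [Subfield.closure_le, coe_gensOf]
      rintro x ((hx | hx) | hx)
      · obtain ⟨i, rfl⟩ := hx
        exact (mem_algebraicClosure_iff).2 (hself _ (hmem (Sum.inl i)))
      · rw [Set.mem_singleton_iff] at hx
        rw [hx]
        exact (mem_algebraicClosure_iff).2 he
      · obtain ⟨i, rfl⟩ := hx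
        exact (mem_algebraicClosure_iff).2 (hself _ (hmem (Sum.inr i)))
  exact fun x hx => (mem_algebraicClosure_iff).1 (hle hx)

theorem exists_TAData {k F : Type} [Field k] [IsAlgClosed k] [NormedField F] [IsUltrametricDist F]
    [Algebra k F] [Algebra.EssFiniteType k F] {p : ℕ} [Fact p.Prime] [CharP k p] [CharP F p]
    (hk : ∀ c : k, algebraMap k F c ∈ ball F) {r s : ℕ} (hr : 0 < r) {x : Fin r → F}
    (hx : Indep x) (hval : ∀ z : F, z ≠ 0 → ∃ δ : Fin r → ℤ, ‖z‖ = ‖mon x δ‖)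
    (hs : ResFG (ball F) hk s) (htr : Algebra.trdeg k F = ((r + s + 1 : ℕ) : Cardinal)) :
    ∃ (gens : Finset F) (w : Fin r → F) (L : Subfield F) (y th : F), ‖y‖ ≤ 1 ∧
      TAData (kF k F) gens w L y th := by
  obtain ⟨u, e₀, P, hu1, hR₀⟩ := exists_resData (p := p) hk hs
  obtain ⟨e, w, i₀, hw, hwx, hwi, hR⟩ := exists_eW hR₀ hr hx
  have hvalw : ∀ z : F, z ≠ 0 → ∃ δ : Fin r → ℤ, ‖z‖ = ‖mon w δ‖ := by
    intro z hz
    obtain ⟨δ, hδ⟩ := hval z hz
    exact ⟨δ, by rw [hδ, norm_mon_congr hwx]⟩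
  have horth := orth_uw hu1 hR.pind hw hvalw
  have hPz : PInd p (Sum.elim u w) := pind_of_orth hu1 hR.pind hw hvalw
  have htr' : Algebra.trdeg k F =
      ((Fintype.card (Fin s ⊕ Fin r) + 1 : ℕ) : Cardinal) := by
    rw [htr, Fintype.card_sum, Fintype.card_fin, Fintype.card_fin, add_comm r s]
  obtain ⟨v, hvai, hvsep⟩ := exists_sep_ext (k := k) hPz htr'
  have hPv : PInd p (ext1 (Sum.elim u w) v) := pind_of_sep hvai hvsep
  have hkuL : ku (kF k F) (Sum.elim u w) ≤ Lof (kF k F) u e w := tad_kuL _ _ _ _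
  have hzL : ∀ i, Sum.elim u w i ∈ Lof (kF k F) u e w := by
    rintro (i | i)
    · exact u_mem_Lof _ u e w i
    · exact w_mem_Lof _ u e w i
  obtain ⟨y, hy1, hyP, hyT, hyD⟩ := exists_point (k := k) (p := p) (k_le_Lof (kF k F) u e w)
    ⟨gensOf u e w, rfl⟩ hzL (uw_ne hR.pind hw) (tad_alg hR hwi) (fun y hy => dec_L hR hwi hy)
    horth (fun x hx => approx_L hR hw hvalw hx) (i₀ := Sum.inr i₀) (hw.lt i₀) htr' hPv
  obtain ⟨th, hth1, hth2⟩ := exists_th (k := k) hkuL hyP htr'
  refine ⟨gensOf u e w, w, Lof (kF k F) u e w, y, th, hy1, ?_⟩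
  exact
    { pos := hr
      triv := fun x hx hx0 => hR.triv x ((le_sup_left : kF k F ≤ ku (kF k F) u) hx) hx0
      par := par_gens hR hw hwi
      hL := rfl
      val := hvalw
      t4 := hyT
      dense := hyD
      sep := hth1
      gen := hth2 }

end TA
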